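import Pool.Agent.W254.PA.LogP
import Pool.Agent.W254.Ab.Four2
import Pool.Agent.W254.Ab.Rel2
import Pool.Agent.W245.PB.BakerThmP

/-!
# Applications to `p`-adic logarithms
-/

set_option autoImplicit false

namespace Pool.Agent.W254.PA

open Module Finset MvPolynomial Pool.Agent.W254.Ab
open Pool.Agent.W245.PB (IsIwasawaLog brumer)

variable {p : ℕ} [hp : Fact p.Prime] {L : PadicAlgCl p → PadicAlgCl p} (hL : IsIwasawaLog p L)

theorem log_memP {α : PadicAlgCl p} (hα : α ≠ 0) (halg : IsAlgebraic ℚ α) : L α ∈ LtE (logs L) :=
  Submodule.subset_span (Or.inr ⟨α, hα, halg, rfl⟩)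

theorem one_memP : (1 : PadicAlgCl p) ∈ LtE (logs L) := Submodule.subset_span (Or.inl rfl)

include hL in
/-- Brumer's theorem for infinite families. -/
theorem optP_indep {ι : Type} (α : ι → PadicAlgCl p) (hα0 : ∀ i, α i ≠ 0)
    (hα : ∀ i, IsAlgebraic ℚ (α i)) (hli : LinearIndependent ℚ fun i => L (α i)) :
    LinearIndependent (QA (PadicAlgCl p)) (fun o : Option ι => o.elim 1 (fun i => L (α i))) := by
  classical
  rw [linearIndependent_iff']
  intro s g hg
  let s' : Finset ι := s.eraseNone
  have h1 := brumer hL (ι := {i // i ∈ s'}) (fun i => α i) (fun i => hα0 i) (fun i => hα i)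
    (hli.comp _ Subtype.val_injective) (if none ∈ s then (g none : PadicAlgCl p) else 0) (by
      split_ifs
      · exact mem_QA.mp (g none).2
      · exact isAlgebraic_zero)
    (fun i => (g (some i) : PadicAlgCl p)) (fun i => mem_QA.mp (g (some i)).2) (by
      rw [Finset.sum_coe_sort s' (fun i => (g (some i) : PadicAlgCl p) * L (α i))]
      have h2 : ∑ o ∈ s, g o • (o.elim 1 (fun i => L (α i)) : PadicAlgCl p) =
          (if none ∈ s then (g none : PadicAlgCl p) else 0) +
            ∑ i ∈ s', (g (some i) : PadicAlgCl p) * L (α i) := by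
        by_cases hn : none ∈ s
        · rw [if_pos hn, ← Finset.add_sum_erase s _ hn]
          congr 1
          · rw [Algebra.smul_def]
            simp only [Option.elim_none, mul_one]
            rfl
          · have h3 : s.erase none = s'.map Function.Embedding.some := by
              ext o
              cases o with
              | none => simp
              | some i => simp [s']
            rw [h3, Finset.sum_map]
            apply Finset.sum_congr rfl
            intro i _
            rw [Algebra.smul_def]
            rfl
        · rw [if_neg hn, zero_add]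
          have h3 : s = s'.map Function.Embedding.some := by
            ext o
            cases o with
            | none => simp [hn]
            | some i => simp [s']
          conv_lhs => rw [h3]
          rw [Finset.sum_map]
          apply Finset.sum_congr rfl
          intro i _
          rw [Algebra.smul_def]
          rfl
      rw [← h2]
      exact hg)
  intro o ho
  cases o with
  | none =>
    have h2 := h1.1
    rw [if_pos ho] at h2
    exact Subtype.ext h2
  | some i =>
    have h2 := h1.2 ⟨i, by simpa [s'] using ho⟩
    exact Subtype.ext h2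

include hL in
/-- relations between logarithms with coefficients in `QB[t]`, arbitrary numbers `t` -/
theorem gen_logsP {n : ℕ} (t : Fin n → PadicAlgCl p) (D : ℕ)
    {ι : Type} (α : ι → PadicAlgCl p) (hα0 : ∀ i, α i ≠ 0)
    (hα : ∀ i, IsAlgebraic ℚ (α i)) (hli : LinearIndependent ℚ fun i => L (α i)) :
    ∃ E : Finset ι, E.card ≤ (4 * D) ^ n - 2 ^ n ∧
      ∀ (P₀ : MvPolynomial (Fin n) (QA (PadicAlgCl p)))
        (P : ι →₀ MvPolynomial (Fin n) (QA (PadicAlgCl p))),
        (∀ m ∈ P₀.support, ∀ i, m i ≤ D) → (∀ s, ∀ m ∈ (P s).support, ∀ i, m i ≤ D) →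
        (∀ s ∈ E, aeval t (P s) = 0) →
        aeval t P₀ + P.sum (fun s R => aeval t R * L (α s)) = 0 →
        aeval t P₀ = 0 ∧ ∀ s, aeval t (P s) = 0 := by
  classical
  obtain ⟨E, hE0, hEc, hE⟩ := gen_relations (hyp_padic hL) t D
    (fun o : Option ι => (o.elim 1 (fun i => L (α i)) : PadicAlgCl p))
    (optP_indep hL α hα0 hα hli) (by
      intro o
      cases o with
      | none => exact one_memP
      | some i => exact log_memP (hα0 i) (hα i)) none
  refine ⟨E.eraseNone, ?_, ?_⟩
  · refine le_trans ?_ hEc
    rw [← Finset.card_map Function.Embedding.some]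
    apply Finset.card_le_card
    intro o ho
    obtain ⟨i, hi, rfl⟩ := Finset.mem_map.mp ho
    exact Finset.mem_eraseNone.mp hi
  · intro P₀ P hP₀ hP hPE h0
    have hsome : ∀ s, (P.mapDomain some) (some s) = P s := fun s =>
      Finsupp.mapDomain_apply (Option.some_injective ι) _ _
    have hnone : (P.mapDomain some) (none : Option ι) = 0 := by
      apply Finsupp.mapDomain_of_notMem_range
      simp
    have hQ := hE (Finsupp.single none P₀ + P.mapDomain some) ?_ ?_ ?_
    · refine ⟨?_, fun s => ?_⟩
      · have := hQ none
        rwa [Finsupp.add_apply, Finsupp.single_eq_same, hnone, add_zero] at this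
      · have := hQ (some s)
        rwa [Finsupp.add_apply, Finsupp.single_apply, if_neg (by simp), hsome, zero_add] at this
    · intro o m hm i
      cases o with
      | none =>
        rw [Finsupp.add_apply, Finsupp.single_eq_same, hnone, add_zero] at hm
        exact hP₀ m hm i
      | some s =>
        rw [Finsupp.add_apply, Finsupp.single_apply, if_neg (by simp), hsome, zero_add] at hm
        exact hP s m hm i
    · intro o ho
      cases o with
      | none => exact absurd ho hE0
      | some s =>
        rw [Finsupp.add_apply, Finsupp.single_apply, if_neg (by simp), hsome, zero_add]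
        exact hPE s (Finset.mem_eraseNone.mpr ho)
    · rw [Finsupp.sum_add_index (by intro o _; rw [map_zero, zero_mul])
        (by intro o _ a b; rw [map_add, add_mul]),
        Finsupp.sum_single_index (by rw [map_zero, zero_mul]),
        Finsupp.sum_mapDomain_index (by intro o; rw [map_zero, zero_mul])
        (by intro o a b; rw [map_add, add_mul])]
      simpa using h0

include hL in
/-- nonzero logarithms of algebraic numbers are transcendental -/
theorem log_transcendentalP {α : PadicAlgCl p} (hα : α ≠ 0) (halg : IsAlgebraic ℚ α)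
    (h0 : L α ≠ 0) : Transcendental ℚ (L α) := by
  intro h
  have h1 := brumer hL (ι := Fin 1) (fun _ => α) (fun _ => hα) (fun _ => halg)
    (LinearIndependent.of_subsingleton (i := 0) (by simpa using h0)) (-L α) h.neg (fun _ => 1)
    (fun _ => isAlgebraic_one) (by simp)
  exact one_ne_zero (h1.2 0)

theorem algInd_oneP {Ω : Type*} [Field Ω] [CharZero Ω] {t : Ω} (ht : Transcendental ℚ t) :
    AlgebraicIndependent (QA Ω) (fun _ : Fin 1 => t) := by
  rw [algebraicIndependent_unique_type_iff]
  intro h
  apply ht
  haveI : Algebra.IsAlgebraic ℚ (QA Ω) := algebraicClosure.isAlgebraic ℚ Ω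
  exact h.restrictScalars ℚ

/-- the index change -/
def oeP {ι : Type} : Option ι → Fin 1 ⊕ ι := fun o => o.elim (Sum.inl 0) Sum.inr

theorem oeP_inj {ι : Type} : Function.Injective (oeP : Option ι → Fin 1 ⊕ ι) := by
  intro a b h
  cases a <;> cases b <;> simp_all [oeP]

include hL in
/-- a fixed logarithm -/
theorem fixed_logP (D : ℕ) (hD : 1 ≤ D) {ι : Type} (α : Option ι → PadicAlgCl p)
    (hα0 : ∀ i, α i ≠ 0) (hα : ∀ i, IsAlgebraic ℚ (α i))
    (hli : LinearIndependent ℚ (fun o : Option ι => L (α o))) :
    ∃ E : Finset ι, E.card ≤ max 1 (4 * D - 4) ∧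
      ∀ P : MvPolynomial (Option ι) (QA (PadicAlgCl p)),
      (∀ m ∈ P.support, m none ≤ D ∧ ((∀ s, m (some s) = 0) ∨
        ∃ s, s ∉ E ∧ m (some s) = 1 ∧ ∀ s', s' ≠ s → m (some s') = 0)) →
      aeval (fun o : Option ι => L (α o)) P = 0 → P = 0 := by
  classical
  set l₀ : PadicAlgCl p := L (α none) with hl₀
  set l : ι → PadicAlgCl p := fun i => L (α (some i)) with hl
  have hfun : (fun o : Option ι => L (α o)) = fun o : Option ι => (o.elim l₀ l : PadicAlgCl p) := by
    funext o
    cases o <;> rfl
  have hl₀0 : l₀ ≠ 0 := hli.ne_zero none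
  have ht : AlgebraicIndependent (QA (PadicAlgCl p)) (fun _ : Fin 1 => l₀) :=
    algInd_oneP (log_transcendentalP hL (hα0 none) (hα none) hl₀0)
  -- the family `l₀, 1, l i`
  have hw : LinearIndependent (QA (PadicAlgCl p))
      (fun o : Option (Option ι) =>
        (o.elim l₀ (fun o : Option ι => (o.elim 1 l : PadicAlgCl p)) : PadicAlgCl p)) := by
    have h1 := optP_indep hL (ι := Option ι) α hα0 hα hli
    let sw : Option (Option ι) → Option (Option ι) := fun o =>
      match o with
      | none => some none
      | some none => none
      | some (some i) => some (some i)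
    have hsw : Function.Injective sw := by
      intro a b h
      rcases a with _ | _ | a <;> rcases b with _ | _ | b <;> simp_all [sw]
    have h2 := h1.comp sw hsw
    convert h2 using 1
    funext o
    rcases o with _ | _ | o <;> rfl
  obtain ⟨E, hE0, hEc, hE⟩ := fixed_exceptional (hyp_padic hL) ht D hD
    (fun o : Option ι => (o.elim 1 l : PadicAlgCl p)) hw
    (by
      intro o
      cases o with
      | none => exact one_memP
      | some i => exact log_memP (hα0 _) (hα _)) (log_memP (hα0 _) (hα _)) none rfl
  refine ⟨E.eraseNone, ?_, ?_⟩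
  · have h1 : E.eraseNone.card ≤ E.card := by
      rw [← Finset.card_map Function.Embedding.some]
      apply Finset.card_le_card
      intro o ho
      obtain ⟨i, hi, rfl⟩ := Finset.mem_map.mp ho
      exact Finset.mem_eraseNone.mp hi
    refine h1.trans ?_
    obtain ⟨e, rfl⟩ : ∃ e, D = e + 1 := ⟨D - 1, by omega⟩
    have h2 : 2 * (e + 1) - 1 = 2 * e + 1 := by omega
    rw [h2] at hEc
    by_contra hcon
    push Not at hcon
    have h3 : 1 < E.card := lt_of_le_of_lt (le_max_left _ _) hcon
    have h4 : 4 * (e + 1) - 4 < E.card := lt_of_le_of_lt (le_max_right _ _) hcon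
    have h5 : 4 * e + 1 ≤ E.card := by omega
    rcases Nat.eq_zero_or_pos e with he | he
    · subst he
      norm_num at hEc
      omega
    · have h6 : (4 * e + 1) * (e + 1) ≤ E.card * (e + 1) := Nat.mul_le_mul_right _ h5
      nlinarith
  · intro P hP hP0
    rw [hfun] at hP0
    have h1 : rename oeP P = 0 := by
      refine linIn_zero (t := fun _ : Fin 1 => l₀) D l E.eraseNone ?_ (rename oeP P) ?_ ?_
      · intro Q hQ1 hQ2 hQ3
        have hf := hE (Q.mapRange (aeval (fun _ : Fin 1 => l₀)) (map_zero _)) ?_ ?_ ?_
        · ext1 s
          have h4 := congrArg (fun g : Option ι →₀ PadicAlgCl p => g s) hf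
          simp only [Finsupp.mapRange_apply, Finsupp.coe_zero, Pi.zero_apply] at h4
          exact (algebraicIndependent_iff.mp ht) _ h4
        · intro s
          rw [Finsupp.mapRange_apply]
          exact aeval_mem_boxV (fun _ : Fin 1 => l₀) D _ (hQ1 s)
        · rw [Finsupp.sum_mapRange_index (by intro i; ring)]
          exact hQ3
        · intro s hs
          rw [Finsupp.mapRange_apply]
          cases s with
          | none => exact absurd hs hE0
          | some i => rw [hQ2 i (Finset.mem_eraseNone.mpr hs), map_zero]
      · intro m hm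
        rw [support_rename_of_injective oeP_inj] at hm
        obtain ⟨m', hm', rfl⟩ := Finset.mem_image.mp hm
        have hl1 : Finsupp.mapDomain oeP m' (Sum.inl 0) = m' none :=
          Finsupp.mapDomain_apply oeP_inj m' none
        have hr1 : ∀ s, Finsupp.mapDomain oeP m' (Sum.inr s) = m' (some s) := fun s =>
          Finsupp.mapDomain_apply oeP_inj m' (some s)
        obtain ⟨h2, h3⟩ := hP m' hm'
        refine ⟨?_, ?_⟩
        · intro i
          have : i = 0 := Subsingleton.elim _ _
          rw [this, hl1]; exact h2
        · rcases h3 with h3 | ⟨s, hs, h4, h5⟩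
          · left
            intro s
            rw [hr1]; exact h3 s
          · right
            refine ⟨s, hs, by rw [hr1]; exact h4, fun s' hs' => by rw [hr1]; exact h5 s' hs'⟩
      · rw [aeval_rename, ← hP0]
        congr 2
        funext o
        cases o <;> rfl
    exact rename_injective oeP oeP_inj (by rw [h1, map_zero])

end Pool.Agent.W254.PA
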