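import Pool.Agent.W254.PA.Vanish
import Pool.Agent.H301R2.TR.GenMain

/-!
# Existence of an auxiliary polynomial, `p`-adic version
-/

set_option autoImplicit false

namespace Pool.Agent.W254.PA

open Finset Matrix NormedSpace
open Pool.Agent.H301R2.TR (LamF LamF_zero E1 E1_one_le entG entG_map entG_int entG_norm JG CG card_JG growthG
  IntD exists_den exists_det_ne_zero)

theorem sum3P {𝕂 : Type*} [Field 𝕂] {r b l : ℕ} (x : Fin r → Fin b → 𝕂) (y : Fin r → Fin l → 𝕂)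
    (m : Fin b → ℕ) (s : Fin l → ℕ) :
    ∑ j, ∑ q, ∑ i, (m j : 𝕂) * ((s q : 𝕂) * (x i j * y i q)) =
      ∑ i, (∑ j, x i j * (m j : 𝕂)) * (∑ q, y i q * (s q : 𝕂)) := by
  have h1 : ∀ j, ∑ q, ∑ i, (m j : 𝕂) * ((s q : 𝕂) * (x i j * y i q)) =
      ∑ i, ∑ q, (m j : 𝕂) * ((s q : 𝕂) * (x i j * y i q)) := fun j => Finset.sum_comm
  simp only [h1]
  rw [Finset.sum_comm]
  apply Finset.sum_congr rfl
  intro i _
  rw [Finset.sum_mul_sum]
  apply Finset.sum_congr rfl; intro j _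
  apply Finset.sum_congr rfl; intro q _
  ring

variable (p : ℕ) [hp : Fact p.Prime] {𝕂 : Type*} [NontriviallyNormedField 𝕂] [NormedAlgebra ℚ_[p] 𝕂]
  [CharZero 𝕂] [CompleteSpace 𝕂] [IsUltrametricDist 𝕂]

include p hp in
theorem pnorm_natsum_le {n : ℕ} {R : ℝ} (hR : 0 ≤ R) (f : Fin n → 𝕂) (m : Fin n → ℕ)
    (hf : ∀ i, ‖f i‖ ≤ R) : ‖∑ i, f i * (m i : 𝕂)‖ ≤ R := by
  apply pnorm_sum_le _ _ hR
  intro i _
  rw [norm_mul]
  have h1 := norm_natCast_le p (𝕂 := 𝕂) (m i)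
  calc ‖f i‖ * ‖((m i : ℕ) : 𝕂)‖ ≤ R * 1 := by gcongr; exact hf i
    _ = R := mul_one R

theorem entG_expP {w b l r : ℕ} (γ : Fin w → Fin b → 𝕂) (α : Fin w → Fin l → 𝕂)
    (χ : Fin b → Fin l → 𝕂) (x : Fin r → Fin b → 𝕂) (y : Fin r → Fin l → 𝕂) (ω : Fin w → Fin l → 𝕂)
    {A0 W0 : ℝ} (hA0 : 0 ≤ A0) (hW0 : 0 ≤ W0) (hAW : A0 * W0 < (p : ℝ)⁻¹)
    (hx : ∀ ρ j, ‖x ρ j‖ ≤ A0) (hγ : ∀ i j, ‖γ i j‖ ≤ A0) (hy : ∀ ρ q, ‖y ρ q‖ ≤ W0)
    (hω : ∀ i q, ‖ω i q‖ ≤ W0)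
    (hχ : ∀ j q, χ j q = exp (∑ ρ, x ρ j * y ρ q + ∑ i, γ i j * ω i q))
    (k : Fin w → ℕ) (m : Fin b → ℕ) (t : Fin w → ℕ) (s : Fin l → ℕ)
    (hα : ∀ i, k i = 0 ∨ ∀ q, α i q = ω i q) :
    entG γ α χ k m t s =
      ∏ i : Fin r ⊕ Fin w,
        (LamF (Sum.elim (fun ρ => ∑ j, x ρ j * (m j : 𝕂)) (fun i => ∑ j, γ i j * (m j : 𝕂)) i)
          (Sum.elim (fun _ => 0) k i) (Sum.elim (fun _ => 0) t i)
          (Sum.elim (fun ρ => ∑ q, y ρ q * (s q : 𝕂)) (fun i => ∑ q, ω i q * (s q : 𝕂)) i) *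
        exp (Sum.elim (fun ρ => ∑ j, x ρ j * (m j : 𝕂)) (fun i => ∑ j, γ i j * (m j : 𝕂)) i *
          Sum.elim (fun ρ => ∑ q, y ρ q * (s q : 𝕂)) (fun i => ∑ q, ω i q * (s q : 𝕂)) i)) := by
  have hpi : (0 : ℝ) < (p : ℝ)⁻¹ := by
    have : (0 : ℝ) < p := by exact_mod_cast hp.out.pos
    positivity
  rw [Fintype.prod_sum_type]
  simp only [Sum.elim_inl, Sum.elim_inr]
  have h0 : ∀ (a z : 𝕂), LamF a 0 0 z = 1 := by intro a z; simp [LamF]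
  simp only [h0, one_mul]
  rw [Finset.prod_mul_distrib]
  unfold entG
  have h1 : ∏ i, LamF (∑ j, γ i j * (m j : 𝕂)) (k i) (t i) (∑ q, α i q * (s q : 𝕂)) =
      ∏ i, LamF (∑ j, γ i j * (m j : 𝕂)) (k i) (t i) (∑ q, ω i q * (s q : 𝕂)) := by
    apply Finset.prod_congr rfl
    intro i _
    rcases hα i with h | h
    · rw [h, LamF_zero, LamF_zero]
    · simp only [h]
  -- the exponents are small
  have hu : ∀ j q, ‖∑ ρ, x ρ j * y ρ q + ∑ i, γ i j * ω i q‖ < (p : ℝ)⁻¹ := by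
    intro j q
    refine lt_of_le_of_lt (IsUltrametricDist.norm_add_le_max _ _) (max_lt ?_ ?_)
    · refine lt_of_le_of_lt (pnorm_sum_le _ _ (r := A0 * W0) (by positivity) ?_) hAW
      intro ρ _
      rw [norm_mul]
      exact mul_le_mul (hx ρ j) (hy ρ q) (norm_nonneg _) hA0
    · refine lt_of_le_of_lt (pnorm_sum_le _ _ (r := A0 * W0) (by positivity) ?_) hAW
      intro i _
      rw [norm_mul]
      exact mul_le_mul (hγ i j) (hω i q) (norm_nonneg _) hA0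
  have hsu : ∀ j q, ‖((s q : ℕ) : 𝕂) * (∑ ρ, x ρ j * y ρ q + ∑ i, γ i j * ω i q)‖ < (p : ℝ)⁻¹ := by
    intro j q
    have := pnorm_int_mul_lt p (hu j q) (s q : ℤ)
    simpa using this
  have hssu : ∀ j, ‖∑ q, ((s q : ℕ) : 𝕂) * (∑ ρ, x ρ j * y ρ q + ∑ i, γ i j * ω i q)‖ < (p : ℝ)⁻¹ :=
    fun j => pnorm_sum_lt _ _ hpi (fun q _ => hsu j q)
  have hmssu : ∀ j, ‖((m j : ℕ) : 𝕂) * ∑ q, ((s q : ℕ) : 𝕂) *
      (∑ ρ, x ρ j * y ρ q + ∑ i, γ i j * ω i q)‖ < (p : ℝ)⁻¹ := by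
    intro j
    have := pnorm_int_mul_lt p (hssu j) (m j : ℤ)
    simpa using this
  have hL : ∏ j, (∏ q, χ j q ^ s q) ^ m j = exp (∑ j, ((m j : ℕ) : 𝕂) * ∑ q, ((s q : ℕ) : 𝕂) *
      (∑ ρ, x ρ j * y ρ q + ∑ i, γ i j * ω i q)) := by
    rw [pexp_sum p _ _ (fun j _ => hmssu j)]
    apply Finset.prod_congr rfl
    intro j _
    rw [pexp_nat_mul p (hssu j), pexp_sum p _ _ (fun q _ => hsu j q)]
    congr 1
    apply Finset.prod_congr rfl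
    intro q _
    rw [pexp_nat_mul p (hu j q), hχ]
  have hR1 : ∀ ρ, ‖(∑ j, x ρ j * (m j : 𝕂)) * (∑ q, y ρ q * (s q : 𝕂))‖ < (p : ℝ)⁻¹ := by
    intro ρ
    rw [norm_mul]
    refine lt_of_le_of_lt ?_ hAW
    exact mul_le_mul (pnorm_natsum_le p hA0 _ m (hx ρ)) (pnorm_natsum_le p hW0 _ s (hy ρ))
      (norm_nonneg _) hA0
  have hR2 : ∀ i, ‖(∑ j, γ i j * (m j : 𝕂)) * (∑ q, ω i q * (s q : 𝕂))‖ < (p : ℝ)⁻¹ := by
    intro i
    rw [norm_mul]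
    refine lt_of_le_of_lt ?_ hAW
    exact mul_le_mul (pnorm_natsum_le p hA0 _ m (hγ i)) (pnorm_natsum_le p hW0 _ s (hω i))
      (norm_nonneg _) hA0
  have h2 : ∏ j, (∏ q, χ j q ^ s q) ^ m j =
      (∏ ρ, exp ((∑ j, x ρ j * (m j : 𝕂)) * (∑ q, y ρ q * (s q : 𝕂)))) *
      ∏ i, exp ((∑ j, γ i j * (m j : 𝕂)) * (∑ q, ω i q * (s q : 𝕂))) := by
    rw [hL, ← pexp_sum p _ _ (fun ρ _ => hR1 ρ), ← pexp_sum p _ _ (fun i _ => hR2 i),
      ← pexp_add p (pnorm_sum_lt _ _ hpi (fun ρ _ => hR1 ρ))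
        (pnorm_sum_lt _ _ hpi (fun i _ => hR2 i))]
    congr 1
    rw [← sum3P x y m s, ← sum3P γ ω m s]
    simp only [Finset.mul_sum, mul_add, Finset.sum_add_distrib]
  rw [h1, h2]
  ring

/-- **Existence of an auxiliary polynomial with many zeros** (from interpolation determinants). -/
theorem exists_aux_posP {F : Type*} [Field F] [NumberField F] (φ : F →+* 𝕂) {w b l r : ℕ}
    (A : Finset (Fin w)) (γ : Fin w → Fin b → F) (α : Fin w → Fin l → F) (χ : Fin b → Fin l → F)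
    (x : Fin r → Fin b → 𝕂) (y : Fin r → Fin l → 𝕂) (ω : Fin w → Fin l → 𝕂)
    {A0 W0 : ℝ} (hA0 : 1 ≤ A0) (hW0 : 0 < W0) (hAW : A0 * W0 * p ≤ 1 / 2)
    (hx : ∀ ρ j, ‖x ρ j‖ ≤ A0) (hγ : ∀ i j, ‖φ (γ i j)‖ ≤ A0) (hy : ∀ ρ q, ‖y ρ q‖ ≤ W0)
    (hω : ∀ i q, ‖ω i q‖ ≤ W0)
    (hα : ∀ i ∈ A, ∀ q, φ (α i q) = ω i q)
    (hχ : ∀ j q, φ (χ j q) = exp (∑ ρ, x ρ j * y ρ q + ∑ i, φ (γ i j) * ω i q))
    (κ μ σ c : ℕ) (hκ : μ + σ = κ) (hcount : (κ + 1) * (r + w) + 1 ≤ A.card * κ + b * μ)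
    (hc : 1 ≤ c) :
    ∃ n0 : ℕ, ∀ n ≥ n0, ∃ P : JG (fun i => if i ∈ A then n ^ κ else 0) b (n ^ μ) → F, P ≠ 0 ∧
      ∀ (t : Fin w → ℕ) (s : Fin l → ℕ), (∀ i, t i ≤ c * n ^ κ) → (∀ q, s q ≤ c * n ^ σ) →
        ∑ j, P j * entG γ α χ (fun i => (j.1 i : ℕ)) (fun i => (j.2 i : ℕ)) t s = 0 := by
  classical
  -- common denominator
  obtain ⟨d, hd, hden⟩ := exists_den (K := F)
    ((Finset.univ.image (fun ij : Fin w × Fin b => γ ij.1 ij.2)) ∪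
      ((Finset.univ.image (fun ij : Fin w × Fin l => α ij.1 ij.2)) ∪
        (Finset.univ.image (fun ij : Fin b × Fin l => χ ij.1 ij.2))))
  have dγ : ∀ i j, IntD d 1 (γ i j) := fun i j => hden _ (Finset.mem_union_left _
    (Finset.mem_image.mpr ⟨(i, j), Finset.mem_univ _, rfl⟩))
  have dα : ∀ i j, IntD d 1 (α i j) := fun i j => hden _ (Finset.mem_union_right _
    (Finset.mem_union_left _ (Finset.mem_image.mpr ⟨(i, j), Finset.mem_univ _, rfl⟩)))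
  have dχ : ∀ i j, IntD d 1 (χ i j) := fun i j => hden _ (Finset.mem_union_right _
    (Finset.mem_union_right _ (Finset.mem_image.mpr ⟨(i, j), Finset.mem_univ _, rfl⟩)))
  -- bound for the conjugates
  obtain ⟨R0, hR0, hR0'⟩ : ∃ R0 : ℝ, 1 ≤ R0 ∧ ∀ τ : F →ₐ[ℚ] ℂ,
      (∀ i j, ‖τ (γ i j)‖ ≤ R0) ∧ (∀ i j, ‖τ (α i j)‖ ≤ R0) ∧ (∀ i j, ‖τ (χ i j)‖ ≤ R0) := by
    refine ⟨1 + ∑ τ : F →ₐ[ℚ] ℂ, ((∑ ij : Fin w × Fin b, ‖τ (γ ij.1 ij.2)‖)
      + (∑ ij : Fin w × Fin l, ‖τ (α ij.1 ij.2)‖) + ∑ ij : Fin b × Fin l, ‖τ (χ ij.1 ij.2)‖), ?_, ?_⟩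
    · have : 0 ≤ ∑ τ : F →ₐ[ℚ] ℂ, ((∑ ij : Fin w × Fin b, ‖τ (γ ij.1 ij.2)‖)
        + (∑ ij : Fin w × Fin l, ‖τ (α ij.1 ij.2)‖) + ∑ ij : Fin b × Fin l, ‖τ (χ ij.1 ij.2)‖) :=
        Finset.sum_nonneg (fun τ _ => by positivity)
      linarith
    · intro τ
      have hle := Finset.single_le_sum (f := fun τ : F →ₐ[ℚ] ℂ =>
        ((∑ ij : Fin w × Fin b, ‖τ (γ ij.1 ij.2)‖)
        + (∑ ij : Fin w × Fin l, ‖τ (α ij.1 ij.2)‖) + ∑ ij : Fin b × Fin l, ‖τ (χ ij.1 ij.2)‖))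
          (fun τ _ => by positivity) (Finset.mem_univ τ)
      have n1 : 0 ≤ ∑ ij : Fin w × Fin b, ‖τ (γ ij.1 ij.2)‖ := Finset.sum_nonneg fun _ _ => norm_nonneg _
      have n2 : 0 ≤ ∑ ij : Fin w × Fin l, ‖τ (α ij.1 ij.2)‖ := Finset.sum_nonneg fun _ _ => norm_nonneg _
      have n3 : 0 ≤ ∑ ij : Fin b × Fin l, ‖τ (χ ij.1 ij.2)‖ := Finset.sum_nonneg fun _ _ => norm_nonneg _
      refine ⟨fun i j => ?_, fun i j => ?_, fun i j => ?_⟩
      · have := Finset.single_le_sum (f := fun ij : Fin w × Fin b => ‖τ (γ ij.1 ij.2)‖)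
          (fun _ _ => norm_nonneg _) (Finset.mem_univ (i, j))
        linarith
      · have := Finset.single_le_sum (f := fun ij : Fin w × Fin l => ‖τ (α ij.1 ij.2)‖)
          (fun _ _ => norm_nonneg _) (Finset.mem_univ (i, j))
        linarith
      · have := Finset.single_le_sum (f := fun ij : Fin b × Fin l => ‖τ (χ ij.1 ij.2)‖)
          (fun _ _ => norm_nonneg _) (Finset.mem_univ (i, j))
        linarith
  have hW0' : 0 < W0⁻¹ := by positivity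
  obtain ⟨n0, hn0⟩ := growthG w b l r κ μ σ c d (Module.finrank ℚ F) hκ R0 (1 + W0⁻¹) hd hR0
    (by linarith) (fun n i => if i ∈ A then n ^ κ else 0) (by intro n i; split_ifs <;> simp)
  refine ⟨max n0 2, fun n hn => ?_⟩
  have hn1 : n0 ≤ n := (le_max_left _ _).trans hn
  have hn2 : 2 ≤ n := (le_max_right _ _).trans hn
  have hgrow := hn0 n hn1 (by omega)
  by_contra hcon
  push Not at hcon
  set Kc : Fin w → ℕ := fun i => if i ∈ A then n ^ κ else 0 with hKc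
  have hKc' : ∀ i, Kc i ≤ n ^ κ := by intro i; simp only [hKc]; split_ifs <;> simp
  set M := n ^ μ with hM
  set S := c * n ^ σ with hS
  set T := c * n ^ κ with hT
  have hnpos : 0 < n := by omega
  obtain ⟨cc, hcc⟩ := exists_det_ne_zero (F := F) (J := JG Kc b M) (C := CG w l T S)
    (fun j cd => entG γ α χ (fun i => (j.1 i : ℕ)) (fun i => (j.2 i : ℕ)) cd.1.1 cd.1.2) (by
      intro P hP
      by_contra hP0
      obtain ⟨t, s, ht, hs, hts⟩ := hcon P hP0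
      exact hts (hP ⟨(t, s), ht, hs⟩))
  apply hcc
  have hcpos : 1 ≤ c := hc
  have hMpos : 1 ≤ M := Nat.one_le_pow _ _ hnpos
  have hSpos : 1 ≤ S := Nat.succ_le_of_lt (Nat.mul_pos hcpos (Nat.pow_pos hnpos))
  have hpp : (0 : ℝ) < p := by exact_mod_cast hp.out.pos
  have hAWlt : A0 * W0 < (p : ℝ)⁻¹ := by
    have h1 : A0 * W0 ≤ (1 / 2) * (p : ℝ)⁻¹ := by
      rw [← div_eq_mul_inv, le_div_iff₀ hpp]
      exact hAW
    have h3 : (0 : ℝ) < (p : ℝ)⁻¹ := by positivity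
    linarith
  refine det_vanishP p φ (L := Fin r ⊕ Fin w) (J := JG Kc b M)
    (fun j => Sum.elim (fun _ => 0) (fun i => (j.1 i : ℕ)))
    (fun j => Sum.elim (fun ρ => ∑ i, x ρ i * ((j.2 i : ℕ) : 𝕂))
      (fun i => ∑ q, φ (γ i q) * ((j.2 q : ℕ) : 𝕂)))
    (fun i => Sum.elim (fun _ => 0) (cc i).1.1)
    (fun i => Sum.elim (fun ρ => ∑ q, y ρ q * ((cc i).1.2 q : 𝕂))
      (fun q => ∑ q', ω q q' * ((cc i).1.2 q' : 𝕂)))
    (n ^ κ + T) (n ^ (κ + 1)) A0 W0 ((1 + W0⁻¹) * (c * (n : ℝ) ^ κ)) hA0 hW0 hAW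
    ?_ ?_ ?_ ?_ ?_ _ d (w * (T + n ^ κ) + b * (l * (S * M))) hd
    (((1 + b * R0 * M + (n ^ κ : ℕ)) ^ T * (1 + l * R0 * S) ^ (n ^ κ)) ^ w *
      (R0 ^ (l * (S * M))) ^ b)
    ?_ ?_ ?_ ?_ ?_ ?_ ?_
  · intro j i
    rcases i with ρ | i
    · exact pnorm_natsum_le p (by linarith) _ _ (hx ρ)
    · exact pnorm_natsum_le p (by linarith) _ _ (hγ i)
  · intro i' i
    rcases i with ρ | i
    · exact pnorm_natsum_le p hW0.le _ _ (hy ρ)
    · exact pnorm_natsum_le p hW0.le _ _ (hω i)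
  · intro j i' i
    rcases i with ρ | i
    · simp
    · have h1 : (j.1 i : ℕ) ≤ n ^ κ := (Nat.lt_succ_iff.mp (j.1 i).2).trans (hKc' i)
      have h2 : (cc i').1.1 i ≤ T := (cc i').2.1 i
      exact Nat.add_le_add h1 h2
  · positivity
  · -- the constant
    unfold E1
    have h1 : (1 : ℝ) ≤ ((n ^ κ + T).factorial : ℝ) := by
      exact_mod_cast Nat.one_le_iff_ne_zero.mpr (Nat.factorial_ne_zero _)
    have h2 : (1 + W0⁻¹) ^ (n ^ κ + T) ≤ Real.exp (6 * ((1 + W0⁻¹) * (c * (n : ℝ) ^ κ))) := by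
      have h3 : 1 + W0⁻¹ ≤ Real.exp (1 + W0⁻¹) := by
        have := Real.add_one_le_exp (1 + W0⁻¹)
        linarith
      calc (1 + W0⁻¹) ^ (n ^ κ + T) ≤ Real.exp (1 + W0⁻¹) ^ (n ^ κ + T) := by
            apply pow_le_pow_left₀ (by linarith) h3
        _ = Real.exp (((n ^ κ + T : ℕ) : ℝ) * (1 + W0⁻¹)) := by rw [Real.exp_nat_mul]
        _ ≤ _ := by
          apply Real.exp_le_exp.mpr
          rw [hT]
          push_cast
          have h4 : (1 : ℝ) ≤ c := by exact_mod_cast hcpos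
          have h5 : (0 : ℝ) ≤ (n : ℝ) ^ κ := by positivity
          have h6 : (n : ℝ) ^ κ ≤ c * (n : ℝ) ^ κ := by nlinarith
          have h7 : 0 < 1 + W0⁻¹ := by linarith
          nlinarith
    calc (1 + W0⁻¹) ^ (n ^ κ + T) ≤ Real.exp (6 * ((1 + W0⁻¹) * (c * (n : ℝ) ^ κ))) := h2
      _ = 1 * Real.exp (6 * ((1 + W0⁻¹) * (c * (n : ℝ) ^ κ))) := (one_mul _).symm
      _ ≤ _ := by gcongr
  · -- B ≥ 1
    have b1 : (1 : ℝ) ≤ (1 + b * R0 * M + (n ^ κ : ℕ)) ^ T := by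
      apply one_le_pow₀
      have : (0 : ℝ) ≤ b * R0 * M := by positivity
      have : (0 : ℝ) ≤ ((n ^ κ : ℕ) : ℝ) := by positivity
      linarith
    have b2 : (1 : ℝ) ≤ (1 + l * R0 * S) ^ (n ^ κ) := by
      apply one_le_pow₀
      have : (0 : ℝ) ≤ l * R0 * S := by positivity
      linarith
    exact one_le_mul_of_one_le_of_one_le
      (one_le_pow₀ (one_le_mul_of_one_le_of_one_le b1 b2)) (one_le_pow₀ (one_le_pow₀ hR0))
  · intro j i'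
    exact entG_int dγ dα dχ (n ^ κ) M T S
      (fun i => (Nat.lt_succ_iff.mp (j.1 i).2).trans (hKc' i))
      (fun i => Nat.lt_succ_iff.mp (j.2 i).2) (cc i').2.1 (cc i').2.2
  · intro τ j i'
    obtain ⟨g1, g2, g3⟩ := hR0' τ
    have e1 := entG_map (τ : F →+* ℂ) γ α χ (fun i => (j.1 i : ℕ)) (fun i => (j.2 i : ℕ))
      (cc i').1.1 (cc i').1.2
    have e2 := entG_norm hR0 g1 g2 g3 (n ^ κ) M T S
      (k := fun i => (j.1 i : ℕ)) (m := fun i => (j.2 i : ℕ))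
      (fun i => (Nat.lt_succ_iff.mp (j.1 i).2).trans (hKc' i))
      (fun i => Nat.lt_succ_iff.mp (j.2 i).2) (cc i').2.1 (cc i').2.2
    exact (le_of_eq (congrArg norm e1)).trans e2
  · intro j i'
    have e1 := entG_map φ γ α χ (fun i => (j.1 i : ℕ)) (fun i => (j.2 i : ℕ))
      (cc i').1.1 (cc i').1.2
    have e2 := entG_expP p (fun i j => φ (γ i j)) (fun i q => φ (α i q)) (fun j q => φ (χ j q))
      x y ω (by linarith) hW0.le hAWlt hx hγ hy hω hχ (fun i => (j.1 i : ℕ)) (fun i => (j.2 i : ℕ)) (cc i').1.1 (cc i').1.2 (by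
        intro i
        by_cases hi : i ∈ A
        · right; exact hα i hi
        · left
          have h1 : (j.1 i : ℕ) < Kc i + 1 := (j.1 i).2
          have h2 : Kc i = 0 := by rw [hKc]; simp [hi]
          omega)
    exact Eq.trans e1 e2
  · rw [card_JG]; positivity
  · rw [card_JG]
    have hcardL : Fintype.card (Fin r ⊕ Fin w) = r + w := by simp
    rw [hcardL]
    have h1 : (n ^ κ) ^ A.card ≤ ∏ i, (Kc i + 1) := by
      have e : (n ^ κ) ^ A.card = ∏ i ∈ A, n ^ κ := by simp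
      rw [e]
      calc ∏ i ∈ A, n ^ κ ≤ ∏ i ∈ A, (Kc i + 1) := by
            apply Finset.prod_le_prod' 
            intro i hi
            rw [hKc]; simp [hi]
        _ ≤ ∏ i, (Kc i + 1) := by
            apply Finset.prod_le_prod_of_subset_of_one_le' (Finset.subset_univ _)
            intro i _ _
            omega
    have h2 : M ^ b ≤ (M + 1) ^ b := Nat.pow_le_pow_left (by omega) _
    calc 2 * (n ^ (κ + 1)) ^ (r + w) = 2 * n ^ ((κ + 1) * (r + w)) := by rw [← pow_mul]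
      _ ≤ n * n ^ ((κ + 1) * (r + w)) := by gcongr
      _ = n ^ ((κ + 1) * (r + w) + 1) := by rw [pow_succ]; ring
      _ ≤ n ^ (A.card * κ + b * μ) := Nat.pow_le_pow_right hnpos hcount
      _ = (n ^ κ) ^ A.card * M ^ b := by rw [hM, ← pow_mul, ← pow_mul, ← pow_add]; ring_nf
      _ ≤ _ := Nat.mul_le_mul h1 h2
  · have hcardL : Fintype.card (Fin r ⊕ Fin w) = r + w := by simp
    rw [card_JG, hcardL]
    exact hgrow


end Pool.Agent.W254.PA
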