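import Pool.Agent.W254.PA.Transfer

/-!
# The field of `p`-adic complex numbers is isomorphic to the field of complex numbers
-/

set_option autoImplicit false

namespace Pool.Agent.W254.PA

open Cardinal

variable (p : ℕ) [hp : Fact p.Prime]

theorem mk_padic_le : #ℚ_[p] ≤ 𝔠 := by
  have h1 : ∀ x : ℚ_[p], ∃ u : ℕ → ℚ, Filter.Tendsto (fun n => ((u n : ℚ) : ℚ_[p])) Filter.atTop
      (nhds x) := by
    intro x
    have hd : DenseRange (fun q : ℚ => (q : ℚ_[p])) := Padic.denseRange_ratCast p
    have hx : x ∈ closure (Set.range (fun q : ℚ => (q : ℚ_[p]))) := hd x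
    obtain ⟨v, hv, hlim⟩ := mem_closure_iff_seq_limit.mp hx
    choose u hu using hv
    refine ⟨u, ?_⟩
    simp only [hu]
    exact hlim
  choose u hu using h1
  have hinj : Function.Injective u := by
    intro x y hxy
    have h2 := hu y
    rw [← hxy] at h2
    exact tendsto_nhds_unique (hu x) h2
  have := Cardinal.mk_le_of_injective hinj
  refine this.trans ?_
  simp

theorem mk_algCl_le : #(PadicAlgCl p) ≤ 𝔠 := by
  have h := Algebra.IsAlgebraic.cardinalMk_le_max ℚ_[p] (PadicAlgCl p)
  refine h.trans (max_le (mk_padic_le p) aleph0_le_continuum)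

theorem mk_complex_le : #(ℂ_[p]) ≤ 𝔠 := by
  have h1 : ∀ x : ℂ_[p], ∃ u : ℕ → PadicAlgCl p, Filter.Tendsto (fun n => ((u n : PadicAlgCl p) : ℂ_[p]))
      Filter.atTop (nhds x) := by
    intro x
    have hd : DenseRange (fun q : PadicAlgCl p => (q : ℂ_[p])) :=
      UniformSpace.Completion.denseRange_coe
    have hx : x ∈ closure (Set.range (fun q : PadicAlgCl p => (q : ℂ_[p]))) := hd x
    obtain ⟨v, hv, hlim⟩ := mem_closure_iff_seq_limit.mp hx
    choose u hu using hv
    refine ⟨u, ?_⟩
    simp only [hu]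
    exact hlim
  choose u hu using h1
  have hinj : Function.Injective u := by
    intro x y hxy
    have h2 := hu y
    rw [← hxy] at h2
    exact tendsto_nhds_unique (hu x) h2
  have := Cardinal.mk_le_of_injective hinj
  refine this.trans ?_
  have h3 : #(ℕ → PadicAlgCl p) = #(PadicAlgCl p) ^ ℵ₀ := by simp
  rw [h3]
  calc #(PadicAlgCl p) ^ ℵ₀ ≤ 𝔠 ^ ℵ₀ := Cardinal.power_le_power_right (mk_algCl_le p)
    _ = 𝔠 := by simp

theorem mk_complex : #(ℂ_[p]) = 𝔠 :=
  le_antisymm (mk_complex_le p) (continuum_le_cardinal_of_nontriviallyNormedField ℂ_[p])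

theorem exists_theta : Nonempty (ℂ_[p] ≃+* ℂ) := by
  apply IsAlgClosed.ringEquiv_of_equiv_of_charZero
  · rw [mk_complex p]; exact aleph0_lt_continuum
  · rw [← Cardinal.eq, mk_complex p, Cardinal.mk_complex]

end Pool.Agent.W254.PA
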