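import Mathlib

/-!
# The exponential series over a complete extension of `ℚ_[p]`

`𝕂` is a complete nontrivially normed field over `ℚ_[p]` (for example `ℂ_[p]`).
-/

set_option autoImplicit false

namespace Pool.Agent.W254.PA

open Finset NormedSpace Filter Topology

section norms

variable (p : ℕ) [hp : Fact p.Prime] {𝕂 : Type*} [NontriviallyNormedField 𝕂] [NormedAlgebra ℚ_[p] 𝕂]

include hp in
theorem norm_natCast_eq (n : ℕ) : ‖((n : ℕ) : 𝕂)‖ = ‖((n : ℕ) : ℚ_[p])‖ := by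
  rw [← norm_algebraMap' 𝕂 ((n : ℕ) : ℚ_[p]), map_natCast]

include hp in
theorem norm_natCast_le (n : ℕ) : ‖((n : ℕ) : 𝕂)‖ ≤ 1 := by
  rw [norm_natCast_eq p]
  exact_mod_cast Padic.norm_int_le_one (n : ℤ)

include hp in
theorem norm_intCast_le (n : ℤ) : ‖((n : ℤ) : 𝕂)‖ ≤ 1 := by
  rcases Int.eq_nat_or_neg n with ⟨m, h | h⟩
  · rw [h]; simpa using norm_natCast_le p m
  · rw [h]; simpa using norm_natCast_le p m

include hp in
theorem norm_p_eq : ‖((p : ℕ) : 𝕂)‖ = (p : ℝ)⁻¹ := by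
  rw [norm_natCast_eq p]
  exact Padic.norm_p

include hp in
theorem norm_natCast_ge {n : ℕ} (hn : n ≠ 0) : (n : ℝ)⁻¹ ≤ ‖((n : ℕ) : 𝕂)‖ := by
  rw [norm_natCast_eq p]
  have h1 : ‖((n : ℕ) : ℚ_[p])‖ = ((padicNorm p (n : ℚ) : ℚ) : ℝ) := by
    have := Padic.eq_padicNorm (p := p) (n : ℚ)
    rw [← this]; norm_cast
  rw [h1, padicNorm.eq_zpow_of_nonzero (by exact_mod_cast hn), padicValRat.of_nat, zpow_neg,
    zpow_natCast]
  push_cast
  have hpp : 0 < p := hp.out.pos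
  have h2 : p ^ padicValNat p n ≤ n := Nat.le_of_dvd (Nat.pos_of_ne_zero hn) pow_padicValNat_dvd
  have h3 : (0 : ℝ) < (p : ℝ) ^ padicValNat p n := by positivity
  exact inv_anti₀ h3 (by exact_mod_cast h2)

include hp in
theorem norm_factorial_inv_le (n : ℕ) (hn : n ≠ 0) :
    ‖((n.factorial : ℕ) : 𝕂)⁻¹‖ ≤ (p : ℝ) ^ (n - 1) := by
  rw [norm_inv, norm_natCast_eq p]
  have hfac : n.factorial ≠ 0 := Nat.factorial_ne_zero n
  have h1 : ‖((n.factorial : ℕ) : ℚ_[p])‖ = ((padicNorm p (n.factorial : ℚ) : ℚ) : ℝ) := by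
    have := Padic.eq_padicNorm (p := p) (n.factorial : ℚ)
    rw [← this]; norm_cast
  rw [h1, padicNorm.eq_zpow_of_nonzero (by exact_mod_cast hfac), padicValRat.of_nat, zpow_neg,
    zpow_natCast]
  push_cast
  rw [inv_inv]
  have hp1 : (1 : ℝ) ≤ p := by exact_mod_cast hp.out.one_le
  apply pow_le_pow_right₀ hp1
  have h2 := sub_one_mul_padicValNat_factorial_lt_of_ne_zero p hn
  have h3 : 1 ≤ p - 1 := by have := hp.out.two_le; omega
  have h4 : 1 * padicValNat p n.factorial ≤ (p - 1) * padicValNat p n.factorial :=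
    Nat.mul_le_mul_right _ h3
  omega

/-- the domain of the exponential -/
theorem mem_ball_exp [CharZero 𝕂] {x : 𝕂} (hx : ‖x‖ < (p : ℝ)⁻¹) :
    x ∈ Metric.eball (0 : 𝕂) (expSeries 𝕂 𝕂).radius := by
  have hpp : (0 : ℝ) < p := by exact_mod_cast hp.out.pos
  have hp1 : (1 : ℝ) ≤ p := by exact_mod_cast hp.out.one_le
  let r : NNReal := ⟨(p : ℝ)⁻¹, by positivity⟩
  have hr : (r : ENNReal) ≤ (expSeries 𝕂 𝕂).radius := by
    apply FormalMultilinearSeries.le_radius_of_bound _ 1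
    intro n
    have h1 : ‖expSeries 𝕂 𝕂 n‖ ≤ (p : ℝ) ^ n := by
      unfold expSeries
      refine (norm_smul_le (((n.factorial : ℕ) : 𝕂)⁻¹)
        (ContinuousMultilinearMap.mkPiAlgebraFin 𝕂 n 𝕂)).trans ?_
      have h2 : ‖ContinuousMultilinearMap.mkPiAlgebraFin 𝕂 n 𝕂‖ ≤ 1 := by
        rcases Nat.eq_zero_or_pos n with h | h
        · subst h
          rw [ContinuousMultilinearMap.norm_mkPiAlgebraFin_zero, norm_one]
        · exact ContinuousMultilinearMap.norm_mkPiAlgebraFin_le_of_pos (𝕜 := 𝕂) (A := 𝕂) h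
      have h3 : ‖((n.factorial : ℕ) : 𝕂)⁻¹‖ ≤ (p : ℝ) ^ n := by
        rcases Nat.eq_zero_or_pos n with h | h
        · subst h; simp
        · exact (norm_factorial_inv_le p n h.ne').trans (pow_le_pow_right₀ hp1 (by omega))
      calc ‖((n.factorial : ℕ) : 𝕂)⁻¹‖ * _ ≤ (p : ℝ) ^ n * 1 := by gcongr
        _ = _ := mul_one _
    have h4 : (r : ℝ) = (p : ℝ)⁻¹ := rfl
    rw [h4]
    calc ‖expSeries 𝕂 𝕂 n‖ * (p : ℝ)⁻¹ ^ n ≤ (p : ℝ) ^ n * (p : ℝ)⁻¹ ^ n := by gcongr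
      _ = 1 := by rw [← mul_pow, mul_inv_cancel₀ hpp.ne', one_pow]
  rw [Metric.mem_eball, edist_zero_right]
  refine lt_of_lt_of_le ?_ hr
  have : ‖x‖₊ < r := hx
  exact_mod_cast this

end norms

section exp

variable (p : ℕ) [hp : Fact p.Prime] {𝕂 : Type*} [NontriviallyNormedField 𝕂] [NormedAlgebra ℚ_[p] 𝕂]
  [CompleteSpace 𝕂] [CharZero 𝕂]

theorem pexp_hasSum {x : 𝕂} (hx : ‖x‖ < (p : ℝ)⁻¹) :
    HasSum (fun n : ℕ => x ^ n / (n.factorial : 𝕂)) (exp x) :=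
  expSeries_div_hasSum_exp_of_mem_ball 𝕂 x (mem_ball_exp p hx)

theorem pexp_add {x y : 𝕂} (hx : ‖x‖ < (p : ℝ)⁻¹) (hy : ‖y‖ < (p : ℝ)⁻¹) :
    exp (x + y) = exp x * exp y :=
  exp_add_of_mem_ball (𝕂 := 𝕂) (mem_ball_exp p hx) (mem_ball_exp p hy)

variable [IsUltrametricDist 𝕂]

theorem pnorm_sum_lt {ι : Type*} (s : Finset ι) (f : ι → 𝕂) {r : ℝ} (hr : 0 < r)
    (h : ∀ i ∈ s, ‖f i‖ < r) : ‖∑ i ∈ s, f i‖ < r := by
  classical
  induction s using Finset.induction_on with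
  | empty => simpa using hr
  | insert a s ha ih =>
    rw [Finset.sum_insert ha]
    refine lt_of_le_of_lt (IsUltrametricDist.norm_add_le_max _ _) ?_
    exact max_lt (h a (Finset.mem_insert_self _ _))
      (ih (fun i hi => h i (Finset.mem_insert_of_mem hi)))

theorem pnorm_sum_le {ι : Type*} (s : Finset ι) (f : ι → 𝕂) {r : ℝ} (hr : 0 ≤ r)
    (h : ∀ i ∈ s, ‖f i‖ ≤ r) : ‖∑ i ∈ s, f i‖ ≤ r := by
  classical
  induction s using Finset.induction_on with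
  | empty => simpa using hr
  | insert a s ha ih =>
    rw [Finset.sum_insert ha]
    refine (IsUltrametricDist.norm_add_le_max _ _).trans ?_
    exact max_le (h a (Finset.mem_insert_self _ _))
      (ih (fun i hi => h i (Finset.mem_insert_of_mem hi)))

theorem pexp_sum {ι : Type*} (s : Finset ι) (f : ι → 𝕂) (h : ∀ i ∈ s, ‖f i‖ < (p : ℝ)⁻¹) :
    exp (∑ i ∈ s, f i) = ∏ i ∈ s, exp (f i) := by
  classical
  have hr : (0 : ℝ) < (p : ℝ)⁻¹ := by
    have : (0 : ℝ) < p := by exact_mod_cast hp.out.pos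
    positivity
  induction s using Finset.induction_on with
  | empty => simp
  | insert a s ha ih =>
    rw [Finset.sum_insert ha, Finset.prod_insert ha,
      pexp_add p (h a (Finset.mem_insert_self _ _))
        (pnorm_sum_lt s f hr (fun i hi => h i (Finset.mem_insert_of_mem hi))),
      ih (fun i hi => h i (Finset.mem_insert_of_mem hi))]

include p hp in
theorem pnorm_int_mul_lt {x : 𝕂} {r : ℝ} (hx : ‖x‖ < r) (n : ℤ) : ‖(n : 𝕂) * x‖ < r := by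
  rw [norm_mul]
  have h1 := norm_intCast_le p (𝕂 := 𝕂) n
  have h2 : ‖((n : ℤ) : 𝕂)‖ * ‖x‖ ≤ 1 * ‖x‖ := by gcongr
  linarith

theorem pexp_nat_mul {x : 𝕂} (hx : ‖x‖ < (p : ℝ)⁻¹) (n : ℕ) : exp ((n : 𝕂) * x) = exp x ^ n := by
  induction n with
  | zero => simp
  | succ n ih =>
    have h1 := pnorm_int_mul_lt p hx n
    push_cast at h1 ⊢
    rw [add_mul, one_mul, pexp_add p h1 hx, ih, pow_succ]

theorem pexp_mul_neg {x : 𝕂} (hx : ‖x‖ < (p : ℝ)⁻¹) : exp x * exp (-x) = 1 := by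
  rw [← pexp_add p hx (by rwa [norm_neg]), add_neg_cancel, exp_zero]

theorem pexp_ne_zero {x : 𝕂} (hx : ‖x‖ < (p : ℝ)⁻¹) : exp x ≠ 0 := by
  intro h
  have := pexp_mul_neg p hx
  rw [h, zero_mul] at this
  exact zero_ne_one this

theorem pexp_int_mul {x : 𝕂} (hx : ‖x‖ < (p : ℝ)⁻¹) (n : ℤ) : exp ((n : 𝕂) * x) = exp x ^ n := by
  rcases Int.eq_nat_or_neg n with ⟨m, h | h⟩
  · rw [h, zpow_natCast]
    simpa using pexp_nat_mul p hx m
  · rw [h, zpow_neg, zpow_natCast]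
    have h1 := pexp_mul_neg p (pnorm_int_mul_lt p hx (m : ℤ))
    have h2 := pexp_nat_mul p hx m
    push_cast at h1 ⊢
    rw [h2] at h1
    rw [neg_mul]
    exact eq_inv_of_mul_eq_one_right h1

include p hp in
theorem pexp_term_le {x : 𝕂} (hx : ‖x‖ < (p : ℝ)⁻¹) (n : ℕ) :
    ‖x ^ (n + 2) / ((n + 2).factorial : 𝕂)‖ ≤ p * ‖x‖ ^ 2 := by
  have hpp : (0 : ℝ) < p := by exact_mod_cast hp.out.pos
  rw [norm_div, norm_pow, div_eq_mul_inv, ← norm_inv]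
  have h3 : ‖(((n + 2).factorial : ℕ) : 𝕂)⁻¹‖ ≤ (p : ℝ) ^ (n + 1) :=
    norm_factorial_inv_le p (𝕂 := 𝕂) (n + 2) (by omega)
  have h5 : ‖x‖ * p ≤ 1 := by
    have : ‖x‖ * p ≤ (p : ℝ)⁻¹ * p := by gcongr
    rwa [inv_mul_cancel₀ hpp.ne'] at this
  calc ‖x‖ ^ (n + 2) * ‖(((n + 2).factorial : ℕ) : 𝕂)⁻¹‖ ≤ ‖x‖ ^ (n + 2) * (p : ℝ) ^ (n + 1) := by gcongr
    _ = (‖x‖ * p) ^ n * (p * ‖x‖ ^ 2) := by ring
    _ ≤ 1 * (p * ‖x‖ ^ 2) := by
      gcongr
      exact pow_le_one₀ (by positivity) h5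
    _ = _ := one_mul _

theorem pexp_sub_hasSum {x : 𝕂} (hx : ‖x‖ < (p : ℝ)⁻¹) :
    HasSum (fun n : ℕ => x ^ (n + 2) / ((n + 2).factorial : 𝕂)) (exp x - 1 - x) := by
  have h1 := (hasSum_nat_add_iff' (f := fun n : ℕ => x ^ n / (n.factorial : 𝕂)) 2).mpr
    (pexp_hasSum p hx)
  have h2 : ∑ i ∈ range 2, x ^ i / (i.factorial : 𝕂) = 1 + x := by
    rw [Finset.sum_range_succ, Finset.sum_range_one]
    simp
  rw [h2] at h1
  have h3 : exp x - (1 + x) = exp x - 1 - x := by ring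
  rwa [h3] at h1

/-- second order estimate -/
theorem pexp_sub_le {x : 𝕂} (hx : ‖x‖ < (p : ℝ)⁻¹) :
    ‖exp x - 1 - x‖ ≤ p * ‖x‖ ^ 2 := by
  have hpp : (0 : ℝ) < p := by exact_mod_cast hp.out.pos
  rw [← (pexp_sub_hasSum p hx).tsum_eq]
  exact IsUltrametricDist.norm_tsum_le_of_forall_le_of_nonneg (by positivity)
    (pexp_term_le p hx)

theorem pexp_sub_one_norm {x : 𝕂} (hx : ‖x‖ < (p : ℝ)⁻¹) : ‖exp x - 1‖ = ‖x‖ := by
  have hpp : (0 : ℝ) < p := by exact_mod_cast hp.out.pos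
  rcases eq_or_ne x 0 with h | h
  · subst h; simp
  have h0 : 0 < ‖x‖ := norm_pos_iff.mpr h
  have h1 := pexp_sub_le p hx
  have h5 : p * ‖x‖ < 1 := by
    have : p * ‖x‖ < p * (p : ℝ)⁻¹ := by gcongr
    rwa [mul_inv_cancel₀ hpp.ne'] at this
  have h2 : ‖exp x - 1 - x‖ < ‖x‖ := by
    refine lt_of_le_of_lt h1 ?_
    nlinarith
  have h3 : exp x - 1 = (exp x - 1 - x) + x := by ring
  rw [h3, IsUltrametricDist.norm_add_eq_max_of_norm_ne_norm h2.ne, max_eq_right h2.le]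

theorem pexp_eq_one {x : 𝕂} (hx : ‖x‖ < (p : ℝ)⁻¹) (h : exp x = 1) : x = 0 := by
  have h1 := pexp_sub_one_norm p hx
  rw [h, sub_self, norm_zero] at h1
  exact norm_eq_zero.mp h1.symm

end exp

end Pool.Agent.W254.PA
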