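import Pool.Agent.W254.PA.Exp
import Pool.Agent.W254.PA.Det
import Pool.Agent.H301R2.TR.Upper
import Pool.Agent.H301R2.TR.GenEntry

/-!
# Expansion of `w ^ k * exp (a w)` over a complete extension of `ℚ_[p]`
-/

set_option autoImplicit false

namespace Pool.Agent.W254.PA

open Finset NormedSpace
open Pool.Agent.H301R2.TR (LamF descFactorial_add E1 E1_one_le)

section expand

variable (p : ℕ) [hp : Fact p.Prime] {𝕂 : Type*} [NontriviallyNormedField 𝕂] [NormedAlgebra ℚ_[p] 𝕂]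
  [CompleteSpace 𝕂] [CharZero 𝕂]

theorem hasSum_exp_descP {a w : 𝕂} (haw : ‖a * w‖ < (p : ℝ)⁻¹) (i : ℕ) :
    HasSum (fun l : ℕ => a ^ l / (l.factorial : 𝕂) * (l.descFactorial i : 𝕂) * w ^ (l - i))
      (a ^ i * exp (a * w)) := by
  have h0 : ∑ l ∈ range i, a ^ l / (l.factorial : 𝕂) * (l.descFactorial i : 𝕂) * w ^ (l - i) = 0 := by
    apply Finset.sum_eq_zero
    intro l hl
    have : l.descFactorial i = 0 := Nat.descFactorial_eq_zero_iff_lt.mpr (by simpa using hl)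
    simp [this]
  rw [← hasSum_nat_add_iff' i, h0, sub_zero]
  have h1 : (fun l : ℕ => a ^ (l + i) / ((l + i).factorial : 𝕂) * ((l + i).descFactorial i : 𝕂)
      * w ^ (l + i - i)) = fun l : ℕ => a ^ i * ((a * w) ^ l / (l.factorial : 𝕂)) := by
    funext l
    have h2 : (((l + i).factorial : ℕ) : 𝕂) = (l.factorial : 𝕂) * ((l + i).descFactorial i : 𝕂) := by
      have := Nat.factorial_mul_descFactorial (Nat.le_add_left i l)
      rw [Nat.add_sub_cancel] at this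
      exact_mod_cast this.symm
    have h3 : ((l + i).descFactorial i : 𝕂) ≠ 0 := by
      have : (l + i).descFactorial i ≠ 0 := by
        rw [Ne, Nat.descFactorial_eq_zero_iff_lt]; omega
      exact_mod_cast this
    have h4 : (l.factorial : 𝕂) ≠ 0 := by exact_mod_cast Nat.factorial_ne_zero l
    rw [h2, Nat.add_sub_cancel, mul_pow, pow_add]
    field_simp
  rw [h1]
  apply HasSum.mul_left
  exact pexp_hasSum p haw

/-- coefficient of `w^q` in `w^k e^{a w}` -/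
noncomputable def coefP {𝕂 : Type*} [Field 𝕂] (a : 𝕂) (k q : ℕ) : 𝕂 :=
  if k ≤ q then a ^ (q - k) / ((q - k).factorial : 𝕂) else 0

theorem hasSum_lamP {a w : 𝕂} (haw : ‖a * w‖ < (p : ℝ)⁻¹) (k t : ℕ) :
    HasSum (fun q : ℕ => coefP a k q * ((q.descFactorial t : 𝕂) * w ^ (q - t)))
      (LamF a k t w * exp (a * w)) := by
  have h0 : ∑ q ∈ range k, coefP a k q * ((q.descFactorial t : 𝕂) * w ^ (q - t)) = 0 := by
    apply Finset.sum_eq_zero
    intro q hq
    have : ¬ k ≤ q := by simpa using hq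
    simp [coefP, this]
  rw [← hasSum_nat_add_iff' k, h0, sub_zero]
  have h1 : (fun l : ℕ => coefP a k (l + k) * (((l + k).descFactorial t : 𝕂) * w ^ (l + k - t)))
      = fun l : ℕ => ∑ j ∈ range (t + 1), (t.choose j : 𝕂) * (k.descFactorial j : 𝕂) * w ^ (k - j) *
        (a ^ l / (l.factorial : 𝕂) * (l.descFactorial (t - j) : 𝕂) * w ^ (l - (t - j))) := by
    funext l
    have e1 : coefP a k (l + k) = a ^ l / (l.factorial : 𝕂) := by simp [coefP]
    rw [e1, Nat.add_comm l k, descFactorial_add]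
    push_cast
    rw [Finset.sum_mul, Finset.mul_sum]
    apply Finset.sum_congr rfl
    intro j hj
    have hj' : j ≤ t := by simpa [Nat.lt_succ_iff] using hj
    by_cases hjk : j ≤ k
    · by_cases hl : t - j ≤ l
      · have : w ^ (k + l - t) = w ^ (k - j) * w ^ (l - (t - j)) := by
          rw [← pow_add]; congr 1; omega
        rw [this]; ring
      · have : l.descFactorial (t - j) = 0 := Nat.descFactorial_eq_zero_iff_lt.mpr (by omega)
        simp [this]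
    · have : k.descFactorial j = 0 := Nat.descFactorial_eq_zero_iff_lt.mpr (by omega)
      simp [this]
  rw [h1]
  have h2 : LamF a k t w * exp (a * w) = ∑ j ∈ range (t + 1),
      (t.choose j : 𝕂) * (k.descFactorial j : 𝕂) * w ^ (k - j) * (a ^ (t - j) * exp (a * w)) := by
    rw [LamF, Finset.sum_mul]
    apply Finset.sum_congr rfl
    intro j _
    ring
  rw [h2]
  apply hasSum_sum
  intro j _
  exact (hasSum_exp_descP p haw (t - j)).mul_left _

omit [CompleteSpace 𝕂] [CharZero 𝕂] in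
include hp in
theorem term_boundP {a w : 𝕂} (k t H : ℕ) {A W : ℝ} (hA : 1 ≤ A) (hW : 0 < W)
    (ha : ‖a‖ ≤ A) (hw : ‖w‖ ≤ W) (hAW : A * W * p ≤ 1 / 2) (hH : k + t ≤ H) (q : ℕ) :
    ‖coefP a k q * ((q.descFactorial t : 𝕂) * w ^ (q - t))‖ ≤ (1 + W⁻¹) ^ H * (1 / 2) ^ q := by
  have hpp : (1 : ℝ) ≤ p := by exact_mod_cast hp.out.one_le
  have hpos : (0 : ℝ) ≤ (1 + W⁻¹) ^ H * (1 / 2) ^ q := by positivity
  by_cases hkq : k ≤ q
  swap
  · simp only [coefP, hkq, if_false, zero_mul, norm_zero]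
    exact hpos
  by_cases htq : t ≤ q
  swap
  · have : q.descFactorial t = 0 := Nat.descFactorial_eq_zero_iff_lt.mpr (by omega)
    simp only [this, Nat.cast_zero, zero_mul, mul_zero, norm_zero]
    exact hpos
  simp only [coefP, hkq, if_true]
  rw [norm_mul, norm_mul, norm_div, norm_pow, norm_pow, div_eq_mul_inv, ← norm_inv]
  have h1 : ‖(((q - k).factorial : ℕ) : 𝕂)⁻¹‖ ≤ (p : ℝ) ^ (q - k) := by
    rcases Nat.eq_zero_or_pos (q - k) with h | h
    · rw [h]; simp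
    · exact (norm_factorial_inv_le p _ h.ne').trans (pow_le_pow_right₀ hpp (by omega))
  have h2 : ‖((q.descFactorial t : ℕ) : 𝕂)‖ ≤ 1 := norm_natCast_le p _
  have h3 : ‖a‖ ^ (q - k) ≤ A ^ (q - k) := pow_le_pow_left₀ (norm_nonneg _) ha _
  have h4 : ‖w‖ ^ (q - t) ≤ W ^ (q - t) := pow_le_pow_left₀ (norm_nonneg _) hw _
  have hA0 : 0 ≤ A := by linarith
  have h5 : A ^ (q - k) * (p : ℝ) ^ (q - k) ≤ A ^ q * (p : ℝ) ^ q := by
    rw [← mul_pow, ← mul_pow]
    exact pow_le_pow_right₀ (one_le_mul_of_one_le_of_one_le hA hpp) (by omega)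
  have h6 : W ^ (q - t) = W ^ q * W⁻¹ ^ t := by
    rw [inv_pow, ← div_eq_mul_inv, eq_div_iff (by positivity), ← pow_add]
    congr 1; omega
  have h7 : W⁻¹ ^ t ≤ (1 + W⁻¹) ^ H := by
    have hW' : 0 < W⁻¹ := by positivity
    calc W⁻¹ ^ t ≤ (1 + W⁻¹) ^ t := pow_le_pow_left₀ hW'.le (by linarith) t
      _ ≤ (1 + W⁻¹) ^ H := pow_le_pow_right₀ (by linarith) (by omega)
  calc ‖a‖ ^ (q - k) * ‖(((q - k).factorial : ℕ) : 𝕂)⁻¹‖ *
        (‖((q.descFactorial t : ℕ) : 𝕂)‖ * ‖w‖ ^ (q - t))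
      ≤ A ^ (q - k) * (p : ℝ) ^ (q - k) * (1 * W ^ (q - t)) := by gcongr
    _ ≤ (A ^ q * (p : ℝ) ^ q) * (1 * W ^ (q - t)) := by gcongr
    _ = (A * W * p) ^ q * W⁻¹ ^ t := by rw [h6]; ring
    _ ≤ (1 / 2) ^ q * (1 + W⁻¹) ^ H := by gcongr
    _ = _ := mul_comm _ _

/-- truncation of the expansion at degree `< Q` -/
noncomputable def truncP {𝕂 : Type*} [Field 𝕂] (Q : ℕ) (a : 𝕂) (k t : ℕ) (w : 𝕂) : 𝕂 :=
  ∑ q : Fin Q, coefP a k q * (((q : ℕ).descFactorial t : 𝕂) * w ^ ((q : ℕ) - t))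

theorem lam_boundsP {a w : 𝕂} (k t H : ℕ) {A W : ℝ} (hA : 1 ≤ A) (hW : 0 < W)
    (ha : ‖a‖ ≤ A) (hw : ‖w‖ ≤ W) (hAW : A * W * p ≤ 1 / 2) (hH : k + t ≤ H) (Q : ℕ) :
    ‖LamF a k t w * exp (a * w)‖ ≤ 2 * (1 + W⁻¹) ^ H ∧
    ‖truncP Q a k t w‖ ≤ 2 * (1 + W⁻¹) ^ H ∧
    ‖LamF a k t w * exp (a * w) - truncP Q a k t w‖ ≤ 2 * (1 + W⁻¹) ^ H * (1 / 2) ^ Q := by
  have hpp : (1 : ℝ) ≤ p := by exact_mod_cast hp.out.one_le
  have haw : ‖a * w‖ < (p : ℝ)⁻¹ := by
    rw [norm_mul]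
    have h1 : ‖a‖ * ‖w‖ ≤ A * W := by gcongr
    have h2 : A * W ≤ (1 / 2) * (p : ℝ)⁻¹ := by
      rw [← div_eq_mul_inv, le_div_iff₀ (by linarith)]
      exact hAW
    have h3 : (0 : ℝ) < (p : ℝ)⁻¹ := by positivity
    linarith
  have hs := hasSum_lamP p haw k t
  have hb := fun q => term_boundP p k t H hA hW ha hw hAW hH q
  have hgeo : HasSum (fun q : ℕ => (1 + W⁻¹) ^ H * (1 / 2 : ℝ) ^ q) (2 * (1 + W⁻¹) ^ H) := by
    have := hasSum_geometric_two.mul_left ((1 + W⁻¹) ^ H)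
    rwa [mul_comm ((1 + W⁻¹) ^ H) 2] at this
  refine ⟨?_, ?_, ?_⟩
  · rw [← hs.tsum_eq]
    exact tsum_of_norm_bounded hgeo hb
  · unfold truncP
    refine (norm_sum_le _ _).trans ?_
    rw [Fin.sum_univ_eq_sum_range (fun q => ‖coefP a k q * ((q.descFactorial t : 𝕂) * w ^ (q - t))‖) Q]
    refine (Finset.sum_le_sum (fun q _ => hb q)).trans ?_
    exact sum_le_hasSum _ (fun q _ => by positivity) hgeo
  · have e1 : truncP Q a k t w = ∑ q ∈ range Q, coefP a k q * ((q.descFactorial t : 𝕂) * w ^ (q - t)) := by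
      unfold truncP
      rw [Fin.sum_univ_eq_sum_range (fun q => coefP a k q * ((q.descFactorial t : 𝕂) * w ^ (q - t))) Q]
    have hs' := (hasSum_nat_add_iff' Q).mpr hs
    rw [← e1] at hs'
    rw [← hs'.tsum_eq]
    have hgeo' : HasSum (fun q : ℕ => (1 + W⁻¹) ^ H * (1 / 2 : ℝ) ^ (q + Q))
        (2 * (1 + W⁻¹) ^ H * (1 / 2) ^ Q) := by
      have := hgeo.mul_right ((1 / 2 : ℝ) ^ Q)
      refine this.congr_fun ?_ |> fun h => h
      intro q
      simp only [pow_add]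
      ring
    exact tsum_of_norm_bounded hgeo' (fun q => hb (q + Q))

end expand

end Pool.Agent.W254.PA
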