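import Pool.Agent.W254.PA.HypA

/-!
# The hyperplane theorem over a number field for an abstract space of logarithms
-/

set_option autoImplicit false

namespace Pool.Agent.W254.PA

open Module Finset Pool.Agent.H301R2.ZG
open Pool.Agent.W254.HP hiding hypP
open Pool.Agent.H301R2.SSE (dg bs om om_alg om_ne cc mul_om ortho_le int_basis
  finrank_int_le_rat finrank_int_le_c tau tau_coe tau_eq_zero)

variable (K : IntermediateField ℚ ℂ) (𝓛 : Submodule ℚ ℂ)

/-- linear forms in `1` and logarithms with coefficients in `K` -/
noncomputable def LKP : Submodule K ℂ :=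
  Submodule.span K ({1} ∪ (𝓛 : Set ℂ))

/-- the hyperplane property in dimension `d` -/
def HypQ (d : ℕ) : Prop :=
  ∀ (l : ℕ) (x : Fin d → ℂ) (a : Fin d → Fin l → ℂ),
    (∀ c : Fin d → K, ∑ i, (c i : ℂ) * x i = 0 → ∀ i, c i = 0) →
    (∀ i j, a i j ∈ LKP K 𝓛) → (∀ j, ∑ i, x i * a i j = 0) →
    (∀ c : Fin l → K, (∀ i, ∑ j, (c j : ℂ) * a i j = 0) → ∀ j, c j = 0) → l ≤ d * (d - 1)

variable [FiniteDimensional ℚ K]

theorem span_KP {z : ℂ} (hz : z ∈ Submodule.span K (𝓛 : Set ℂ)) :
    ∃ u : Fin (dg K) → ℂ, (∀ h, u h ∈ 𝓛) ∧ z = ∑ h, om K h * u h := by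
  classical
  have key : ∀ (a : K) (u : Fin (dg K) → ℂ), (a : ℂ) * ∑ h, om K h * u h =
      ∑ h', om K h' * ∑ h, (cc K a h h' : ℂ) * u h := by
    intro a u
    rw [Finset.mul_sum]
    have h1 : ∀ h, (a : ℂ) * (om K h * u h) = ∑ h', (cc K a h h' : ℂ) * om K h' * u h := by
      intro h
      rw [← mul_assoc, mul_om, Finset.sum_mul]
    simp only [h1, Finset.mul_sum]
    rw [Finset.sum_comm]
    apply Finset.sum_congr rfl; intro h' _
    apply Finset.sum_congr rfl; intro h _
    ring
  refine Submodule.span_induction (p := fun z _ => ∃ u : Fin (dg K) → ℂ, (∀ h, u h ∈ 𝓛) ∧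
    z = ∑ h, om K h * u h) ?_ ?_ ?_ ?_ hz
  · intro z hz
    -- 1 = sum q_h om_h
    refine ⟨fun h => ((bs K).repr 1 h) • z, fun h => 𝓛.smul_mem _ hz, ?_⟩
    have h1 := (bs K).sum_repr 1
    have h2 := congrArg (fun z : K => (z : ℂ)) h1
    simp only [IntermediateField.coe_sum, OneMemClass.coe_one] at h2
    have h3 : ∑ h, om K h * ((bs K).repr 1 h • z) = (∑ h, (((bs K).repr 1 h • bs K h : K) : ℂ)) * z := by
      rw [Finset.sum_mul]
      apply Finset.sum_congr rfl
      intro h _
      rw [Algebra.smul_def, Algebra.smul_def]
      unfold om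
      simp only [MulMemClass.coe_mul]
      have : ((algebraMap ℚ K ((bs K).repr 1 h) : K) : ℂ) = algebraMap ℚ ℂ ((bs K).repr 1 h) := rfl
      rw [this]
      ring
    rw [h3, h2, one_mul]
  · exact ⟨0, fun h => 𝓛.zero_mem, by simp⟩
  · rintro z z' _ _ ⟨u, hu, rfl⟩ ⟨u', hu', rfl⟩
    refine ⟨u + u', fun h => 𝓛.add_mem (hu h) (hu' h), ?_⟩
    rw [← Finset.sum_add_distrib]
    apply Finset.sum_congr rfl
    intro h _
    simp only [Pi.add_apply]
    ring
  · rintro a z _ ⟨u, hu, rfl⟩
    refine ⟨fun h' => ∑ h, (cc K a h h' : ℂ) * u h, fun h' => ?_, ?_⟩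
    · apply Submodule.sum_mem
      intro h _
      have := 𝓛.smul_mem (cc K a h h') (hu h)
      rwa [Rat.smul_def] at this
    · rw [← key a u]
      rfl

theorem LKP_rep {z : ℂ} (hz : z ∈ LKP K 𝓛) : ∃ (β : K) (u : Fin (dg K) → ℂ), (∀ h, u h ∈ 𝓛) ∧
    z = (β : ℂ) + ∑ h, om K h * u h := by
  unfold LKP at hz
  rw [Submodule.span_union, Submodule.mem_sup] at hz
  obtain ⟨b, hb, w, hw, rfl⟩ := hz
  rw [Submodule.mem_span_singleton] at hb
  obtain ⟨β, rfl⟩ := hb
  obtain ⟨u, hu, rfl⟩ := span_KP K 𝓛 hw
  refine ⟨β, u, hu, ?_⟩
  congr 1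
  rw [Algebra.smul_def, mul_one]
  rfl

/-- the induction step -/
theorem hyp_stepP (hO : ObsProp 𝓛) (n : ℕ) (IH : ∀ d' < n + 1, HypQ K 𝓛 d') : HypQ K 𝓛 (n + 1) := by
  classical
  intro l x a hx haL hxa hcol
  have hD : 1 ≤ dg K := Nat.one_le_iff_ne_zero.mpr (NeZero.ne (dg K))
  by_contra hcon
  have hl : (n + 1) * n + 1 ≤ l := by
    have : n + 1 - 1 = n := rfl
    rw [this] at hcon
    omega
  have hx0 : x 0 ≠ 0 := by
    intro h
    have h1 := hx (Pi.single 0 1) (by
      rw [Finset.sum_eq_single 0]
      · rw [h, mul_zero]
      · intro i _ hi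
        rw [Pi.single_eq_of_ne hi]; simp
      · intro h; exact absurd (Finset.mem_univ _) h) 0
    rw [Pi.single_eq_same] at h1
    exact one_ne_zero h1
  choose β u hu ha using fun i j => LKP_rep K 𝓛 (haL i j)
  obtain ⟨κ, μ, σ, hκ, hcount, hσ, hpar⟩ := params n (dg K) hD
  obtain ⟨N, Rm, G0, hN1, hfin, hT, hG⟩ := partAP K 𝓛 hO n l x a β u hu ha hx0 hxa κ μ σ hκ hcount hσ
  -- the rational subspace
  let F : Submodule K (Fin (n + 1) → K) :=
    { carrier := {τ | ∀ α ∈ N, ∑ i, α i * (τ i : ℂ) = 0}
      zero_mem' := by intro α _; simp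
      add_mem' := by
        intro τ τ' h h' α hα
        have h1 := h α hα
        have h2 := h' α hα
        simp only [Pi.add_apply]
        push_cast
        simp only [mul_add, Finset.sum_add_distrib, h1, h2, add_zero]
      smul_mem' := by
        intro c τ h α hα
        have h1 := h α hα
        simp only [Pi.smul_apply, smul_eq_mul]
        push_cast
        have h2 : ∀ i, α i * ((c : ℂ) * (τ i : ℂ)) = (c : ℂ) * (α i * (τ i : ℂ)) := by
          intro i; ring
        simp only [h2]
        rw [← Finset.mul_sum, h1, mul_zero] }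
  have hFmem : ∀ τ, τ ∈ F ↔ ∀ α ∈ N, ∑ i, α i * (τ i : ℂ) = 0 := fun τ => Iff.rfl
  have hRm := finrank_Rm_ge K Rm F (fun t ht => (hFmem _).mpr (fun α hα => hT t ht α hα))
  obtain ⟨d', e, v, hd', hv, hev, hexp⟩ := pivot_basis F
  rw [hd'] at hRm
  have heinj : Function.Injective e := by
    intro k k' hkk
    by_contra hne
    have h1 := hev k k'
    have h2 := hev k' k'
    rw [if_neg hne, hkk] at h1
    rw [if_pos rfl, h1] at h2
    exact zero_ne_one h2
  -- dimension of `N`
  have hNd : finrank ℂ N + d' ≤ n + 1 := by
    let S : Submodule ℂ (Fin (n + 1) → ℂ) :=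
      Submodule.span ℂ (Set.range (fun k : Fin d' => fun i => (v k i : ℂ)))
    have hS : finrank ℂ S = d' := by
      have hli : LinearIndependent ℂ (fun k : Fin d' => fun i => (v k i : ℂ)) := by
        rw [Fintype.linearIndependent_iff]
        intro g hg k
        have h1 := congrFun hg (e k)
        rw [Finset.sum_apply, Finset.sum_eq_single k] at h1
        · simpa [hev k k] using h1
        · intro k' _ hk'
          simp [hev k k', Ne.symm hk']
        · intro h; exact absurd (Finset.mem_univ _) h
      have := finrank_span_eq_card hli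
      rwa [Fintype.card_fin] at this
    have h1 := ortho_le N S (by
      intro α hα c hc
      refine Submodule.span_induction (p := fun c _ => ∑ i, α i * c i = 0) ?_ ?_ ?_ ?_ hc
      · rintro _ ⟨k, rfl⟩
        exact (hFmem _).mp (hv k) α hα
      · simp
      · intro c c' _ _ h h'
        simp only [Pi.add_apply, mul_add, Finset.sum_add_distrib, h, h', add_zero]
      · intro b c _ h
        have h2 : ∀ i, α i * (b • c) i = b * (α i * c i) := by
          intro i
          rw [Pi.smul_apply, smul_eq_mul]; ring
        simp only [h2]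
        rw [← Finset.mul_sum, h, mul_zero])
    omega
  -- non pivots
  let NP := {i : Fin (n + 1) // ∀ k, e k ≠ i}
  have hNPcard : Fintype.card NP + d' = n + 1 := by
    have h1 : Fintype.card {i : Fin (n + 1) // ¬ ∀ k, e k ≠ i} = d' := by
      have h2 : Fintype.card (Set.range e) = d' := by
        rw [Set.card_range_of_injective heinj, Fintype.card_fin]
      refine Eq.trans ?_ h2
      apply Fintype.card_congr
      apply Equiv.subtypeEquivRight
      intro i
      push Not
      rfl
    have h3 := Fintype.card_subtype_compl (fun i : Fin (n + 1) => ∀ k, e k ≠ i)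
    rw [Fintype.card_fin] at h3
    have h4 : Fintype.card NP ≤ n + 1 := by
      have := Fintype.card_subtype_le (fun i : Fin (n + 1) => ∀ k, e k ≠ i)
      rwa [Fintype.card_fin] at this
    have h5 : Fintype.card NP = Fintype.card {i : Fin (n + 1) // ∀ k, e k ≠ i} := rfl
    omega
  -- the functional `z i - ∑ z (e k) v k i`
  let lam : NP → (Fin (n + 1) → ℂ) → ℂ := fun i z => z i.1 - ∑ k, z (e k) * (v k i.1 : ℂ)
  have hlamF : ∀ i : NP, ∀ τ ∈ F, lam i (fun j => (τ j : ℂ)) = 0 := by
    intro i τ hτ
    have h1 := congrArg (fun z : K => (z : ℂ)) (hexp τ hτ i.1)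
    push_cast at h1
    change (τ i.1 : ℂ) - ∑ k, (τ (e k) : ℂ) * (v k i.1 : ℂ) = 0
    rw [h1]; ring
  have hlamexp : ∀ z : Fin (n + 1) → ℂ, (∀ i, lam i z = 0) → ∀ i, z i = ∑ k, z (e k) * (v k i : ℂ) := by
    intro z hz i
    by_cases hi : ∀ k, e k ≠ i
    · exact sub_eq_zero.mp (hz ⟨i, hi⟩)
    · push Not at hi
      obtain ⟨k, rfl⟩ := hi
      rw [Finset.sum_eq_single k]
      · rw [hev k k]; simp
      · intro k' _ hk'
        rw [hev k k', if_neg (Ne.symm hk')]; simp
      · intro h; exact absurd (Finset.mem_univ _) h
  have hlamadd : ∀ i z z', lam i (z + z') = lam i z + lam i z' := by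
    intro i z z'
    simp only [lam, Pi.add_apply, add_mul, Finset.sum_add_distrib]
    ring
  have hlamsmul : ∀ i (c : ℂ) z, lam i (c • z) = c * lam i z := by
    intro i c z
    simp only [lam, Pi.smul_apply, smul_eq_mul, mul_assoc, ← Finset.mul_sum]
    ring
  -- the vector of a combination of the columns
  let zz : (Fin l → K) → (Fin (n + 1) → ℂ) := fun k i => ∑ j, (k j : ℂ) * a i j
  have hzadd : ∀ k k', zz (k + k') = zz k + zz k' := by
    intro k k'
    funext i
    simp only [zz, Pi.add_apply]
    push_cast
    simp only [add_mul, Finset.sum_add_distrib]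
  have hzsmul : ∀ (c : K) k, zz (c • k) = (c : ℂ) • zz k := by
    intro c k
    funext i
    simp only [zz, Pi.smul_apply, smul_eq_mul]
    push_cast
    simp only [mul_assoc, ← Finset.mul_sum]
  -- the space of combinations in `F`
  let Z0 : Submodule K (Fin l → K) :=
    { carrier := {k | ∀ i, lam i (zz k) = 0}
      zero_mem' := by
        intro i
        have h1 : zz 0 = 0 := by
          funext i
          simp [zz]
        rw [h1]
        simp [lam]
      add_mem' := by
        intro k k' h h' i
        rw [hzadd, hlamadd, h i, h' i, add_zero]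
      smul_mem' := by
        intro c k h i
        rw [hzsmul, hlamsmul, h i, mul_zero] }
  let P : ℂ := 2 * Real.pi * Complex.I
  have hP : P ≠ 0 := two_pi_ne
  let Z1 : Submodule K ((Fin l → K) × (NP → K)) :=
    { carrier := {w | ∀ i, lam i (zz w.1) = (w.2 i : ℂ) * P}
      zero_mem' := by
        intro i
        have h1 : zz 0 = 0 := by
          funext i
          simp [zz]
        change lam i (zz 0) = ((0 : K) : ℂ) * P
        rw [h1]
        simp [lam]
      add_mem' := by
        intro w w' h h' i
        change lam i (zz (w.1 + w'.1)) = ((w.2 i + w'.2 i : K) : ℂ) * P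
        rw [hzadd, hlamadd, h i, h' i]
        push_cast; ring
      smul_mem' := by
        intro c w h i
        change lam i (zz (c • w.1)) = ((c * w.2 i : K) : ℂ) * P
        rw [hzsmul, hlamsmul, h i]
        push_cast; ring }
  have hZ1 := finrank_pair Z1 (by
    intro w hw h1
    apply Prod.ext
    · exact h1
    · funext i
      have h2 := hw i
      rw [h1] at h2
      have h3 : zz 0 = 0 := by
        funext i
        simp [zz]
      rw [h3] at h2
      have h4 : lam i 0 = 0 := by simp [lam]
      rw [h4] at h2
      have h5 := (mul_eq_zero.mp h2.symm).resolve_right hP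
      exact_mod_cast h5) Z0 (by
    intro k hk i
    have := hk i
    simpa using this)
  rw [Module.finrank_fintype_fun_eq_card] at hZ1
  set Z := Z1.map (LinearMap.fst K (Fin l → K) (NP → K)) with hZdef
  -- the group `G0` lands in `Z`
  have hzG : ∀ s : Fin (l * dg K) → ℤ, ∀ i,
      zz (kk K (fun p => (s p : ℚ))) i =
      (∑ j, (kk K (fun p => (s p : ℚ)) j : ℂ) * (β i j : ℂ)) +
      ∑ h, om K h * ∑ p, um K u i h p * (s p : ℂ) := by
    intro s i
    have h1 := sum_kk K (fun p => (s p : ℚ)) (fun j => a i j)
    have h2 := sum_kk K (fun p => (s p : ℚ)) (fun j => (β i j : ℂ))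
    change ∑ j, (kk K (fun p => (s p : ℚ)) j : ℂ) * a i j = _
    rw [← h1, ← h2]
    simp only [Finset.mul_sum]
    rw [Finset.sum_comm, ← Finset.sum_add_distrib]
    apply Finset.sum_congr rfl
    intro p _
    rw [factA K a β u ha i p]
    unfold av
    rw [add_mul, Finset.sum_mul]
    congr 1
    · apply Finset.sum_congr rfl
      intro h _
      push_cast
      ring
  have hG0Z : ∀ s ∈ G0, kk K (fun p => (s p : ℚ)) ∈ Z := by
    intro s hs
    obtain ⟨h1, h2⟩ := hG s hs
    -- the algebraic part is in `F`
    have hS : (fun i => ∑ j, kk K (fun p => (s p : ℚ)) j * β i j) ∈ F := by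
      rw [hFmem]
      intro α hα
      have h3 := h1 α hα
      rw [← h3]
      apply Finset.sum_congr rfl
      intro i _
      push_cast
      rfl
    have h3 : ∀ i : NP, ∃ τ : K, lam i (zz (kk K (fun p => (s p : ℚ)))) = (τ : ℂ) * P := by
      intro i
      have h4 := hlamF i _ hS
      -- the logarithmic part
      obtain ⟨τ, hτ⟩ := comb_twoPi K Rm
        (fun q => (if f1 q = i.1 then bs K (f2 q) else 0) -
          ∑ k, (if f1 q = e k then bs K (f2 q) * v k i.1 else 0)) (by
          intro t ht
          have h5 := hlamF i _ ((hFmem (kk K t)).mpr (fun α hα => hT t ht α hα))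
          have h6 : ∀ j, ∑ q, (t q : ℂ) * (if f1 q = j then (bs K (f2 q) : ℂ) else 0) =
              (kk K t j : ℂ) := by
            intro j
            rw [sum_pr, Finset.sum_eq_single j]
            · unfold kk
              rw [tau_coe]
              apply Finset.sum_congr rfl
              intro h _
              rw [f1_pr, f2_pr, if_pos rfl]
              rfl
            · intro j' _ hj'
              apply Finset.sum_eq_zero
              intro h _
              rw [f1_pr, if_neg hj', mul_zero]
            · intro h; exact absurd (Finset.mem_univ _) h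
          change (kk K t i.1 : ℂ) - ∑ k, (kk K t (e k) : ℂ) * (v k i.1 : ℂ) = 0 at h5
          rw [← h5, ← h6 i.1]
          have h7 : ∀ k, (kk K t (e k) : ℂ) * (v k i.1 : ℂ) =
              ∑ q, (t q : ℂ) * (if f1 q = e k then (bs K (f2 q) : ℂ) * (v k i.1 : ℂ) else 0) := by
            intro k
            rw [← h6, Finset.sum_mul]
            apply Finset.sum_congr rfl
            intro q _
            split_ifs <;> ring
          simp only [h7]
          rw [Finset.sum_comm, ← Finset.sum_sub_distrib]
          apply Finset.sum_congr rfl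
          intro q _
          push_cast
          rw [mul_sub, Finset.mul_sum]
          congr 1
          · split_ifs <;> simp
          · apply Finset.sum_congr rfl
            intro k _
            split_ifs <;> simp)
        (fun q => ∑ p, um K u (f1 q) (f2 q) p * (s p : ℂ)) P h2
      refine ⟨τ, ?_⟩
      rw [← hτ]
      have h8 : zz (kk K (fun p => (s p : ℚ))) =
          (fun i => ((∑ j, kk K (fun p => (s p : ℚ)) j * β i j : K) : ℂ)) +
          (fun i => ∑ h, om K h * ∑ p, um K u i h p * (s p : ℂ)) := by
        funext i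
        rw [Pi.add_apply, hzG s i]
        push_cast
        rfl
      rw [h8, hlamadd, h4, zero_add]
      change (∑ h, om K h * ∑ p, um K u i.1 h p * (s p : ℂ)) -
        ∑ k, (∑ h, om K h * ∑ p, um K u (e k) h p * (s p : ℂ)) * (v k i.1 : ℂ) = _
      have h9 : ∀ j, ∑ q, (if f1 q = j then (bs K (f2 q) : ℂ) else 0) *
          ∑ p, um K u (f1 q) (f2 q) p * (s p : ℂ) = ∑ h, om K h * ∑ p, um K u j h p * (s p : ℂ) := by
        intro j
        rw [sum_pr, Finset.sum_eq_single j]
        · apply Finset.sum_congr rfl
          intro h _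
          rw [f1_pr, f2_pr, if_pos rfl]
          rfl
        · intro j' _ hj'
          apply Finset.sum_eq_zero
          intro h _
          rw [f1_pr, if_neg hj', zero_mul]
        · intro h; exact absurd (Finset.mem_univ _) h
      rw [← h9 i.1]
      have h10 : ∀ k, (∑ h, om K h * ∑ p, um K u (e k) h p * (s p : ℂ)) * (v k i.1 : ℂ) =
          ∑ q, (if f1 q = e k then (bs K (f2 q) : ℂ) * (v k i.1 : ℂ) else 0) *
          ∑ p, um K u (f1 q) (f2 q) p * (s p : ℂ) := by
        intro k
        rw [← h9, Finset.sum_mul]
        apply Finset.sum_congr rfl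
        intro q _
        split_ifs <;> ring
      simp only [h10]
      rw [Finset.sum_comm, ← Finset.sum_sub_distrib]
      apply Finset.sum_congr rfl
      intro q _
      push_cast
      rw [sub_mul, Finset.sum_mul]
      congr 1
      · split_ifs <;> simp
      · apply Finset.sum_congr rfl
        intro k _
        split_ifs <;> simp
    choose τ hτ using h3
    exact Submodule.mem_map.mpr ⟨(kk K (fun p => (s p : ℚ)), τ), hτ, rfl⟩
  have hG0le := finrank_G0_le K G0 Z hG0Z
  -- numerical conclusion
  have hmain : finrank ℂ N * ((n + 1) * dg K) + dg K ≤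
      finrank ℤ Rm + (l * dg K - finrank ℤ G0) := by
    rcases Nat.eq_zero_or_pos d' with hd0 | hdpos
    · -- `F = 0`
      have hZbot : Z = ⊥ := by
        rw [eq_bot_iff]
        rintro k hk
        obtain ⟨w, hw, rfl⟩ := Submodule.mem_map.mp hk
        haveI : IsEmpty (Fin d') := by rw [hd0]; infer_instance
        have h1 : ∀ i : Fin (n + 1), zz w.1 i = (w.2 ⟨i, fun k => isEmptyElim k⟩ : ℂ) * P := by
          intro i
          have h2 := hw ⟨i, fun k => isEmptyElim k⟩
          rw [← h2]
          change _ = zz w.1 i - ∑ k, zz w.1 (e k) * (v k i : ℂ)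
          rw [Finset.univ_eq_empty, Finset.sum_empty, sub_zero]
        have h2 : ∑ i, x i * zz w.1 i = 0 := by
          simp only [zz, Finset.mul_sum]
          rw [Finset.sum_comm]
          apply Finset.sum_eq_zero
          intro j _
          have h3 : ∀ i, x i * ((w.1 j : ℂ) * a i j) = (w.1 j : ℂ) * (x i * a i j) := by
            intro i; ring
          simp only [h3]
          rw [← Finset.mul_sum, hxa, mul_zero]
        simp only [h1] at h2
        have h3 : (∑ i : Fin (n + 1), (w.2 ⟨i, fun k => isEmptyElim k⟩ : ℂ) * x i) * P = 0 := by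
          rw [← h2, Finset.sum_mul]
          apply Finset.sum_congr rfl
          intro i _
          ring
        have h4 := hx (fun i => w.2 ⟨i, fun k => isEmptyElim k⟩)
          ((mul_eq_zero.mp h3).resolve_right hP)
        rw [Submodule.mem_bot]
        funext j
        apply hcol w.1
        intro i
        have h5 := h1 i
        rw [h4 i] at h5
        simpa [zz] using h5
      have h1 : finrank K Z = 0 := by rw [hZbot]; exact finrank_bot K _
      rw [h1, mul_zero] at hG0le
      have h2 : finrank ℤ G0 = 0 := by omega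
      rw [h2, Nat.sub_zero]
      rw [hd0, mul_zero, add_zero] at hRm
      have h3 : finrank ℂ N ≤ n + 1 := by omega
      have h4 : finrank ℂ N * ((n + 1) * dg K) ≤ (n + 1) * ((n + 1) * dg K) :=
        Nat.mul_le_mul_right _ h3
      have h5 : ((n + 1) * n + 1) * dg K ≤ l * dg K := Nat.mul_le_mul_right _ hl
      have h6 : (n + 1) * ((n + 1) * dg K) + dg K =
        (n + 1) * dg K + ((n + 1) * n + 1) * dg K := by ring
      omega
    · -- use the induction hypothesis
      have hdlt : d' < n + 1 := by omega
      have hZ0 : finrank K Z0 ≤ d' * (d' - 1) := by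
        let B := Module.finBasis K Z0
        refine IH d' hdlt (finrank K Z0) (fun k => ∑ i, x i * (v k i : ℂ))
          (fun k m => zz (B m : Fin l → K) (e k)) ?_ ?_ ?_ ?_
        · intro c hc
          have h1 : ∑ i, ((∑ k, c k * v k i : K) : ℂ) * x i = 0 := by
            rw [← hc]
            simp only [Finset.mul_sum]
            rw [Finset.sum_comm]
            apply Finset.sum_congr rfl
            intro i _
            push_cast
            rw [Finset.sum_mul]
            apply Finset.sum_congr rfl
            intro k _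
            ring
          have h2 := hx _ h1
          intro k
          have h3 := h2 (e k)
          rw [Finset.sum_eq_single k] at h3
          · rw [hev k k, if_pos rfl, mul_one] at h3
            exact h3
          · intro k' _ hk'
            rw [hev k k', if_neg (Ne.symm hk'), mul_zero]
          · intro h; exact absurd (Finset.mem_univ _) h
        · intro k m
          change ∑ j, ((B m : Fin l → K) j : ℂ) * a (e k) j ∈ LKP K 𝓛
          apply Submodule.sum_mem
          intro j _
          have := (LKP K 𝓛).smul_mem ((B m : Fin l → K) j) (haL (e k) j)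
          rwa [Algebra.smul_def] at this
        · intro m
          have h1 := hlamexp (zz (B m : Fin l → K)) (B m).2
          have h2 : ∑ i, x i * zz (B m : Fin l → K) i = 0 := by
            simp only [zz, Finset.mul_sum]
            rw [Finset.sum_comm]
            apply Finset.sum_eq_zero
            intro j _
            have h3 : ∀ i, x i * (((B m : Fin l → K) j : ℂ) * a i j) =
                ((B m : Fin l → K) j : ℂ) * (x i * a i j) := by
              intro i; ring
            simp only [h3]
            rw [← Finset.mul_sum, hxa, mul_zero]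
          rw [← h2]
          simp only [Finset.sum_mul]
          rw [Finset.sum_comm]
          apply Finset.sum_congr rfl
          intro i _
          rw [h1 i, Finset.mul_sum]
          apply Finset.sum_congr rfl
          intro k _
          ring
        · intro c hc
          have h0 : ∀ i, zz (∑ m, c m • (B m : Fin l → K)) i =
              ∑ m, (c m : ℂ) * zz (B m : Fin l → K) i := by
            intro i
            simp only [zz]
            simp only [Finset.sum_apply, Pi.smul_apply, smul_eq_mul]
            push_cast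
            simp only [Finset.sum_mul, Finset.mul_sum]
            rw [Finset.sum_comm]
            apply Finset.sum_congr rfl
            intro m _
            apply Finset.sum_congr rfl
            intro j _
            ring
          have h1 : (∑ m, c m • (B m : Fin l → K)) ∈ Z0 := by
            apply Submodule.sum_mem
            intro m _
            exact Z0.smul_mem _ (B m).2
          have h2 := hlamexp _ h1
          have h3 : ∀ i, zz (∑ m, c m • (B m : Fin l → K)) i = 0 := by
            intro i
            rw [h2 i]
            apply Finset.sum_eq_zero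
            intro k _
            rw [h0, hc k, zero_mul]
          have h4 : (∑ m, c m • (B m : Fin l → K)) = 0 := by
            funext j
            exact hcol _ h3 j
          have h5 : ∑ m, c m • B m = 0 := by
            apply Subtype.ext
            rw [Submodule.coe_sum]
            exact h4
          exact Fintype.linearIndependent_iff.mp B.linearIndependent c h5
      have h1 : finrank K Z ≤ d' * (d' - 1) + Fintype.card NP := hZ1.trans (by omega)
      have h2 : dg K * finrank K Z ≤ dg K * (d' * (d' - 1) + Fintype.card NP) :=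
        Nat.mul_le_mul_left _ h1
      have h3 : finrank ℂ N * ((n + 1) * dg K) ≤ Fintype.card NP * ((n + 1) * dg K) :=
        Nat.mul_le_mul_right _ (by omega)
      obtain ⟨f, hf⟩ : ∃ f, d' = f + 1 := ⟨d' - 1, by omega⟩
      obtain ⟨g, hg⟩ : ∃ g, Fintype.card NP = g := ⟨_, rfl⟩
      rw [hg] at hNPcard h1 h2 h3
      have hn : n = g + f := by omega
      have h5 : ((n + 1) * n + 1) * dg K ≤ l * dg K := Nat.mul_le_mul_right _ hl
      have hf' : d' - 1 = f := by omega
      rw [hf'] at h2
      rw [hf] at hRm h2
      -- `(n+1) n + 1 = (f+1) f + g (n+1) + g f + 1`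
      have h6 : ((n + 1) * n + 1) * dg K =
          dg K * ((f + 1) * f + g) + g * ((n + 1) * dg K) + (g * f) * dg K + dg K
            - g * dg K := by
        have : ((n + 1) * n + 1) * dg K + g * dg K =
          dg K * ((f + 1) * f + g) + g * ((n + 1) * dg K) + (g * f) * dg K + dg K := by
          rw [hn]; ring
        omega
      have h7 : (n + 1) * dg K = dg K * (f + 1) + g * dg K := by rw [hn]; ring
      omega
  have hlast := hpar (finrank ℂ N) hN1 (by omega)
  have h1 : (finrank ℂ N * ((n + 1) * dg K) + dg K) * σ ≤
    (finrank ℤ Rm + (l * dg K - finrank ℤ G0)) * σ := Nat.mul_le_mul_right _ hmain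
  omega

/-- **The hyperplane theorem over a number field.** -/
theorem hypP (hO : ObsProp 𝓛) (d : ℕ) : HypQ K 𝓛 d := by
  induction d using Nat.strong_induction_on with
  | _ d ih =>
    rcases Nat.eq_zero_or_pos d with h | h
    · subst h
      intro l x a _ _ _ hcol
      by_contra hcon
      have hl : 0 < l := by omega
      have h1 := hcol (fun _ => 1) (fun i => isEmptyElim i) ⟨0, hl⟩
      exact one_ne_zero h1
    · obtain ⟨n, rfl⟩ : ∃ n, d = n + 1 := ⟨d - 1, by omega⟩
      exact hyp_stepP K 𝓛 hO n ih

end Pool.Agent.W254.PA
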