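import Pool.Agent.W254.PA.LeoBase

/-!
# Relations between logarithms of units with coefficients in a finite dimensional space
-/

set_option autoImplicit false

namespace Pool.Agent.W254.PA

open Module Finset NormedSpace Pool.Agent.W254.Ab
open Pool.Agent.W245.PB (IsIwasawaLog brumer)

theorem fd_of_bound {k M : Type*} [Field k] [AddCommGroup M] [Module k M] (N : ℕ)
    (h : ∀ s : Finset M, LinearIndependent k (fun i : s => (i : M)) → s.card ≤ N) :
    FiniteDimensional k M ∧ finrank k M ≤ N := by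
  have h2 := rank_le h
  have hfin : FiniteDimensional k M :=
    Module.rank_lt_aleph0_iff.mp (lt_of_le_of_lt h2 Cardinal.natCast_lt_aleph0)
  exact ⟨hfin, Module.finrank_le_of_rank_le h2⟩

theorem li_coe {k M : Type*} [Field k] [AddCommGroup M] [Module k M] (R : Submodule k M)
    (s : Finset R) (hs : LinearIndependent k (fun i : s => (i : R))) :
    LinearIndependent k (fun i : s => ((i : R) : M)) := hs.map' R.subtype R.ker_subtype

section rel

variable {Ω : Type*} [Field Ω] [CharZero Ω] {V : Submodule (QA Ω) Ω} (hV : Hyp V)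

/-- relations with coefficients in `A` -/
def relSet {J : Type*} (w : J → Ω) (A : Submodule (QA Ω) Ω) : Set (J →₀ Ω) :=
  {f | (∀ s, f s ∈ A) ∧ f.sum (fun s c => c * w s) = 0}

include hV in
theorem relSet_card {J : Type*} (w : J → Ω) (hw : LinearIndependent (QA Ω) w) (hL : ∀ i, w i ∈ V)
    (A : Submodule (QA Ω) Ω) [FiniteDimensional (QA Ω) A] (R : Submodule (QA Ω) (J →₀ Ω))
    (hR : ∀ f ∈ R, f ∈ relSet w A) (s : Finset R)
    (hs : LinearIndependent (QA Ω) (fun i : s => (i : R))) :
      s.card ≤ finrank (QA Ω) A * (finrank (QA Ω) A - 1) := by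
  have h3 : LinearIndependent (QA Ω) (fun i : s => ((i : R) : J →₀ Ω)) := li_coe R s hs
  have h2 := rel_core0 hV w hw hL A (fun i : s => ((i : R) : J →₀ Ω)) h3
     (fun i t => (hR _ i.1.2).1 t) (fun i => (hR _ i.1.2).2)
  rwa [Fintype.card_coe] at h2

include hV in
/-- the supports of all relations are contained in one finite set -/
theorem exists_supp {J : Type*} (w : J → Ω) (hw : LinearIndependent (QA Ω) w) (hL : ∀ i, w i ∈ V)
    (A : Submodule (QA Ω) Ω) [FiniteDimensional (QA Ω) A] :
    ∃ S : Finset J, ∀ f ∈ relSet w A, ∀ s, s ∉ S → f s = 0 := by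
  classical
  -- maximal independent family of relations
  let Q : ℕ → Prop := fun m => ∃ f : Fin m → (J →₀ Ω), LinearIndependent (QA Ω) f ∧
    ∀ i, f i ∈ relSet w A
  have hQ0 : Q 0 := ⟨fun i => isEmptyElim i, linearIndependent_empty_type, fun i => isEmptyElim i⟩
  have hbound : ∀ m, Q m → m ≤ finrank (QA Ω) A * (finrank (QA Ω) A - 1) := by
    rintro m ⟨f, h1, h2⟩
    have := rel_core0 hV w hw hL A f h1 (fun i => (h2 i).1) (fun i => (h2 i).2)
    rwa [Fintype.card_fin] at this
  obtain ⟨m, hm, hmax⟩ : ∃ m, Q m ∧ ∀ m', Q m' → m' ≤ m := by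
    refine ⟨Nat.findGreatest Q (finrank (QA Ω) A * (finrank (QA Ω) A - 1)), ?_, ?_⟩
    · exact Nat.findGreatest_spec (P := Q) (Nat.zero_le _) hQ0
    · intro m' hm'
      exact Nat.le_findGreatest (hbound m' hm') hm'
  obtain ⟨f, hf, hfR⟩ := hm
  refine ⟨Finset.univ.biUnion (fun i => (f i).support), ?_⟩
  intro g hg s hs
  have hspan : g ∈ Submodule.span (QA Ω) (Set.range f) := by
    by_contra hg'
    have h1 : Q (m + 1) := by
      refine ⟨Fin.cons g f, ?_, ?_⟩
      · rw [linearIndependent_finCons]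
        exact ⟨hf, hg'⟩
      · intro i
        refine Fin.cases ?_ ?_ i
        · exact hg
        · intro i; exact hfR i
    have := hmax _ h1
    omega
  refine Submodule.span_induction (p := fun g _ => g s = 0) ?_ ?_ ?_ ?_ hspan
  · rintro _ ⟨i, rfl⟩
    by_contra h0
    exact hs (Finset.mem_biUnion.mpr ⟨i, Finset.mem_univ _, Finsupp.mem_support_iff.mpr h0⟩)
  · rfl
  · intro a b _ _ ha hb
    rw [Finsupp.add_apply, ha, hb, add_zero]
  · intro c a _ ha
    have h1 : (c • a) s = c • (a s) := rfl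
    rw [h1, ha, smul_zero]

end rel

variable {p : ℕ} [hp : Fact p.Prime] {L : PadicAlgCl p → PadicAlgCl p} (hL : IsIwasawaLog p L)

section gal

variable {k Q : Type} [Field k] [CharZero k] [Field Q] [CharZero Q] [Algebra k Q] [IsGalois k Q]

theorem lift_gal (K F₀ : IntermediateField k Q) [FiniteDimensional k F₀] [Normal k F₀]
    (h : K ⊓ F₀ = ⊥) (x : F₀ ≃ₐ[k] F₀) :
    ∃ g : Q ≃ₐ[k] Q, (∀ z ∈ K, g z = z) ∧ ∀ y : F₀, g (y : Q) = ((x y : F₀) : Q) := by
  haveI : IsGalois k F₀ := ⟨⟩
  let H : Subgroup (F₀ ≃ₐ[k] F₀) := K.fixingSubgroup.map (AlgEquiv.restrictNormalHom F₀)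
  have h1 : IntermediateField.fixedField H = ⊥ := by
    rw [eq_bot_iff]
    intro y hy
    rw [IntermediateField.mem_fixedField_iff] at hy
    have h2 : (y : Q) ∈ IntermediateField.fixedField K.fixingSubgroup := by
      rw [IntermediateField.mem_fixedField_iff]
      intro g hg
      have h3 := hy (AlgEquiv.restrictNormalHom F₀ g) ⟨g, hg, rfl⟩
      have h4 := AlgEquiv.restrictNormalHom_apply F₀ g y
      rw [h3] at h4
      exact h4.symm
    rw [InfiniteGalois.fixedField_fixingSubgroup] at h2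
    have h3 : (y : Q) ∈ K ⊓ F₀ := ⟨h2, y.2⟩
    rw [h, IntermediateField.mem_bot] at h3
    obtain ⟨q, hq⟩ := h3
    rw [IntermediateField.mem_bot]
    refine ⟨q, ?_⟩
    apply Subtype.ext
    rw [← hq]
    rfl
  have h2 : H = ⊤ := by
    rw [← IntermediateField.fixingSubgroup_fixedField H, h1, IntermediateField.fixingSubgroup_bot]
  have h3 : x ∈ H := by rw [h2]; exact Subgroup.mem_top x
  obtain ⟨g, hg, hgx⟩ := h3
  refine ⟨g, ?_, ?_⟩
  · intro z hz
    exact (IntermediateField.mem_fixingSubgroup_iff K g).mp hg z hz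
  · intro y
    rw [← hgx]
    exact (AlgEquiv.restrictNormalHom_apply F₀ g y).symm

include hL in
/-- the logarithm of the norm of a unit vanishes -/
theorem log_norm_zero (hk : ∀ q : k, IsU q → q ^ 2 = 1) (ι : Q →+* PadicAlgCl p)
    (F₀ : IntermediateField k Q) [FiniteDimensional k F₀] [Normal k F₀] (y : F₀)
    (hy : IsU (y : Q)) : ∑ x : F₀ ≃ₐ[k] F₀, L (ι ((x y : F₀) : Q)) = 0 := by
  classical
  haveI : IsGalois k F₀ := ⟨⟩
  have hyF : IsU y := by
    refine ⟨fun h => hy.ne (by rw [h]; rfl), ?_, ?_⟩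
    · exact (isIntegral_algebraMap_iff (algebraMap F₀ Q).injective).mp hy.int
    · apply (isIntegral_algebraMap_iff (algebraMap F₀ Q).injective).mp
      rw [map_inv₀]
      exact hy.inv
  have h0 : Algebra.norm k y ≠ 0 := Algebra.norm_ne_zero_iff.mpr hyF.ne
  have hN : IsU (Algebra.norm k y) := by
    refine ⟨h0, Algebra.isIntegral_norm k hyF.int, ?_⟩
    have h1 : (Algebra.norm k y)⁻¹ = Algebra.norm k y⁻¹ := by
      apply inv_eq_of_mul_eq_one_right
      rw [← map_mul, mul_inv_cancel₀ hyF.ne, map_one]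
    rw [h1]
    exact Algebra.isIntegral_norm k hyF.inv
  have h1 := hk _ hN
  have h2 := Algebra.norm_eq_prod_automorphisms k y
  let f : F₀ →+* PadicAlgCl p := ι.comp (algebraMap F₀ Q)
  have h3 : ∏ x : F₀ ≃ₐ[k] F₀, f (x y) = f (algebraMap k F₀ (Algebra.norm k y)) := by
    rw [h2, map_prod]
  have h4 : L (f (algebraMap k F₀ (Algebra.norm k y))) = 0 := by
    apply log_root hL (M := 2) (by norm_num)
    rw [← map_pow, ← map_pow, h1, map_one, map_one]
  rw [← h3, hL.prod] at h4
  · exact h4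
  · intro x _
    exact (map_ne_zero f).mpr ((map_ne_zero x).mpr hyF.ne)

include hL in
/-- **Relations with coefficients in a finite dimensional space come from one number field.** -/
theorem exists_field (hk : ∀ q : k, IsU q → q ^ 2 = 1) (ι : Q →+* PadicAlgCl p)
    (A : Submodule (QA (PadicAlgCl p)) (PadicAlgCl p)) [FiniteDimensional (QA (PadicAlgCl p)) A] :
    ∃ F₀ : IntermediateField k Q, FiniteDimensional k F₀ ∧ Normal k F₀ ∧
      ∀ K : IntermediateField k Q, K ⊓ F₀ = ⊥ → ∀ (r : ℕ) (ε : Fin r → Q), (∀ i, IsU (ε i)) →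
        (∀ i, ε i ∈ K) → (∀ m : Fin r → ℤ, ∏ i, ε i ^ m i = 1 → m = 0) →
        ∀ a : Fin r → PadicAlgCl p, (∀ i, a i ∈ A) → ∑ i, a i * L (ι (ε i)) = 0 → a = 0 := by
  classical
  set s : Set (PadicAlgCl p) := {z | ∃ u : Q, IsU u ∧ z = L (ι u)} with hs
  obtain ⟨b, hbs, hspan, hli⟩ := exists_linearIndependent ℚ s
  choose u hu hub using fun κ : b => hbs κ.2
  let w : b → PadicAlgCl p := fun κ => (κ : PadicAlgCl p)
  have hwu : ∀ κ, w κ = L (ι (u κ)) := fun κ => hub κ
  have hwL : (fun κ : b => L (ι (u κ))) = w := by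
    funext κ
    exact (hwu κ).symm
  have hw : LinearIndependent (QA (PadicAlgCl p)) w := by
    have h1 := optP_indep hL (ι := b) (fun κ => ι (u κ)) (fun κ => ((hu κ).map ι).ne)
      (fun κ => ((hu κ).map ι).alg) (by rw [hwL]; exact hli)
    have h2 := h1.comp some (Option.some_injective b)
    rw [← hwL]
    exact h2
  have hwmem : ∀ κ, w κ ∈ LtE (logs L) := by
    intro κ
    rw [hwu]
    exact log_memP ((hu κ).map ι).ne ((hu κ).map ι).alg
  obtain ⟨S, hS⟩ := exists_supp (hyp_padic hL) w hw hwmem A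
  -- the field
  let F₁ : IntermediateField k Q := IntermediateField.adjoin k ((S.image u : Finset Q) : Set Q)
  haveI : FiniteDimensional k F₁ := by
    apply IntermediateField.finiteDimensional_adjoin
    intro x hx
    obtain ⟨κ, -, rfl⟩ := Finset.mem_image.mp (Finset.mem_coe.mp hx)
    exact (hu κ).int.tower_top
  let F₀ : IntermediateField k Q := IntermediateField.normalClosure k F₁ Q
  have hF1 : F₁ ≤ F₀ := IntermediateField.le_normalClosure F₁
  haveI hF0n : Normal k F₀ := inferInstance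
  haveI hF0f : FiniteDimensional k F₀ := inferInstance
  have huF : ∀ κ ∈ S, u κ ∈ F₀ := by
    intro κ hκ
    apply hF1
    apply IntermediateField.subset_adjoin
    exact Finset.mem_coe.mpr (Finset.mem_image_of_mem u hκ)
  refine ⟨F₀, hF0f, hF0n, ?_⟩
  intro K hK r ε hε hεK hind a haA ha0
  by_contra hne
  obtain ⟨i₀, hi₀⟩ : ∃ i, a i ≠ 0 := by
    by_contra hcon
    push Not at hcon
    exact hne (funext hcon)
  -- coordinates
  have hcoord : ∀ i, ∃ e : b →₀ ℚ, e.sum (fun κ c => (c : PadicAlgCl p) * w κ) = L (ι (ε i)) := by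
    intro i
    have h1 : L (ι (ε i)) ∈ Submodule.span ℚ b := by
      rw [hspan]
      exact Submodule.subset_span ⟨ε i, hε i, rfl⟩
    obtain ⟨e, he⟩ := (Finsupp.mem_span_iff_linearCombination ℚ b _).mp h1
    refine ⟨e, ?_⟩
    rw [← he, Finsupp.linearCombination_apply]
    apply Finsupp.sum_congr
    intro κ _
    rw [Rat.smul_def]
  choose e he using hcoord
  let T : Finset b := Finset.univ.biUnion (fun i => (e i).support)
  have hT : ∀ i, (e i).support ⊆ T := fun i =>
    Finset.subset_biUnion_of_mem (fun i => (e i).support) (Finset.mem_univ i)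
  have heT : ∀ i, ∑ κ ∈ T, (e i κ : PadicAlgCl p) * w κ = L (ι (ε i)) := by
    intro i
    rw [← he i, Finsupp.sum_of_support_subset _ (hT i) _ (by intro κ _; simp)]
  -- compatibility with automorphisms
  have hgal : ∀ (g : Q ≃ₐ[k] Q) i, ∑ κ ∈ T, (e i κ : PadicAlgCl p) * L (ι (g (u κ))) =
      L (ι (g (ε i))) := by
    intro g i
    have h1 := compat hL ι (J := Option b) (insertNone T)
      (fun o => (o.elim (ε i) u : Q)) (by
        intro o
        cases o with
        | none => exact hε i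
        | some κ => exact hu κ) (fun o => (o.elim (-1) (e i) : ℚ)) (by
        rw [Finset.sum_insertNone]
        simp only [Option.elim_none, Option.elim_some]
        rw [← heT i]
        simp only [← hwu]
        push_cast
        ring) (g : Q →+* Q)
    rw [Finset.sum_insertNone] at h1
    simp only [Option.elim_none, Option.elim_some] at h1
    push_cast at h1
    have h2 : ∀ z : Q, (g : Q →+* Q) z = g z := fun z => rfl
    simp only [h2] at h1
    linear_combination h1
  -- the relation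
  let F : b →₀ PadicAlgCl p := ∑ i, a i • (e i).mapRange (fun q : ℚ => (q : PadicAlgCl p)) (by simp)
  have hFκ : ∀ κ, F κ = ∑ i, a i * (e i κ : PadicAlgCl p) := by
    intro κ
    change (∑ i, a i • (e i).mapRange (fun q : ℚ => (q : PadicAlgCl p)) (by simp)) κ = _
    rw [Finsupp.finsetSum_apply]
    apply Finset.sum_congr rfl
    intro i _
    rw [Finsupp.smul_apply, Finsupp.mapRange_apply, smul_eq_mul]
  have hFT : F.support ⊆ T := by
    intro κ hκ
    by_contra hκT
    apply Finsupp.mem_support_iff.mp hκ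
    rw [hFκ]
    apply Finset.sum_eq_zero
    intro i _
    have h1 : e i κ = 0 := by
      by_contra h0
      exact hκT (hT i (Finsupp.mem_support_iff.mpr h0))
    rw [h1, Rat.cast_zero, mul_zero]
  have hFrel : F ∈ relSet w A := by
    constructor
    · intro κ
      rw [hFκ]
      apply A.sum_mem
      intro i _
      have h1 := A.smul_mem (algebraMap ℚ (QA (PadicAlgCl p)) (e i κ)) (haA i)
      rw [Algebra.smul_def] at h1
      rw [mul_comm]
      have h2 : (algebraMap (QA (PadicAlgCl p)) (PadicAlgCl p))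
          (algebraMap ℚ (QA (PadicAlgCl p)) (e i κ)) = (e i κ : PadicAlgCl p) := by
        rw [← IsScalarTower.algebraMap_apply]
        exact eq_ratCast _ _
      rw [h2] at h1
      exact h1
    · rw [Finsupp.sum_of_support_subset _ hFT _ (by intro κ _; ring), ← ha0]
      simp only [hFκ, Finset.sum_mul]
      rw [Finset.sum_comm]
      apply Finset.sum_congr rfl
      intro i _
      rw [← heT i, Finset.mul_sum]
      apply Finset.sum_congr rfl
      intro κ _
      ring
  -- a functional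
  obtain ⟨φ, hφ, -⟩ := exists_functional (⊥ : Submodule (QA (PadicAlgCl p)) (PadicAlgCl p)) (a i₀)
    (by rw [Submodule.mem_bot]; exact hi₀)
  let β : Fin r → PadicAlgCl p := fun i => ((φ (a i) : QA (PadicAlgCl p)) : PadicAlgCl p)
  let c : b → PadicAlgCl p := fun κ => ((φ (F κ) : QA (PadicAlgCl p)) : PadicAlgCl p)
  have hcβ : ∀ κ, c κ = ∑ i, β i * (e i κ : PadicAlgCl p) := by
    intro κ
    change ((φ (F κ) : QA (PadicAlgCl p)) : PadicAlgCl p) = _
    rw [hFκ, map_sum]
    push_cast
    apply Finset.sum_congr rfl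
    intro i _
    have h1 : a i * (e i κ : PadicAlgCl p) =
        (algebraMap ℚ (QA (PadicAlgCl p)) (e i κ)) • a i := by
      rw [Algebra.smul_def, mul_comm, ← IsScalarTower.algebraMap_apply]
      congr 1
    rw [h1, map_smul, smul_eq_mul, mul_comm]
    change ((φ (a i) * algebraMap ℚ (QA (PadicAlgCl p)) (e i κ) : QA (PadicAlgCl p)) :
      PadicAlgCl p) = _
    push_cast
    congr 1
  have hcS : ∀ κ, κ ∉ S → c κ = 0 := by
    intro κ hκ
    change ((φ (F κ) : QA (PadicAlgCl p)) : PadicAlgCl p) = 0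
    rw [hS F hFrel κ hκ, map_zero]
    rfl
  have hsum : ∀ g : Q ≃ₐ[k] Q, ∑ κ ∈ T, c κ * L (ι (g (u κ))) = ∑ i, β i * L (ι (g (ε i))) := by
    intro g
    simp only [hcβ, Finset.sum_mul]
    rw [Finset.sum_comm]
    apply Finset.sum_congr rfl
    intro i _
    rw [← hgal g i, Finset.mul_sum]
    apply Finset.sum_congr rfl
    intro κ _
    ring
  -- the common value
  choose g hgK hgF using lift_gal K F₀ hK
  have hlam : ∀ x, ∑ κ ∈ T, c κ * L (ι (g x (u κ))) = ∑ i, β i * L (ι (ε i)) := by
    intro x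
    rw [hsum (g x)]
    apply Finset.sum_congr rfl
    intro i _
    rw [hgK x _ (hεK i)]
  have hzero : ∑ x : F₀ ≃ₐ[k] F₀, ∑ κ ∈ T, c κ * L (ι (g x (u κ))) = 0 := by
    rw [Finset.sum_comm]
    apply Finset.sum_eq_zero
    intro κ _
    by_cases hκ : κ ∈ S
    · rw [← Finset.mul_sum]
      have h1 := log_norm_zero hL hk ι F₀ ⟨u κ, huF κ hκ⟩ (hu κ)
      have h2 : ∀ x : F₀ ≃ₐ[k] F₀, L (ι (g x (u κ))) =
          L (ι ((x ⟨u κ, huF κ hκ⟩ : F₀) : Q)) := by
        intro x
        rw [← hgF x ⟨u κ, huF κ hκ⟩]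
      simp only [h2]
      rw [h1, mul_zero]
    · apply Finset.sum_eq_zero
      intro x _
      rw [hcS κ hκ, zero_mul]
  simp only [hlam] at hzero
  rw [Finset.sum_const, Finset.card_univ, nsmul_eq_mul] at hzero
  have hcard : ((Fintype.card (F₀ ≃ₐ[k] F₀) : ℕ) : PadicAlgCl p) ≠ 0 := by
    exact_mod_cast Fintype.card_ne_zero
  have hlam0 : ∑ i, β i * L (ι (ε i)) = 0 := (mul_eq_zero.mp hzero).resolve_left hcard
  have hfinal := brumer hL (ι := Fin r) (fun i => ι (ε i)) (fun i => ((hε i).map ι).ne)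
    (fun i => ((hε i).map ι).alg) (indep_of_mult hL ι ε hε hind) 0 isAlgebraic_zero β
    (fun i => mem_QA.mp (φ (a i)).2) (by rw [zero_add, hlam0])
  apply hφ
  exact Subtype.ext (hfinal.2 i₀)

end gal

end Pool.Agent.W254.PA
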