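import Pool.Agent.W254.PA.LeoA

/-!
# Relations between logarithms of units with coefficients in a finite dimensional space:
arbitrary embeddings
-/

set_option autoImplicit false

namespace Pool.Agent.W254.PA

open Module Finset NormedSpace Pool.Agent.W254.Ab
open Pool.Agent.W245.PB (IsIwasawaLog brumer)

variable {p : ℕ} [hp : Fact p.Prime] {L : PadicAlgCl p → PadicAlgCl p} (hL : IsIwasawaLog p L)

section gal

variable {k Q : Type} [Field k] [CharZero k] [Field Q] [CharZero Q] [Algebra k Q] [IsGalois k Q]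
  [IsAlgClosed Q] {Ω : Type} [Field Ω] [CharZero Ω] [IsAlgClosed Ω]

/-- two embeddings of an algebraically closed algebraic extension differ by an automorphism -/
theorem exists_gal (hkk : ∀ f g : k →+* Ω, f = g) (ι ι' : Q →+* Ω) :
    ∃ g : Q ≃ₐ[k] Q, ∀ x, ι (g x) = ι' x := by
  have h1 : ∀ x : Q, ∃ y : Q, ι y = ι' x := by
    intro x
    have hint : IsIntegral k x := Algebra.IsIntegral.isIntegral x
    have h0 : minpoly k x ≠ 0 := minpoly.ne_zero hint
    have h2 : ((minpoly k x).map (algebraMap k Q)).Splits := IsAlgClosed.splits _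
    have h3 : (minpoly k x).map (algebraMap k Q) ≠ 0 :=
      (Polynomial.map_ne_zero_iff (algebraMap k Q).injective).mpr h0
    have h4 : (((minpoly k x).map (algebraMap k Q)).map ι).IsRoot (ι' x) := by
      rw [Polynomial.IsRoot.def, Polynomial.map_map, hkk (ι.comp (algebraMap k Q))
        (ι'.comp (algebraMap k Q)), ← Polynomial.map_map, Polynomial.eval_map,
        Polynomial.eval₂_at_apply, Polynomial.eval_map]
      have h5 : Polynomial.eval₂ (algebraMap k Q) x (minpoly k x) = 0 := minpoly.aeval k x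
      rw [h5, map_zero]
    exact h2.mem_range_of_isRoot h3 h4
  choose g hg using h1
  let G : Q →ₐ[k] Q :=
    { toFun := g
      map_one' := by apply ι.injective; rw [hg, map_one, map_one]
      map_mul' := by intro x y; apply ι.injective; rw [hg, map_mul, map_mul, hg, hg]
      map_zero' := by apply ι.injective; rw [hg, map_zero, map_zero]
      map_add' := by intro x y; apply ι.injective; rw [hg, map_add, map_add, hg, hg]
      commutes' := by
        intro r
        apply ι.injective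
        rw [hg]
        exact congrFun (congrArg (fun f : k →+* Ω => (f : k → Ω))
          (hkk (ι'.comp (algebraMap k Q)) (ι.comp (algebraMap k Q)))) r }
  refine ⟨AlgEquiv.ofBijective G (Algebra.IsAlgebraic.algHom_bijective G), fun x => hg x⟩

end gal

section gal2

variable {k Q : Type} [Field k] [CharZero k] [Field Q] [CharZero Q] [Algebra k Q] [IsGalois k Q]
  [IsAlgClosed Q]

include hL in
theorem exists_field' (hk : ∀ q : k, IsU q → q ^ 2 = 1)
    (hkk : ∀ f g : k →+* PadicAlgCl p, f = g) (ι₀ : Q →+* PadicAlgCl p)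
    (A : Submodule (QA (PadicAlgCl p)) (PadicAlgCl p)) [FiniteDimensional (QA (PadicAlgCl p)) A] :
    ∃ F₀ : IntermediateField k Q, FiniteDimensional k F₀ ∧ Normal k F₀ ∧
      ∀ K : IntermediateField k Q, K ⊓ F₀ = ⊥ → ∀ (σ : K →+* PadicAlgCl p) (r : ℕ)
        (ε : Fin r → K), (∀ i, IsU (ε i)) → (∀ m : Fin r → ℤ, ∏ i, ε i ^ m i = 1 → m = 0) →
        ∀ a : Fin r → PadicAlgCl p, (∃ y : PadicAlgCl p, ∀ i, ∃ x ∈ A, a i = y * x) →
          ∑ i, a i * L (σ (ε i)) = 0 → a = 0 := by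
  obtain ⟨F₀, hF, hN, h⟩ := exists_field hL hk ι₀ A
  haveI := hN
  refine ⟨F₀, hF, hN, ?_⟩
  intro K hK σ r ε hε hind a ha ha0
  -- extend the embedding
  letI : Algebra K (PadicAlgCl p) := σ.toAlgebra
  haveI : Algebra.IsAlgebraic K Q := Algebra.IsAlgebraic.tower_top (K := k) K
  let ι' : Q →ₐ[K] PadicAlgCl p := IsAlgClosed.lift
  have hι' : ∀ x : K, ι' (x : Q) = σ x := fun x => ι'.commutes x
  obtain ⟨g, hg⟩ := exists_gal (k := k) hkk ι₀ (ι' : Q →+* PadicAlgCl p)
  obtain ⟨y, hy⟩ := ha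
  choose x hxA hx using hy
  by_cases hy0 : y = 0
  · funext i
    simp [hx i, hy0]
  have hmain := h (K.map (g : Q →ₐ[k] Q)) ?_ r (fun i => g (ε i : Q)) ?_ ?_ ?_ x hxA ?_
  · funext i
    simp [hx i, hmain]
  · rw [eq_bot_iff]
    rintro z ⟨⟨w, hw, rfl⟩, hz⟩
    have h1 : w ∈ F₀ := by
      have h2 := AlgEquiv.restrictNormalHom_apply F₀ g.symm ⟨g w, hz⟩
      have h3 : g.symm (((⟨g w, hz⟩ : F₀) : Q)) = w := g.symm_apply_apply w
      rw [h3] at h2
      rw [← h2]
      exact (AlgEquiv.restrictNormalHom F₀ g.symm ⟨g w, hz⟩).2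
    have h2 : w ∈ K ⊓ F₀ := ⟨hw, h1⟩
    rw [hK, IntermediateField.mem_bot] at h2
    obtain ⟨q, rfl⟩ := h2
    rw [IntermediateField.mem_bot]
    exact ⟨q, (g.commutes q).symm⟩
  · intro i
    have h1 : IsU ((ε i : K) : Q) := (hε i).map (algebraMap K Q)
    exact h1.map (g : Q →+* Q)
  · intro i
    exact ⟨(ε i : Q), (ε i).2, rfl⟩
  · intro m hm
    apply hind m
    apply (algebraMap K Q).injective
    apply g.injective
    rw [map_prod, map_prod, map_one, map_one, ← hm]
    apply Finset.prod_congr rfl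
    intro i _
    rw [map_zpow₀, map_zpow₀]
    rfl
  · have h1 : ∀ i, ι₀ (g (ε i : Q)) = σ (ε i) := by
      intro i
      rw [hg]
      exact hι' (ε i)
    simp only [h1]
    have h2 : y * ∑ i, x i * L (σ (ε i)) = 0 := by
      rw [← ha0, Finset.mul_sum]
      apply Finset.sum_congr rfl
      intro i _
      rw [hx i]
      ring
    exact (mul_eq_zero.mp h2).resolve_left hy0

end gal2

/-- the field of algebraic numbers -/
abbrev Qb : Type := AlgebraicClosure ℚ

theorem isGalois_Qb : IsGalois ℚ Qb := by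
  have h : @IsGalois ℚ _ (AlgebraicClosure ℚ) _ (AlgebraicClosure.instAlgebra ℚ) := inferInstance
  have h2 : (DivisionRing.toRatAlgebra : Algebra ℚ (AlgebraicClosure ℚ)) =
      AlgebraicClosure.instAlgebra ℚ := Subsingleton.elim _ _
  rw [h2]
  exact h

open NumberField in
include hL in
theorem exists_field_rat
    (A : Submodule (QA (PadicAlgCl p)) (PadicAlgCl p)) [FiniteDimensional (QA (PadicAlgCl p)) A] :
    ∃ F₀ : IntermediateField ℚ (AlgebraicClosure ℚ), FiniteDimensional ℚ F₀ ∧ Normal ℚ F₀ ∧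
      ∀ K : IntermediateField ℚ (AlgebraicClosure ℚ), K ⊓ F₀ = ⊥ →
        ∀ (σ : K →+* PadicAlgCl p) (r : ℕ) (ε : Fin r → (𝓞 K)ˣ),
        (∀ m : Fin r → ℤ, ∏ i, ε i ^ m i = 1 → m = 0) →
        ∀ a : Fin r → PadicAlgCl p, (∃ y : PadicAlgCl p, ∀ i, ∃ x ∈ A, a i = y * x) →
          ∑ i, a i * L (σ ((ε i : 𝓞 K) : K)) = 0 → a = 0 := by
  haveI := isGalois_Qb
  have hι : Nonempty (AlgebraicClosure ℚ →+* PadicAlgCl p) := by
    haveI : Algebra.IsAlgebraic ℚ (AlgebraicClosure ℚ) := isGalois_Qb.to_normal.toIsAlgebraic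
    exact ⟨((IsAlgClosed.lift : AlgebraicClosure ℚ →ₐ[ℚ] PadicAlgCl p) :
      AlgebraicClosure ℚ →+* PadicAlgCl p)⟩
  obtain ⟨ι₀⟩ := hι
  obtain ⟨F₀, h1, h2, h3⟩ := exists_field' hL (k := ℚ) (Q := AlgebraicClosure ℚ)
    (fun q hq => sq_eq_one_of_isU hq) (fun f g => RingHom.ext_rat f g) ι₀ A
  refine ⟨F₀, ?_, ?_, ?_⟩
  · convert h1
  · convert h2
    exact Subsingleton.elim _ _
  · intro K hK σ r ε hind a ha ha0
    refine h3 K hK σ r (fun i => ((ε i : 𝓞 K) : K)) ?_ ?_ a ha ha0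
    · intro i
      refine ⟨?_, ?_, ?_⟩
      · intro h
        have h4 : (ε i : 𝓞 K) = 0 := by
          apply NumberField.RingOfIntegers.ext
          rw [h]; rfl
        exact (ε i).ne_zero h4
      · exact (ε i : 𝓞 K).isIntegral_coe
      · have h4 : (((ε i : 𝓞 K) : K))⁻¹ = (((ε i)⁻¹ : (𝓞 K)ˣ) : 𝓞 K) := by
          apply inv_eq_of_mul_eq_one_right
          have h5 : ((ε i : 𝓞 K)) * (((ε i)⁻¹ : (𝓞 K)ˣ) : 𝓞 K) = 1 := Units.mul_inv _
          have h6 := congrArg (fun z : 𝓞 K => (z : K)) h5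
          simpa using h6
        rw [h4]
        exact ((((ε i)⁻¹ : (𝓞 K)ˣ) : 𝓞 K)).isIntegral_coe
    · intro m hm
      apply hind m
      apply Units.ext
      apply NumberField.RingOfIntegers.ext
      have h4 : ((((∏ i, ε i ^ m i : (𝓞 K)ˣ)) : 𝓞 K) : K) = ∏ i, (((ε i : 𝓞 K) : K)) ^ m i := by
        have h5 : ∀ u : (𝓞 K)ˣ, ((u : 𝓞 K) : K) = Units.map (algebraMap (𝓞 K) K : 𝓞 K →* K) u :=
          fun u => rfl
        rw [h5, map_prod, Units.coe_prod]
        apply Finset.prod_congr rfl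
        intro i _
        rw [map_zpow, Units.val_zpow_eq_zpow_val]
        rfl
      rw [h4, hm]
      rfl

end Pool.Agent.W254.PA
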