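import Pool.Agent.W254.PA.App

/-!
# Units and the `p`-adic logarithm
-/

set_option autoImplicit false

namespace Pool.Agent.W254.PA

open Module Finset NormedSpace Pool.Agent.W254.Ab
open Pool.Agent.W245.PB (IsIwasawaLog brumer)

variable {p : ℕ} [hp : Fact p.Prime] {L : PadicAlgCl p → PadicAlgCl p} (hL : IsIwasawaLog p L)

/-- units of the ring of algebraic integers of a field -/
structure IsU {R : Type*} [Field R] (u : R) : Prop where
  ne : u ≠ 0
  int : IsIntegral ℤ u
  inv : IsIntegral ℤ u⁻¹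

section basic

variable {R S : Type*} [Field R] [Field S]

theorem IsU.one : IsU (1 : R) := ⟨one_ne_zero, isIntegral_one, by rw [inv_one]; exact isIntegral_one⟩

theorem IsU.mul {u v : R} (hu : IsU u) (hv : IsU v) : IsU (u * v) :=
  ⟨mul_ne_zero hu.ne hv.ne, hu.int.mul hv.int, by rw [mul_inv]; exact hu.inv.mul hv.inv⟩

theorem IsU.inv' {u : R} (hu : IsU u) : IsU u⁻¹ :=
  ⟨inv_ne_zero hu.ne, hu.inv, by rw [inv_inv]; exact hu.int⟩

theorem IsU.pow {u : R} (hu : IsU u) (n : ℕ) : IsU (u ^ n) :=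
  ⟨pow_ne_zero _ hu.ne, hu.int.pow n, by rw [← inv_pow]; exact hu.inv.pow n⟩

theorem IsU.zpow {u : R} (hu : IsU u) (n : ℤ) : IsU (u ^ n) := by
  obtain ⟨m, rfl | rfl⟩ := n.eq_nat_or_neg
  · rw [zpow_natCast]; exact hu.pow m
  · rw [zpow_neg, zpow_natCast]; exact (hu.pow m).inv'

theorem IsU.prod {ι : Type*} (s : Finset ι) (u : ι → R) (hu : ∀ i ∈ s, IsU (u i)) :
    IsU (∏ i ∈ s, u i) := by
  classical
  induction s using Finset.induction_on with
  | empty => rw [Finset.prod_empty]; exact IsU.one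
  | insert a s ha ih =>
    rw [Finset.prod_insert ha]
    exact (hu a (mem_insert_self a s)).mul (ih (fun i hi => hu i (mem_insert_of_mem hi)))

theorem IsU.map (f : R →+* S) {u : R} (hu : IsU u) : IsU (f u) :=
  ⟨(map_ne_zero f).mpr hu.ne, hu.int.map f.toIntAlgHom, by
    rw [← map_inv₀]; exact hu.inv.map f.toIntAlgHom⟩

theorem IsU.alg [CharZero R] {u : R} (hu : IsU u) : IsAlgebraic ℚ u := by
  have h1 : IsIntegral ℚ u := hu.int.tower_top
  exact h1.isAlgebraic

end basic

theorem norm_eq_one_of_isU {u : PadicAlgCl p} (hu : IsU u) : ‖u‖ = 1 := by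
  have h1 : ‖u‖ ≤ 1 := by
    rw [← norm_ic]
    exact norm_le_one_of_isIntegral p (hu.map (ic p)).int
  have h2 : ‖u⁻¹‖ ≤ 1 := by
    rw [← norm_ic, map_inv₀]
    exact norm_le_one_of_isIntegral p (hu.map (ic p)).inv
  rw [norm_inv] at h2
  have h3 : 0 < ‖u‖ := norm_pos_iff.mpr hu.ne
  have h4 : 1 ≤ ‖u‖ := by
    have := inv_le_one_iff₀.mp h2
    rcases this with h | h
    · linarith
    · exact h
  exact le_antisymm h1 h4

include hL in
/-- the kernel of the logarithm on units -/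
theorem exists_pow_eq_one {u : PadicAlgCl p} (hu : IsU u) (h0 : L u = 0) :
    ∃ M : ℕ, 1 ≤ M ∧ u ^ M = 1 := by
  obtain ⟨δ, hδ, h⟩ := exp_log_near p (ic p) norm_ic L hL.mul 2 (1 / 2) (by norm_num) (by
    intro z hz
    exact log_series_le p hz.le (hL.ser z (by linarith)))
  obtain ⟨M, hM, hM2⟩ := exists_pow_near p u (norm_eq_one_of_isU hu) δ hδ
  refine ⟨M, hM, ?_⟩
  obtain ⟨-, h2⟩ := h (u ^ M - 1) hM2
  have h3 : 1 + (u ^ M - 1) = u ^ M := by ring
  rw [h3, hL.pow hu.ne, h0, mul_zero, map_zero, exp_zero] at h2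
  have h4 : ic p (u ^ M - 1) = 0 := left_eq_add.mp h2
  have h5 := (map_eq_zero (ic p)).mp h4
  exact sub_eq_zero.mp h5

include hL in
theorem log_root {u : PadicAlgCl p} {M : ℕ} (hM : 1 ≤ M) (hu : u ^ M = 1) : L u = 0 := by
  have hu0 : u ≠ 0 := by
    rintro rfl
    rw [zero_pow (by omega)] at hu
    exact zero_ne_one hu
  have h1 := hL.pow hu0 M
  rw [hu, hL.one] at h1
  have h2 : (M : PadicAlgCl p) ≠ 0 := by
    have : M ≠ 0 := by omega
    exact_mod_cast this
  exact (mul_eq_zero.mp h1.symm).resolve_left h2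

include hL in
theorem log_prod_zpow {J : Type*} (s : Finset J) (u : J → PadicAlgCl p) (hu : ∀ j, IsU (u j))
    (m : J → ℤ) : L (∏ j ∈ s, u j ^ m j) = ∑ j ∈ s, (m j : PadicAlgCl p) * L (u j) := by
  rw [hL.prod s _ (fun j _ => zpow_ne_zero _ (hu j).ne)]
  apply Finset.sum_congr rfl
  intro j _
  exact hL.zpow (hu j).ne _

/-- common denominators -/
theorem exists_den {J : Type*} (s : Finset J) (z : J → ℚ) :
    ∃ (M : ℕ) (m : J → ℤ), 1 ≤ M ∧ ∀ j ∈ s, (m j : ℚ) = M * z j := by
  classical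
  refine ⟨∏ j ∈ s, (z j).den, fun j => (∏ i ∈ s.erase j, ((z i).den : ℤ)) * (z j).num, ?_, ?_⟩
  · exact Nat.succ_le_of_lt (Finset.prod_pos (fun j _ => (z j).den_pos))
  · intro j hj
    rw [← Finset.prod_erase_mul _ _ hj]
    push_cast
    have h1 := Rat.mul_den_eq_num (z j)
    rw [← h1]
    ring

section compat

variable {Q : Type*} [Field Q] [CharZero Q] (ι : Q →+* PadicAlgCl p)

include hL in
/-- rational relations between logarithms of units are preserved by automorphisms -/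
theorem compat {J : Type*} (s : Finset J) (u : J → Q) (hu : ∀ j, IsU (u j)) (z : J → ℚ)
    (h : ∑ j ∈ s, (z j : PadicAlgCl p) * L (ι (u j)) = 0) (g : Q →+* Q) :
    ∑ j ∈ s, (z j : PadicAlgCl p) * L (ι (g (u j))) = 0 := by
  obtain ⟨M, m, hM, hm⟩ := exists_den s z
  have hm' : ∀ j ∈ s, (m j : PadicAlgCl p) = M * (z j : PadicAlgCl p) := by
    intro j hj
    have := congrArg (fun q : ℚ => (q : PadicAlgCl p)) (hm j hj)
    push_cast at this
    exact this
  set w : Q := ∏ j ∈ s, u j ^ m j with hw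
  have hwU : IsU w := IsU.prod s _ (fun j _ => (hu j).zpow _)
  have h1 : ∀ f : Q →+* PadicAlgCl p, L (f w) = M * ∑ j ∈ s, (z j : PadicAlgCl p) * L (f (u j)) := by
    intro f
    rw [hw, map_prod]
    simp only [map_zpow₀]
    rw [log_prod_zpow hL s (fun j => f (u j)) (fun j => (hu j).map f) m, Finset.mul_sum]
    apply Finset.sum_congr rfl
    intro j hj
    rw [hm' j hj]
    ring
  have h2 : L (ι w) = 0 := by rw [h1 ι, h, mul_zero]
  obtain ⟨k, hk, hk1⟩ := exists_pow_eq_one hL (hwU.map ι) h2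
  have h3 : w ^ k = 1 := by
    apply ι.injective
    rw [map_pow, map_one, hk1]
  have h4 : L (ι (g w)) = 0 := by
    apply log_root hL hk
    rw [← map_pow, ← map_pow, h3, map_one, map_one]
  have h5 := h1 (ι.comp g)
  have h6 : (ι.comp g) w = ι (g w) := rfl
  rw [h6, h4] at h5
  have hM0 : (M : PadicAlgCl p) ≠ 0 := by
    have : M ≠ 0 := by omega
    exact_mod_cast this
  exact (mul_eq_zero.mp h5.symm).resolve_left hM0

include hL in
/-- multiplicatively independent units have independent logarithms -/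
theorem indep_of_mult {J : Type*} [Fintype J] (u : J → Q) (hu : ∀ j, IsU (u j))
    (hind : ∀ m : J → ℤ, ∏ j, u j ^ m j = 1 → m = 0) :
    LinearIndependent ℚ (fun j => L (ι (u j))) := by
  rw [Fintype.linearIndependent_iff]
  intro z hz
  obtain ⟨M, m, hM, hm⟩ := exists_den Finset.univ z
  have hm' : ∀ j, (m j : PadicAlgCl p) = M * (z j : PadicAlgCl p) := by
    intro j
    have := congrArg (fun q : ℚ => (q : PadicAlgCl p)) (hm j (Finset.mem_univ j))
    push_cast at this
    exact this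
  have h1 : L (ι (∏ j, u j ^ m j)) = 0 := by
    rw [map_prod]
    simp only [map_zpow₀]
    rw [log_prod_zpow hL Finset.univ (fun j => ι (u j)) (fun j => (hu j).map ι) m]
    have h2 : ∀ j, (m j : PadicAlgCl p) * L (ι (u j)) = M * (z j • L (ι (u j))) := by
      intro j
      rw [hm' j, Rat.smul_def, mul_assoc]
    simp only [h2]
    rw [← Finset.mul_sum, hz, mul_zero]
  obtain ⟨k, hk, hk1⟩ := exists_pow_eq_one hL
    ((IsU.prod Finset.univ _ (fun j _ => (hu j).zpow (m j))).map ι) h1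
  have h3 : (∏ j, u j ^ m j) ^ k = 1 := by
    apply ι.injective
    rw [map_pow, map_one, hk1]
  have h4 : ∏ j, u j ^ ((k : ℤ) * m j) = 1 := by
    rw [← h3, ← Finset.prod_pow]
    apply Finset.prod_congr rfl
    intro j _
    rw [mul_comm, zpow_mul, zpow_natCast]
  have h5 := hind _ h4
  intro j
  have h6 : (k : ℤ) * m j = 0 := congrFun h5 j
  have h7 : m j = 0 := by
    rcases mul_eq_zero.mp h6 with h | h
    · omega
    · exact h
  have h8 := hm j (Finset.mem_univ j)
  rw [h7, Int.cast_zero] at h8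
  rcases mul_eq_zero.mp h8.symm with h | h
  · have : M ≠ 0 := by omega
    exact absurd (by exact_mod_cast h) this
  · exact h

end compat

/-- rational units are `1` or `-1` -/
theorem sq_eq_one_of_isU {q : ℚ} (hq : IsU q) : q ^ 2 = 1 := by
  obtain ⟨a, ha⟩ := (IsIntegrallyClosed.isIntegral_iff (R := ℤ)).mp hq.int
  obtain ⟨b, hb⟩ := (IsIntegrallyClosed.isIntegral_iff (R := ℤ)).mp hq.inv
  have h1 : (a : ℚ) * b = 1 := by
    have h2 : (a : ℚ) = q := ha
    have h3 : (b : ℚ) = q⁻¹ := hb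
    rw [h2, h3, mul_inv_cancel₀ hq.ne]
  have h2 : a * b = 1 := by exact_mod_cast h1
  have h3 : a = 1 ∨ a = -1 := Int.eq_one_or_neg_one_of_mul_eq_one h2
  have h4 : (a : ℚ) = q := ha
  rw [← h4]
  rcases h3 with h | h <;> rw [h] <;> norm_num

end Pool.Agent.W254.PA
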