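import Pool.Agent.W254.PA.LeoA2

/-!
# Common eigenvectors, Dirichlet's theorem, transport of representations
-/

set_option autoImplicit false

namespace Pool.Agent.W254.PA

open Module Finset

/-- commuting operators on a nonzero space have a common eigenvector -/
theorem common_eigen {k V I : Type*} [Field k] [IsAlgClosed k] [AddCommGroup V] [Module k V]
    (T : I → V →ₗ[k] V) : ∀ (n : ℕ) (W : Submodule k V), FiniteDimensional k W →
      finrank k W = n → W ≠ ⊥ → (∀ i, ∀ w ∈ W, T i w ∈ W) →
      (∀ i j, ∀ w ∈ W, T i (T j w) = T j (T i w)) → ∃ v ∈ W, v ≠ 0 ∧ ∀ i, ∃ c : k, T i v = c • v := by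
  intro n
  induction n using Nat.strong_induction_on with
  | _ n ih =>
    intro W hfin hn hW hst hcomm
    by_cases h : ∀ i, ∃ c : k, ∀ w ∈ W, T i w = c • w
    · obtain ⟨v, hv, hv0⟩ := (Submodule.ne_bot_iff W).mp hW
      exact ⟨v, hv, hv0, fun i => (h i).imp (fun c hc => hc v hv)⟩
    · push Not at h
      obtain ⟨i, hi⟩ := h
      haveI : Nontrivial W := (Submodule.nontrivial_iff_ne_bot).mpr hW
      obtain ⟨μ, hμ⟩ := Module.End.exists_eigenvalue ((T i).restrict (hst i))
      obtain ⟨v, hv⟩ := hμ.exists_hasEigenvector
      let W' : Submodule k V := W ⊓ LinearMap.ker (T i - μ • LinearMap.id)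
      have hmem : ∀ w, w ∈ W' ↔ w ∈ W ∧ T i w = μ • w := by
        intro w
        rw [Submodule.mem_inf, LinearMap.mem_ker, LinearMap.sub_apply, LinearMap.smul_apply,
          LinearMap.id_apply, sub_eq_zero]
      have hlt : W' < W := by
        refine lt_of_le_of_ne inf_le_left ?_
        intro heq
        obtain ⟨w, hw, hw2⟩ := hi μ
        apply hw2
        rw [← heq] at hw
        exact ((hmem w).mp hw).2
      have hne : W' ≠ ⊥ := by
        rw [Submodule.ne_bot_iff]
        refine ⟨(v : V), (hmem _).mpr ⟨v.2, ?_⟩, ?_⟩
        · have h1 := hv.apply_eq_smul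
          exact congrArg (fun z : W => (z : V)) h1
        · intro h0
          exact hv.2 (Subtype.ext h0)
      haveI : FiniteDimensional k W' := Submodule.finiteDimensional_of_le hlt.le
      obtain ⟨v', hv', hv0, hv1⟩ := ih (finrank k W') (by
        rw [← hn]; exact Submodule.finrank_lt_finrank_of_lt hlt) W' inferInstance rfl hne (by
          intro j w hw
          obtain ⟨h1, h2⟩ := (hmem w).mp hw
          exact (hmem _).mpr ⟨hst j w h1, by rw [hcomm i j w h1, h2, map_smul]⟩) (by
          intro j l w hw
          exact hcomm j l w ((hmem w).mp hw).1)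
      exact ⟨v', ((hmem v').mp hv').1, hv0, hv1⟩

section dirichlet

open NumberField NumberField.Units

variable (F : Type*) [Field F] [NumberField F]

theorem dirichlet_real (c : Fin (rank F) → ℝ)
    (h : ∀ w : InfinitePlace F, ∑ k, c k * Real.log (w (fundSystem F k : F)) = 0) : c = 0 := by
  have h1 := Fintype.linearIndependent_iff.mp (isMaxRank_fundSystem (K := F)) c (by
    funext w
    rw [Finset.sum_apply, Pi.zero_apply]
    have h2 := h w.1
    have h3 : ∀ k, (c k • logEmbedding F (Additive.ofMul (fundSystem F k))) w =
        (w.1.mult : ℝ) * (c k * Real.log (w.1 (fundSystem F k : F))) := by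
      intro k
      rw [Pi.smul_apply, dirichletUnitTheorem.logEmbedding_component, smul_eq_mul]
      ring
    simp only [h3]
    rw [← Finset.mul_sum, h2, mul_zero])
  exact funext h1

theorem dirichlet_complex (c : Fin (rank F) → ℂ)
    (h : ∀ w : InfinitePlace F, ∑ k, c k * (Real.log (w (fundSystem F k : F)) : ℂ) = 0) : c = 0 := by
  have h1 := dirichlet_real F (fun k => (c k).re) (by
    intro w
    have := congrArg Complex.re (h w)
    rw [Complex.re_sum, Complex.zero_re] at this
    rw [← this]
    apply Finset.sum_congr rfl
    intro k _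
    rw [Complex.re_mul_ofReal])
  have h2 := dirichlet_real F (fun k => (c k).im) (by
    intro w
    have := congrArg Complex.im (h w)
    rw [Complex.im_sum, Complex.zero_im] at this
    rw [← this]
    apply Finset.sum_congr rfl
    intro k _
    rw [Complex.im_mul_ofReal])
  funext k
  exact Complex.ext (congrFun h1 k) (congrFun h2 k)

/-- Galois version: one embedding, all automorphisms -/
theorem dirichlet_gal [IsGalois ℚ F] (τ : F →+* ℂ) (c : Fin (rank F) → ℂ)
    (h : ∀ g : F ≃ₐ[ℚ] F, ∑ k, c k * (Real.log ‖τ (g (fundSystem F k : F))‖ : ℂ) = 0) : c = 0 := by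
  apply dirichlet_complex F
  intro w
  obtain ⟨g, hg⟩ := NumberField.ComplexEmbedding.exists_comp_symm_eq_of_comp_eq (k := ℚ) τ w.embedding
    (RingHom.ext_rat _ _)
  rw [← h g.symm]
  apply Finset.sum_congr rfl
  intro k _
  congr 3
  rw [← InfinitePlace.norm_embedding_eq, ← hg]
  rfl

end dirichlet

section transport

/-- transport of a representation along an isomorphism of fields -/
theorem rep_comm {k K G W : Type} [Field k] [Field K] [Group G] (θ : k ≃+* K) [AddCommGroup W]
    [Module k W] [FiniteDimensional k W] (N : ℕ)
    (hG : ∀ (W : Type) [AddCommGroup W] [Module K W] [FiniteDimensional K W]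
      (ρ : Representation K G W), finrank K W ≤ N → ∀ g h, ρ (g * h) = ρ (h * g))
    (ρ : Representation k G W) (hW : finrank k W ≤ N) (g h : G) : ρ (g * h) = ρ (h * g) := by
  letI : Module K W := Module.compHom W (θ.symm : K →+* k)
  have hsm : ∀ (c : K) (w : W), c • w = θ.symm c • w := fun c w => rfl
  have hr : Module.rank k W = Module.rank K W :=
    rank_eq_of_equiv_equiv θ (AddEquiv.refl W) θ.bijective (by
      intro r m
      change r • m = θ.symm (θ r) • m
      rw [θ.symm_apply_apply])
  haveI : FiniteDimensional K W := by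
    apply Module.rank_lt_aleph0_iff.mp
    rw [← hr]
    exact Module.rank_lt_aleph0_iff.mpr inferInstance
  have hf : finrank K W ≤ N := by
    have : finrank K W = finrank k W := by
      unfold Module.finrank
      rw [hr]
    rw [this]; exact hW
  let ρ' : Representation K G W :=
    { toFun := fun g =>
        { toFun := fun w => ρ g w
          map_add' := fun a b => map_add (ρ g) a b
          map_smul' := fun c a => by
            change ρ g (θ.symm c • a) = θ.symm c • ρ g a
            rw [map_smul] }
      map_one' := by
        ext w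
        change ρ 1 w = w
        rw [map_one]; rfl
      map_mul' := by
        intro a b
        ext w
        change ρ (a * b) w = ρ a (ρ b w)
        rw [map_mul]; rfl }
  have h1 := hG W ρ' hf g h
  ext w
  exact congrArg (fun f : W →ₗ[K] W => f w) h1

end transport

/-- the algebraic closure of `ℚ_p` is isomorphic to the field of complex numbers -/
theorem exists_theta' (p : ℕ) [hp : Fact p.Prime] : Nonempty (PadicAlgCl p ≃+* ℂ) := by
  have h1 : Cardinal.continuum ≤ Cardinal.mk (PadicAlgCl p) :=
    (continuum_le_cardinal_of_nontriviallyNormedField ℚ_[p]).trans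
      (Cardinal.mk_le_of_injective (algebraMap ℚ_[p] (PadicAlgCl p)).injective)
  have h2 : Cardinal.mk (PadicAlgCl p) = Cardinal.continuum := le_antisymm (mk_algCl_le p) h1
  apply IsAlgClosed.ringEquiv_of_equiv_of_charZero
  · rw [h2]; exact Cardinal.aleph0_lt_continuum
  · rw [← Cardinal.eq, h2, Cardinal.mk_complex]

end Pool.Agent.W254.PA
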