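import Pool.Agent.W254.PA.LeoC

/-!
# Relations between logarithms of units of a Galois extension and representations
-/

set_option autoImplicit false

namespace Pool.Agent.W254.PA

open Module Finset NumberField NumberField.Units Pool.Agent.W254.Ab
open Pool.Agent.W245.PB (IsIwasawaLog brumer)

section units

variable {F : Type} [Field F] [NumberField F]

/-- the action of an automorphism on units -/
noncomputable def gU (g : F ≃ₐ[ℚ] F) : (𝓞 F)ˣ →* (𝓞 F)ˣ :=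
  Units.map (RingOfIntegers.mapRingHom (g : F →+* F) : 𝓞 F →* 𝓞 F)

theorem gU_coe (g : F ≃ₐ[ℚ] F) (x : (𝓞 F)ˣ) : ((gU g x : 𝓞 F) : F) = g ((x : 𝓞 F) : F) := rfl

/-- exponents with respect to the fundamental system -/
noncomputable def ev (x : (𝓞 F)ˣ) : Fin (rank F) → ℤ := (exist_unique_eq_mul_prod F x).choose.2

theorem exists_zeta (x : (𝓞 F)ˣ) : ∃ ζ ∈ torsion F, x = ζ * ∏ k, fundSystem F k ^ ev x k :=
  ⟨(exist_unique_eq_mul_prod F x).choose.1, (exist_unique_eq_mul_prod F x).choose.1.2,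
    (exist_unique_eq_mul_prod F x).choose_spec.1⟩

theorem ev_unique {x ζ : (𝓞 F)ˣ} (hζ : ζ ∈ torsion F) {m : Fin (rank F) → ℤ}
    (h : x = ζ * ∏ k, fundSystem F k ^ m k) : ev x = m := by
  have h1 := (exist_unique_eq_mul_prod F x).choose_spec.2 ⟨⟨ζ, hζ⟩, m⟩ h
  exact (congrArg Prod.snd h1).symm

theorem ev_mul (x y : (𝓞 F)ˣ) : ev (x * y) = ev x + ev y := by
  obtain ⟨ζ, hζ, hx⟩ := exists_zeta x
  obtain ⟨ξ, hξ, hy⟩ := exists_zeta y
  apply ev_unique (ζ := ζ * ξ) (mul_mem hζ hξ)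
  conv_lhs => rw [hx, hy]
  simp only [Pi.add_apply, zpow_add, Finset.prod_mul_distrib]
  exact mul_mul_mul_comm _ _ _ _

theorem ev_torsion {ζ : (𝓞 F)ˣ} (hζ : ζ ∈ torsion F) : ev ζ = 0 := by
  apply ev_unique hζ
  simp

theorem ev_one : ev (1 : (𝓞 F)ˣ) = 0 := ev_torsion (one_mem _)

theorem ev_fund (k : Fin (rank F)) : ev (fundSystem F k) = Pi.single k 1 := by
  classical
  apply ev_unique (ζ := 1) (one_mem _)
  rw [one_mul, Finset.prod_eq_single k]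
  · rw [Pi.single_eq_same, zpow_one]
  · intro l _ hl
    rw [Pi.single_eq_of_ne hl, zpow_zero]
  · intro h; exact absurd (Finset.mem_univ _) h

/-- `ev` as a homomorphism -/
noncomputable def evH : (𝓞 F)ˣ →* Multiplicative (Fin (rank F) → ℤ) where
  toFun x := Multiplicative.ofAdd (ev x)
  map_one' := by rw [ev_one]; rfl
  map_mul' x y := by rw [ev_mul]; rfl

theorem ev_prod_zpow {J : Type*} (s : Finset J) (x : J → (𝓞 F)ˣ) (m : J → ℤ) :
    ev (∏ j ∈ s, x j ^ m j) = ∑ j ∈ s, m j • ev (x j) := by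
  have h1 : evH (∏ j ∈ s, x j ^ m j) = ∏ j ∈ s, evH (x j) ^ m j := by
    rw [map_prod]
    simp only [map_zpow]
  have h2 := congrArg Multiplicative.toAdd h1
  rw [toAdd_prod] at h2
  refine h2.trans ?_
  apply Finset.sum_congr rfl
  intro j _
  rw [toAdd_zpow]
  rfl

theorem isU_unit (x : (𝓞 F)ˣ) : IsU ((x : 𝓞 F) : F) := by
  refine ⟨?_, ?_, ?_⟩
  · intro h
    have h4 : (x : 𝓞 F) = 0 := by
      apply NumberField.RingOfIntegers.ext
      rw [h]; rfl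
    exact x.ne_zero h4
  · exact (x : 𝓞 F).isIntegral_coe
  · have h4 : (((x : 𝓞 F) : F))⁻¹ = (((x)⁻¹ : (𝓞 F)ˣ) : 𝓞 F) := by
      apply inv_eq_of_mul_eq_one_right
      have h5 : ((x : 𝓞 F)) * (((x)⁻¹ : (𝓞 F)ˣ) : 𝓞 F) = 1 := Units.mul_inv _
      have h6 := congrArg (fun z : 𝓞 F => (z : F)) h5
      simpa using h6
    rw [h4]
    exact ((((x)⁻¹ : (𝓞 F)ˣ) : 𝓞 F)).isIntegral_coe

theorem coe_prod_zpow {J : Type*} (s : Finset J) (x : J → (𝓞 F)ˣ) (m : J → ℤ) :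
    ((((∏ j ∈ s, x j ^ m j : (𝓞 F)ˣ)) : 𝓞 F) : F) = ∏ j ∈ s, (((x j : 𝓞 F) : F)) ^ m j := by
  have h5 : ∀ u : (𝓞 F)ˣ, ((u : 𝓞 F) : F) = Units.map (algebraMap (𝓞 F) F : 𝓞 F →* F) u :=
    fun u => rfl
  rw [h5, map_prod, Units.coe_prod]
  apply Finset.prod_congr rfl
  intro i _
  rw [map_zpow, Units.val_zpow_eq_zpow_val]
  rfl

theorem torsion_pow {ζ : (𝓞 F)ˣ} (hζ : ζ ∈ torsion F) :
    ∃ n : ℕ, 1 ≤ n ∧ ((ζ : 𝓞 F) : F) ^ n = 1 := by
  rw [torsion, CommGroup.mem_torsion, isOfFinOrder_iff_pow_eq_one] at hζ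
  obtain ⟨n, hn, h⟩ := hζ
  refine ⟨n, hn, ?_⟩
  have h1 := congrArg (fun u : (𝓞 F)ˣ => ((u : 𝓞 F) : F)) h
  simpa using h1

theorem gU_torsion (g : F ≃ₐ[ℚ] F) {ζ : (𝓞 F)ˣ} (hζ : ζ ∈ torsion F) : gU g ζ ∈ torsion F := by
  rw [torsion, CommGroup.mem_torsion] at hζ ⊢
  exact (gU g).isOfFinOrder hζ

theorem ev_gal (g : F ≃ₐ[ℚ] F) (x : (𝓞 F)ˣ) :
    ev (gU g x) = ∑ k, ev x k • ev (gU g (fundSystem F k)) := by
  obtain ⟨ζ, hζ, hx⟩ := exists_zeta x
  conv_lhs => rw [hx]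
  rw [map_mul, ev_mul, ev_torsion (gU_torsion g hζ), zero_add, map_prod]
  simp only [map_zpow]
  rw [ev_prod_zpow]

/-- the matrix of an automorphism -/
noncomputable def Cm (g : F ≃ₐ[ℚ] F) : Matrix (Fin (rank F)) (Fin (rank F)) ℤ :=
  Matrix.of fun k l => ev (gU g (fundSystem F k)) l

theorem Cm_mul (g h : F ≃ₐ[ℚ] F) : Cm (g * h) = Cm h * Cm g := by
  ext k l
  rw [Matrix.mul_apply]
  have h1 : gU (g * h) (fundSystem F k) = gU g (gU h (fundSystem F k)) := by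
    apply Units.ext
    apply NumberField.RingOfIntegers.ext
    rfl
  change ev (gU (g * h) (fundSystem F k)) l = _
  rw [h1, ev_gal, Finset.sum_apply]
  rfl

theorem Cm_one : Cm (1 : F ≃ₐ[ℚ] F) = 1 := by
  ext k l
  have h1 : gU (1 : F ≃ₐ[ℚ] F) (fundSystem F k) = fundSystem F k := by
    apply Units.ext
    apply NumberField.RingOfIntegers.ext
    rfl
  change ev (gU (1 : F ≃ₐ[ℚ] F) (fundSystem F k)) l = _
  rw [h1, Matrix.one_apply, ev_fund, Pi.single_apply]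
  simp only [eq_comm]

theorem log_unit_real (τ : F →+* ℂ) (x : (𝓞 F)ˣ) : Real.log ‖τ ((x : 𝓞 F) : F)‖ =
    ∑ k, (ev x k : ℝ) * Real.log ‖τ ((fundSystem F k : 𝓞 F) : F)‖ := by
  obtain ⟨ζ, hζ, hx⟩ := exists_zeta x
  obtain ⟨n, hn, hn1⟩ := torsion_pow hζ
  have h1 : ‖τ ((ζ : 𝓞 F) : F)‖ = 1 := by
    have h2 : ‖τ ((ζ : 𝓞 F) : F)‖ ^ n = 1 := by
      rw [← norm_pow, ← map_pow, hn1, map_one, norm_one]
    exact (pow_eq_one_iff_of_nonneg (norm_nonneg _) (by omega)).mp h2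
  have h2 : ((x : 𝓞 F) : F) = ((ζ : 𝓞 F) : F) * ∏ k, (((fundSystem F k : 𝓞 F) : F)) ^ ev x k := by
    have h3 := congrArg (fun u : (𝓞 F)ˣ => ((u : 𝓞 F) : F)) hx
    simp only [Units.val_mul, map_mul] at h3
    rw [← coe_prod_zpow]
    exact h3
  rw [h2, map_mul, norm_mul, h1, one_mul, map_prod, norm_prod, Real.log_prod]
  · apply Finset.sum_congr rfl
    intro k _
    rw [map_zpow₀, norm_zpow, Real.log_zpow]
  · intro k _
    exact norm_ne_zero_iff.mpr ((map_ne_zero τ).mpr (zpow_ne_zero _ (isU_unit _).ne))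

end units

section padic

variable {p : ℕ} [hp : Fact p.Prime] {L : PadicAlgCl p → PadicAlgCl p} (hL : IsIwasawaLog p L)
  {F : Type} [Field F] [NumberField F]

include hL in
theorem log_unit (f : F →+* PadicAlgCl p) (x : (𝓞 F)ˣ) : L (f ((x : 𝓞 F) : F)) =
    ∑ k, (ev x k : PadicAlgCl p) * L (f ((fundSystem F k : 𝓞 F) : F)) := by
  obtain ⟨ζ, hζ, hx⟩ := exists_zeta x
  obtain ⟨n, hn, hn1⟩ := torsion_pow hζ
  have h1 : L (f ((ζ : 𝓞 F) : F)) = 0 := by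
    apply log_root hL hn
    rw [← map_pow, hn1, map_one]
  have h2 : ((x : 𝓞 F) : F) = ((ζ : 𝓞 F) : F) * ∏ k, (((fundSystem F k : 𝓞 F) : F)) ^ ev x k := by
    have h3 := congrArg (fun u : (𝓞 F)ˣ => ((u : 𝓞 F) : F)) hx
    simp only [Units.val_mul, map_mul] at h3
    rw [← coe_prod_zpow]
    exact h3
  have h3 : ∏ k, (((fundSystem F k : 𝓞 F) : F)) ^ ev x k ≠ 0 :=
    Finset.prod_ne_zero_iff.mpr (fun k _ => zpow_ne_zero _ (isU_unit _).ne)
  rw [h2, map_mul, hL.mul _ _ ((map_ne_zero f).mpr (isU_unit ζ).ne) ((map_ne_zero f).mpr h3), h1,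
    zero_add, map_prod]
  simp only [map_zpow₀]
  exact log_prod_zpow hL Finset.univ (fun k => f ((fundSystem F k : 𝓞 F) : F))
    (fun k => (isU_unit _).map f) (ev x)

theorem mult_indep_fund (m : Fin (rank F) → ℤ)
    (h : ∏ k, (((fundSystem F k : 𝓞 F) : F)) ^ m k = 1) : m = 0 := by
  have h1 : ∏ k, fundSystem F k ^ m k = 1 := by
    apply Units.ext
    apply NumberField.RingOfIntegers.ext
    rw [coe_prod_zpow, h]
    rfl
  have h2 := ev_unique (x := 1) (ζ := 1) (m := m) (one_mem _) (by rw [h1, mul_one])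
  rw [← h2, ev_one]

/-- the operator attached to an automorphism -/
noncomputable def Tm (p : ℕ) [Fact p.Prime] (g : F ≃ₐ[ℚ] F) :
    (Fin (rank F) → PadicAlgCl p) →ₗ[PadicAlgCl p] (Fin (rank F) → PadicAlgCl p) :=
  ((Cm g).map (Int.castRingHom (PadicAlgCl p))).vecMulLinear

theorem Tm_apply (g : F ≃ₐ[ℚ] F) (b : Fin (rank F) → PadicAlgCl p) (l : Fin (rank F)) :
    Tm p g b l = ∑ k, b k * ((Cm g k l : ℤ) : PadicAlgCl p) := rfl

theorem Tm_mul (g h : F ≃ₐ[ℚ] F) (b : Fin (rank F) → PadicAlgCl p) :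
    Tm p (g * h) b = Tm p g (Tm p h b) := by
  unfold Tm
  rw [Cm_mul]
  simp only [Matrix.coe_vecMulLinear]
  rw [Matrix.vecMul_vecMul, ← Matrix.map_mul]

theorem Tm_one (b : Fin (rank F) → PadicAlgCl p) : Tm p (1 : F ≃ₐ[ℚ] F) b = b := by
  unfold Tm
  rw [Cm_one]
  simp only [Matrix.coe_vecMulLinear]
  rw [Matrix.map_one _ (map_zero _) (map_one _), Matrix.vecMul_one]

/-- the pairing with logarithms -/
noncomputable def Pg (L : PadicAlgCl p → PadicAlgCl p) (σ₀ : F →+* PadicAlgCl p) (g : F ≃ₐ[ℚ] F)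
    (b : Fin (rank F) → PadicAlgCl p) : PadicAlgCl p :=
  ∑ k, b k * L (σ₀ (g ((fundSystem F k : 𝓞 F) : F)))

include hL in
theorem Pg_Tm (σ₀ : F →+* PadicAlgCl p) (g h : F ≃ₐ[ℚ] F) (b : Fin (rank F) → PadicAlgCl p) :
    Pg L σ₀ g (Tm p h b) = Pg L σ₀ (g * h) b := by
  unfold Pg
  simp only [Tm_apply, Finset.sum_mul]
  rw [Finset.sum_comm]
  apply Finset.sum_congr rfl
  intro k _
  have h1 := log_unit hL (σ₀.comp (g : F →+* F)) (gU h (fundSystem F k))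
  have h2 : (σ₀.comp (g : F →+* F)) ((gU h (fundSystem F k) : 𝓞 F) : F) =
      σ₀ ((g * h) ((fundSystem F k : 𝓞 F) : F)) := rfl
  rw [h2] at h1
  rw [h1, Finset.mul_sum]
  apply Finset.sum_congr rfl
  intro l _
  change b k * ((ev (gU h (fundSystem F k)) l : ℤ) : PadicAlgCl p) * _ = _
  rw [mul_assoc]
  rfl

end padic

end Pool.Agent.W254.PA
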