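import Pool.Agent.W254.PA.LeoD

/-!
# Leopoldt's conjecture for restricted exponents and Galois groups
-/

set_option autoImplicit false

namespace Pool.Agent.W254.PA

open Module Finset NumberField NumberField.Units Pool.Agent.W254.Ab
open Pool.Agent.W245.PB (IsIwasawaLog brumer)

variable {p : ℕ} [hp : Fact p.Prime] {L : PadicAlgCl p → PadicAlgCl p} (hL : IsIwasawaLog p L)
  {F : Type} [Field F] [NumberField F] (σ₀ : F →+* PadicAlgCl p)

/-- relations with coefficients in `A` -/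
def RelX (L : PadicAlgCl p → PadicAlgCl p) (A : Submodule (QA (PadicAlgCl p)) (PadicAlgCl p)) :
    Set (Fin (rank F) → PadicAlgCl p) :=
  {b | (∀ k, b k ∈ A) ∧ ∀ g, Pg L σ₀ g b = 0}

/-- the space spanned by the relations -/
noncomputable def WX (L : PadicAlgCl p → PadicAlgCl p)
    (A : Submodule (QA (PadicAlgCl p)) (PadicAlgCl p)) :
    Submodule (PadicAlgCl p) (Fin (rank F) → PadicAlgCl p) :=
  Submodule.span (PadicAlgCl p) (RelX σ₀ L A)

theorem int_mul_mem (A : Submodule (QA (PadicAlgCl p)) (PadicAlgCl p)) {z : PadicAlgCl p}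
    (hz : z ∈ A) (m : ℤ) : z * (m : PadicAlgCl p) ∈ A := by
  have h1 := A.smul_mem (m : QA (PadicAlgCl p)) hz
  rw [Algebra.smul_def, map_intCast, mul_comm] at h1
  exact h1

include hL in
theorem RelX_Tm (A : Submodule (QA (PadicAlgCl p)) (PadicAlgCl p)) (h : F ≃ₐ[ℚ] F)
    {b : Fin (rank F) → PadicAlgCl p} (hb : b ∈ RelX σ₀ L A) : Tm p h b ∈ RelX σ₀ L A := by
  refine ⟨fun l => ?_, fun g => ?_⟩
  · rw [Tm_apply]
    apply A.sum_mem
    intro k _
    exact int_mul_mem A (hb.1 k) _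
  · rw [Pg_Tm hL, hb.2]

include hL in
theorem WX_Tm (A : Submodule (QA (PadicAlgCl p)) (PadicAlgCl p)) (h : F ≃ₐ[ℚ] F)
    {b : Fin (rank F) → PadicAlgCl p} (hb : b ∈ WX σ₀ L A) : Tm p h b ∈ WX σ₀ L A := by
  unfold WX at hb ⊢
  refine Submodule.span_induction (p := fun b _ => Tm p h b ∈ Submodule.span (PadicAlgCl p)
    (RelX σ₀ L A)) ?_ ?_ ?_ ?_ hb
  · intro b hb
    exact Submodule.subset_span (RelX_Tm hL σ₀ A h hb)
  · rw [map_zero]; exact Submodule.zero_mem _
  · intro b c _ _ h1 h2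
    rw [map_add]; exact Submodule.add_mem _ h1 h2
  · intro c b _ h1
    rw [map_smul]; exact Submodule.smul_mem _ c h1

theorem WX_Pg (A : Submodule (QA (PadicAlgCl p)) (PadicAlgCl p)) (g : F ≃ₐ[ℚ] F)
    {b : Fin (rank F) → PadicAlgCl p} (hb : b ∈ WX σ₀ L A) : Pg L σ₀ g b = 0 := by
  unfold WX at hb
  refine Submodule.span_induction (p := fun b _ => Pg L σ₀ g b = 0) ?_ ?_ ?_ ?_ hb
  · intro b hb
    exact hb.2 g
  · unfold Pg; simp
  · intro b c _ _ h1 h2
    unfold Pg at h1 h2 ⊢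
    simp only [Pi.add_apply, add_mul, Finset.sum_add_distrib, h1, h2, add_zero]
  · intro c b _ h1
    unfold Pg at h1 ⊢
    simp only [Pi.smul_apply, smul_eq_mul, mul_assoc, ← Finset.mul_sum, h1, mul_zero]

include hL in
theorem fund_indep : LinearIndependent ℚ
    (fun k : Fin (rank F) => L (σ₀ ((fundSystem F k : 𝓞 F) : F))) :=
  indep_of_mult hL σ₀ (fun k => ((fundSystem F k : 𝓞 F) : F)) (fun k => isU_unit _)
    mult_indep_fund

include hL in
/-- the dimension of the space spanned by the relations -/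
theorem finrank_WX (A B C : Submodule (QA (PadicAlgCl p)) (PadicAlgCl p))
    [FiniteDimensional (QA (PadicAlgCl p)) B] [FiniteDimensional (QA (PadicAlgCl p)) C]
    (hC : ∀ b ∈ B, ∀ a ∈ A, b * a ∈ C) :
    finrank (PadicAlgCl p) (WX σ₀ L A) * finrank (QA (PadicAlgCl p)) B ≤
      finrank (QA (PadicAlgCl p)) C * (finrank (QA (PadicAlgCl p)) C - 1) := by
  unfold WX
  obtain ⟨f, hf1, -, hf3⟩ := Submodule.exists_fun_fin_finrank_span_eq (PadicAlgCl p) (RelX σ₀ L A)
  let e := (Finsupp.linearEquivFunOnFinite (PadicAlgCl p) (PadicAlgCl p) (Fin (rank F))).symm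
  have he : ∀ b k, e b k = b k := fun b k => rfl
  have hw : LinearIndependent (QA (PadicAlgCl p))
      (fun k : Fin (rank F) => L (σ₀ ((fundSystem F k : 𝓞 F) : F))) := by
    have h1 := optP_indep hL (ι := Fin (rank F)) (fun k => σ₀ ((fundSystem F k : 𝓞 F) : F))
      (fun k => ((isU_unit _).map σ₀).ne) (fun k => ((isU_unit _).map σ₀).alg) (fund_indep hL σ₀)
    exact h1.comp some (Option.some_injective _)
  refine rel_core (hyp_padic hL) (fun k : Fin (rank F) => L (σ₀ ((fundSystem F k : 𝓞 F) : F))) hw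
    (fun k => log_memP ((isU_unit _).map σ₀).ne ((isU_unit _).map σ₀).alg) A B C hC _
    (fun i => e (f i)) (hf3.map' e.toLinearMap (LinearEquiv.ker e)) ?_ ?_
  · intro i s
    rw [he]
    exact (hf1 i).1 s
  · intro i
    have h1 := (hf1 i).2 1
    unfold Pg at h1
    rw [Finsupp.sum_fintype _ _ (fun k => zero_mul _)]
    exact h1

/-- the representation on the space of relations -/
noncomputable def rhoX (A : Submodule (QA (PadicAlgCl p)) (PadicAlgCl p)) :
    Representation (PadicAlgCl p) (F ≃ₐ[ℚ] F) (WX σ₀ L A) where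
  toFun g := (Tm p g).restrict (fun _ hb => WX_Tm hL σ₀ A g hb)
  map_one' := by
    ext b
    change Tm p 1 (b : Fin (rank F) → PadicAlgCl p) _ = _
    rw [Tm_one]
    rfl
  map_mul' g h := by
    ext b
    change Tm p (g * h) (b : Fin (rank F) → PadicAlgCl p) _ = _
    rw [Tm_mul]
    rfl

include hL in
/-- **Common eigenvectors do not exist.** -/
theorem no_eigen [IsGalois ℚ F] (b : Fin (rank F) → PadicAlgCl p) (hb0 : b ≠ 0)
    (hb : ∀ g : F ≃ₐ[ℚ] F, ∃ c : PadicAlgCl p, Tm p g b = c • b) (hP : Pg L σ₀ 1 b = 0) :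
    False := by
  classical
  choose c hc using hb
  -- the eigenvalues are algebraic
  have hcpow : ∀ g : F ≃ₐ[ℚ] F, ∀ n : ℕ, Tm p (g ^ n) b = (c g) ^ n • b := by
    intro g n
    induction n with
    | zero => rw [pow_zero, pow_zero, Tm_one, one_smul]
    | succ n ih => rw [pow_succ, Tm_mul, hc, map_smul, ih, smul_smul, pow_succ, mul_comm]
  obtain ⟨k₀, hk₀⟩ : ∃ k, b k ≠ 0 := by
    by_contra hcon
    push Not at hcon
    exact hb0 (funext hcon)
  have hcalg : ∀ g, IsAlgebraic ℚ (c g) := by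
    intro g
    have h1 := hcpow g (Fintype.card (F ≃ₐ[ℚ] F))
    rw [pow_card_eq_one, Tm_one] at h1
    have h2 := congrFun h1 k₀
    rw [Pi.smul_apply, smul_eq_mul] at h2
    have h3 : (c g) ^ Fintype.card (F ≃ₐ[ℚ] F) = 1 := by
      have h4 : ((c g) ^ Fintype.card (F ≃ₐ[ℚ] F) - 1) * b k₀ = 0 := by linear_combination -h2
      exact sub_eq_zero.mp ((mul_eq_zero.mp h4).resolve_right hk₀)
    refine IsAlgebraic.of_pow (n := Fintype.card (F ≃ₐ[ℚ] F)) Fintype.card_pos ?_
    rw [h3]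
    exact isAlgebraic_one
  -- an eigenvector with algebraic coordinates
  obtain ⟨φ, hφ, -⟩ := exists_functional (⊥ : Submodule (QA (PadicAlgCl p)) (PadicAlgCl p)) (b k₀)
    (by rw [Submodule.mem_bot]; exact hk₀)
  let b' : Fin (rank F) → PadicAlgCl p := fun k => ((φ (b k) : QA (PadicAlgCl p)) : PadicAlgCl p)
  have hb' : ∀ g, Tm p g b' = c g • b' := by
    intro g
    funext l
    rw [Tm_apply, Pi.smul_apply, smul_eq_mul]
    have h1 := congrFun (hc g) l
    rw [Tm_apply, Pi.smul_apply, smul_eq_mul] at h1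
    have h2 : φ (∑ k, b k * ((Cm g k l : ℤ) : PadicAlgCl p)) =
        ∑ k, φ (b k) * ((Cm g k l : ℤ) : QA (PadicAlgCl p)) := by
      rw [map_sum]
      apply Finset.sum_congr rfl
      intro k _
      have h3 : b k * ((Cm g k l : ℤ) : PadicAlgCl p) =
          ((Cm g k l : ℤ) : QA (PadicAlgCl p)) • b k := by
        rw [Algebra.smul_def, map_intCast, mul_comm]
      rw [h3, map_smul, smul_eq_mul, mul_comm]
    have h4 : φ (c g * b l) = (⟨c g, mem_QA.mpr (hcalg g)⟩ : QA (PadicAlgCl p)) * φ (b l) := by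
      have h5 : c g * b l = (⟨c g, mem_QA.mpr (hcalg g)⟩ : QA (PadicAlgCl p)) • b l := by
        rw [Algebra.smul_def]; rfl
      rw [h5, map_smul, smul_eq_mul]
    rw [h1] at h2
    rw [h4] at h2
    have h6 := congrArg (fun z : QA (PadicAlgCl p) => (z : PadicAlgCl p)) h2
    push_cast at h6
    exact h6.symm
  have hb'0 : b' ≠ 0 := by
    intro h
    apply hφ
    exact Subtype.ext (congrFun h k₀)
  -- transport to the complex numbers
  obtain ⟨θ⟩ := exists_theta' p
  obtain ⟨τ⟩ : Nonempty (F →+* ℂ) := inferInstance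
  have key : ∀ v : Fin (rank F) → PadicAlgCl p, (∀ g, Tm p g v = c g • v) → ∀ g : F ≃ₐ[ℚ] F,
      ∑ k, θ (v k) * (Real.log ‖τ (g ((fundSystem F k : 𝓞 F) : F))‖ : ℂ) =
      θ (c g) * ∑ k, θ (v k) * (Real.log ‖τ ((fundSystem F k : 𝓞 F) : F)‖ : ℂ) := by
    intro v hv g
    have h1 : ∀ k, (Real.log ‖τ (g ((fundSystem F k : 𝓞 F) : F))‖ : ℂ) =
        ∑ l, ((Cm g k l : ℤ) : ℂ) * (Real.log ‖τ ((fundSystem F l : 𝓞 F) : F)‖ : ℂ) := by
      intro k
      have h2 := log_unit_real τ (gU g (fundSystem F k))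
      rw [gU_coe] at h2
      rw [h2]
      push_cast
      rfl
    simp only [h1, Finset.mul_sum]
    rw [Finset.sum_comm]
    apply Finset.sum_congr rfl
    intro l _
    have h3 := congrFun (hv g) l
    rw [Tm_apply, Pi.smul_apply, smul_eq_mul] at h3
    have h4 := congrArg θ h3
    rw [map_sum, map_mul] at h4
    rw [← mul_assoc, ← h4, Finset.sum_mul]
    apply Finset.sum_congr rfl
    intro k _
    rw [map_mul, map_intCast]
    ring
  set s : ℂ := ∑ k, θ (b k) * (Real.log ‖τ ((fundSystem F k : 𝓞 F) : F)‖ : ℂ) with hs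
  set s' : ℂ := ∑ k, θ (b' k) * (Real.log ‖τ ((fundSystem F k : 𝓞 F) : F)‖ : ℂ) with hs'
  have hs'0 : s' ≠ 0 := by
    intro h0
    apply hb'0
    have h1 := dirichlet_gal F τ (fun k => θ (b' k)) (by
      intro g
      rw [key b' hb' g, ← hs', h0, mul_zero])
    funext k
    have h2 := congrFun h1 k
    exact (map_eq_zero θ).mp h2
  have hprop := dirichlet_gal F τ (fun k => s' * θ (b k) - s * θ (b' k)) (by
    intro g
    simp only [sub_mul, mul_assoc, Finset.sum_sub_distrib, ← Finset.mul_sum]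
    rw [key b hc g, key b' hb' g, ← hs, ← hs']
    ring)
  -- the vector is proportional to an algebraic one
  have hbb : ∀ k, b k = θ.symm (s / s') * b' k := by
    intro k
    apply θ.injective
    rw [map_mul, θ.apply_symm_apply]
    have h1 := congrFun hprop k
    simp only [Pi.zero_apply] at h1
    field_simp
    linear_combination h1
  have hy0 : θ.symm (s / s') ≠ 0 := by
    intro h0
    apply hk₀
    rw [hbb, h0, zero_mul]
  have hfin : ∑ k, b' k * L (σ₀ ((fundSystem F k : 𝓞 F) : F)) = 0 := by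
    unfold Pg at hP
    have h1 : θ.symm (s / s') * ∑ k, b' k * L (σ₀ ((fundSystem F k : 𝓞 F) : F)) = 0 := by
      rw [← hP, Finset.mul_sum]
      apply Finset.sum_congr rfl
      intro k _
      rw [hbb k]
      change _ = _ * L (σ₀ ((fundSystem F k : 𝓞 F) : F))
      ring
    exact (mul_eq_zero.mp h1).resolve_left hy0
  have h2 := brumer hL (ι := Fin (rank F)) (fun k => σ₀ ((fundSystem F k : 𝓞 F) : F))
    (fun k => ((isU_unit _).map σ₀).ne) (fun k => ((isU_unit _).map σ₀).alg) (fund_indep hL σ₀) 0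
    isAlgebraic_zero b' (fun k => mem_QA.mp (φ (b k)).2) (by rw [zero_add, hfin])
  exact hb'0 (funext h2.2)

include hL in
/-- **There are no relations if all irreducible representations are one dimensional or large.** -/
theorem WX_eq_bot [IsGalois ℚ F] (A : Submodule (QA (PadicAlgCl p)) (PadicAlgCl p)) (N : ℕ)
    (hN : finrank (PadicAlgCl p) (WX σ₀ L A) ≤ N)
    (hG : ∀ (W : Type) [AddCommGroup W] [Module ℂ W] [FiniteDimensional ℂ W]
      (ρ : Representation ℂ (F ≃ₐ[ℚ] F) W), finrank ℂ W ≤ N → ∀ g h, ρ (g * h) = ρ (h * g)) :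
    WX σ₀ L A = ⊥ := by
  by_contra hne
  obtain ⟨θ⟩ := exists_theta' p
  have hcomm : ∀ g h : F ≃ₐ[ℚ] F, ∀ w ∈ WX σ₀ L A, Tm p g (Tm p h w) = Tm p h (Tm p g w) := by
    intro g h w hw
    have h1 := rep_comm θ N hG (rhoX hL σ₀ A) hN g h
    have h2 := congrArg (fun f : WX σ₀ L A →ₗ[PadicAlgCl p] WX σ₀ L A =>
      ((f ⟨w, hw⟩ : WX σ₀ L A) : Fin (rank F) → PadicAlgCl p)) h1
    have h3 : ∀ a : F ≃ₐ[ℚ] F, ((rhoX hL σ₀ A a ⟨w, hw⟩ : WX σ₀ L A) :
      Fin (rank F) → PadicAlgCl p) = Tm p a w := fun a => rfl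
    simp only [h3] at h2
    rw [← Tm_mul, ← Tm_mul, h2]
  obtain ⟨v, hv, hv0, hvc⟩ := common_eigen (fun g : F ≃ₐ[ℚ] F => Tm p g) _ (WX σ₀ L A)
    inferInstance rfl hne (fun g w hw => WX_Tm hL σ₀ A g hw) hcomm
  exact no_eigen hL σ₀ v hv0 hvc (WX_Pg σ₀ A 1 hv)

include hL in
/-- vanishing of the relations of a subfield -/
theorem gal_main [IsGalois ℚ F] (A : Submodule (QA (PadicAlgCl p)) (PadicAlgCl p)) (N : ℕ)
    (hN : finrank (PadicAlgCl p) (WX σ₀ L A) ≤ N)
    (hG : ∀ (W : Type) [AddCommGroup W] [Module ℂ W] [FiniteDimensional ℂ W]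
      (ρ : Representation ℂ (F ≃ₐ[ℚ] F) W), finrank ℂ W ≤ N → ∀ g h, ρ (g * h) = ρ (h * g))
    {K : Type} [Field K] [NumberField K] (j : K →+* F) (r : ℕ) (ε : Fin r → (𝓞 K)ˣ)
    (hind : ∀ m : Fin r → ℤ, ∏ i, ε i ^ m i = 1 → m = 0) (a : Fin r → PadicAlgCl p)
    (ha : ∃ y : PadicAlgCl p, ∀ i, ∃ x ∈ A, a i = y * x)
    (h0 : ∀ σ : K →+* PadicAlgCl p, ∑ i, a i * L (σ ((ε i : 𝓞 K) : K)) = 0) : a = 0 := by
  classical
  obtain ⟨y, hy⟩ := ha
  choose x hxA hx using hy
  by_cases hy0 : y = 0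
  · funext i
    simp [hx i, hy0]
  -- the units in `F`
  let u : Fin r → (𝓞 F)ˣ := fun i =>
    Units.map (RingOfIntegers.mapRingHom j : 𝓞 K →* 𝓞 F) (ε i)
  have hu : ∀ i, ((u i : 𝓞 F) : F) = j ((ε i : 𝓞 K) : K) := fun i => rfl
  have huind : ∀ m : Fin r → ℤ, ∏ i, (((u i : 𝓞 F) : F)) ^ m i = 1 → m = 0 := by
    intro m hm
    apply hind m
    apply Units.ext
    apply NumberField.RingOfIntegers.ext
    rw [coe_prod_zpow]
    apply j.injective
    rw [map_prod]
    have h1 : ∀ i, j ((((ε i : 𝓞 K) : K)) ^ m i) = (((u i : 𝓞 F) : F)) ^ m i := by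
      intro i
      rw [map_zpow₀, hu]
    simp only [h1]
    rw [hm]
    simp
  -- the relation
  have hxrel : ∀ g : F ≃ₐ[ℚ] F, ∑ i, x i * L (σ₀ (g ((u i : 𝓞 F) : F))) = 0 := by
    intro g
    have h1 := h0 ((σ₀.comp (g : F →+* F)).comp j)
    have h2 : y * ∑ i, x i * L (σ₀ (g ((u i : 𝓞 F) : F))) = 0 := by
      rw [← h1, Finset.mul_sum]
      apply Finset.sum_congr rfl
      intro i _
      rw [hx i, hu]
      change _ = y * x i * L (σ₀ (g (j ((ε i : 𝓞 K) : K))))
      ring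
    exact (mul_eq_zero.mp h2).resolve_left hy0
  let b : Fin (rank F) → PadicAlgCl p := fun k => ∑ i, x i * ((ev (u i) k : ℤ) : PadicAlgCl p)
  have hb : b ∈ RelX σ₀ L A := by
    refine ⟨fun k => ?_, fun g => ?_⟩
    · apply A.sum_mem
      intro i _
      exact int_mul_mem A (hxA i) _
    · unfold Pg
      rw [← hxrel g]
      change ∑ k, (∑ i, x i * ((ev (u i) k : ℤ) : PadicAlgCl p)) * _ = _
      simp only [Finset.sum_mul]
      rw [Finset.sum_comm]
      apply Finset.sum_congr rfl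
      intro i _
      have h1 := log_unit hL (σ₀.comp (g : F →+* F)) (u i)
      change L (σ₀ (g ((u i : 𝓞 F) : F))) = _ at h1
      rw [h1, Finset.mul_sum]
      apply Finset.sum_congr rfl
      intro k _
      rw [mul_assoc]
      rfl
  have hb0 : b = 0 := by
    have h1 : b ∈ WX σ₀ L A := Submodule.subset_span hb
    rw [WX_eq_bot hL σ₀ A N hN hG] at h1
    exact (Submodule.mem_bot _).mp h1
  -- conclusion
  by_contra hne
  obtain ⟨i₀, hi₀⟩ : ∃ i, x i ≠ 0 := by
    by_contra hcon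
    push Not at hcon
    apply hne
    funext i
    simp [hx i, hcon i]
  obtain ⟨φ, hφ, -⟩ := exists_functional (⊥ : Submodule (QA (PadicAlgCl p)) (PadicAlgCl p)) (x i₀)
    (by rw [Submodule.mem_bot]; exact hi₀)
  have hφk : ∀ k, ∑ i, ((φ (x i) : QA (PadicAlgCl p)) : PadicAlgCl p) *
      ((ev (u i) k : ℤ) : PadicAlgCl p) = 0 := by
    intro k
    have h1 := congrArg φ (congrFun hb0 k)
    change φ (∑ i, x i * ((ev (u i) k : ℤ) : PadicAlgCl p)) = φ 0 at h1
    rw [map_zero, map_sum] at h1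
    have h2 := congrArg (fun z : QA (PadicAlgCl p) => (z : PadicAlgCl p)) h1
    push_cast at h2
    rw [← h2]
    apply Finset.sum_congr rfl
    intro i _
    have h3 : x i * ((ev (u i) k : ℤ) : PadicAlgCl p) =
        ((ev (u i) k : ℤ) : QA (PadicAlgCl p)) • x i := by
      rw [Algebra.smul_def, map_intCast, mul_comm]
    rw [h3, map_smul, smul_eq_mul, mul_comm]
    push_cast
    rfl
  have h4 := brumer hL (ι := Fin r) (fun i => σ₀ ((u i : 𝓞 F) : F))
    (fun i => ((isU_unit _).map σ₀).ne) (fun i => ((isU_unit _).map σ₀).alg)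
    (indep_of_mult hL σ₀ (fun i => ((u i : 𝓞 F) : F)) (fun i => isU_unit _) huind) 0
    isAlgebraic_zero (fun i => ((φ (x i) : QA (PadicAlgCl p)) : PadicAlgCl p))
    (fun i => mem_QA.mp (φ (x i)).2) (by
      rw [zero_add]
      have h1 : ∀ i, L (σ₀ ((u i : 𝓞 F) : F)) =
          ∑ k, ((ev (u i) k : ℤ) : PadicAlgCl p) * L (σ₀ ((fundSystem F k : 𝓞 F) : F)) :=
        fun i => log_unit hL σ₀ (u i)
      simp only [h1, Finset.mul_sum]
      rw [Finset.sum_comm]
      apply Finset.sum_eq_zero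
      intro k _
      simp only [← mul_assoc]
      rw [← Finset.sum_mul, hφk k, zero_mul])
  apply hφ
  exact Subtype.ext (h4.2 i₀)

end Pool.Agent.W254.PA
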