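import Pool.Agent.W254.PA.LeoE

/-!
# Polynomial exponents
-/

set_option autoImplicit false

namespace Pool.Agent.W254.PA

open Module Finset NumberField NumberField.Units MvPolynomial Pool.Agent.W254.Ab
open Pool.Agent.W245.PB (IsIwasawaLog brumer)

variable {p : ℕ} [hp : Fact p.Prime] {L : PadicAlgCl p → PadicAlgCl p} (hL : IsIwasawaLog p L)

/-- the arithmetic -/
theorem poly_arith {n : ℕ} (t : Fin n → PadicAlgCl p) (D m : ℕ)
    (h : ∀ B C : Submodule (QA (PadicAlgCl p)) (PadicAlgCl p),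
      FiniteDimensional (QA (PadicAlgCl p)) B → FiniteDimensional (QA (PadicAlgCl p)) C →
      (∀ b ∈ B, ∀ a ∈ boxV t (D + 1), b * a ∈ C) →
      m * finrank (QA (PadicAlgCl p)) B ≤
        finrank (QA (PadicAlgCl p)) C * (finrank (QA (PadicAlgCl p)) C - 1)) :
    m ≤ (4 * D) ^ n - 2 ^ n := by
  rcases Nat.eq_zero_or_pos D with hD0 | hD
  · subst hD0
    have h0 : finrank (QA (PadicAlgCl p)) (boxV t 1) = 1 := by
      have h1 := finrank_boxV_pos t (N := 1) le_rfl
      have h2 := finrank_boxV_le t 1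
      rw [one_pow] at h2
      omega
    have h1 := h (boxV t 1) (boxV t 1) inferInstance inferInstance (box_mul t 1 1 1 (by omega))
    rw [h0] at h1
    omega
  · exact gen_arith t D m hD (h (boxV t D) (boxV t (2 * D)) inferInstance inferInstance
      (box_mul t D (D + 1) (2 * D) (by omega)))

/-- polynomial exponents up to a common factor -/
def PolyExp {n r : ℕ} (t : Fin n → PadicAlgCl p) (D : ℕ) (a : Fin r → PadicAlgCl p) : Prop :=
  ∃ (y : PadicAlgCl p) (P : Fin r → MvPolynomial (Fin n) (algebraicClosure ℚ (PadicAlgCl p))),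
    (∀ i, ∀ m ∈ (P i).support, ∀ s, m s ≤ D) ∧ ∀ i, a i = y * aeval t (P i)

include hL in
theorem rank_bound {n : ℕ} (t : Fin n → PadicAlgCl p) (D : ℕ) {K : Type} [Field K] [NumberField K]
    (σ : K →+* PadicAlgCl p) (r : ℕ) (ε : Fin r → (𝓞 K)ˣ)
    (hind : ∀ m : Fin r → ℤ, ∏ i, ε i ^ m i = 1 → m = 0) :
    finrank (PadicAlgCl p) (Submodule.span (PadicAlgCl p)
      {a : Fin r → PadicAlgCl p | PolyExp t D a ∧ ∑ i, a i * L (σ ((ε i : 𝓞 K) : K)) = 0}) ≤
      (4 * D) ^ n - 2 ^ n := by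
  classical
  -- reduction to vectors with coordinates in the space
  have hspan : Submodule.span (PadicAlgCl p)
      {a : Fin r → PadicAlgCl p | PolyExp t D a ∧ ∑ i, a i * L (σ ((ε i : 𝓞 K) : K)) = 0} ≤
      Submodule.span (PadicAlgCl p) {a : Fin r → PadicAlgCl p | (∀ i, a i ∈ boxV t (D + 1)) ∧
        ∑ i, a i * L (σ ((ε i : 𝓞 K) : K)) = 0} := by
    rw [Submodule.span_le]
    rintro a ⟨⟨y, P, hP, ha⟩, h0⟩
    by_cases hy : y = 0
    · have : a = 0 := by
        funext i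
        simp [ha i, hy]
      rw [this]
      exact Submodule.zero_mem _
    · have h1 : a = y • (fun i => aeval t (P i)) := by
        funext i
        rw [Pi.smul_apply, smul_eq_mul, ha i]
      rw [h1]
      apply Submodule.smul_mem
      apply Submodule.subset_span
      refine ⟨fun i => aeval_mem_boxV t D _ (hP i), ?_⟩
      have h2 : y * ∑ i, aeval t (P i) * L (σ ((ε i : 𝓞 K) : K)) = 0 := by
        rw [← h0, Finset.mul_sum]
        apply Finset.sum_congr rfl
        intro i _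
        rw [ha i]; ring
      exact (mul_eq_zero.mp h2).resolve_left hy
  refine (Submodule.finrank_mono hspan).trans ?_
  apply poly_arith t D
  intro B C hB hC hBC
  obtain ⟨f, hf1, -, hf3⟩ := Submodule.exists_fun_fin_finrank_span_eq (PadicAlgCl p)
    {a : Fin r → PadicAlgCl p | (∀ i, a i ∈ boxV t (D + 1)) ∧
        ∑ i, a i * L (σ ((ε i : 𝓞 K) : K)) = 0}
  let e := (Finsupp.linearEquivFunOnFinite (PadicAlgCl p) (PadicAlgCl p) (Fin r)).symm
  have he : ∀ b k, e b k = b k := fun b k => rfl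
  have hlog : LinearIndependent ℚ (fun i => L (σ ((ε i : 𝓞 K) : K))) := by
    refine indep_of_mult hL σ (fun i => ((ε i : 𝓞 K) : K)) (fun i => isU_unit _) ?_
    intro m hm
    apply hind m
    apply Units.ext
    apply NumberField.RingOfIntegers.ext
    rw [coe_prod_zpow, hm]
    rfl
  have hw : LinearIndependent (QA (PadicAlgCl p)) (fun i => L (σ ((ε i : 𝓞 K) : K))) := by
    have h1 := optP_indep hL (ι := Fin r) (fun i => σ ((ε i : 𝓞 K) : K))
      (fun k => ((isU_unit _).map σ).ne) (fun k => ((isU_unit _).map σ).alg) hlog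
    exact h1.comp some (Option.some_injective _)
  refine rel_core (hyp_padic hL) (fun i => L (σ ((ε i : 𝓞 K) : K))) hw
    (fun k => log_memP ((isU_unit _).map σ).ne ((isU_unit _).map σ).alg) (boxV t (D + 1)) B C hBC _
    (fun i => e (f i)) (hf3.map' e.toLinearMap (LinearEquiv.ker e)) ?_ ?_
  · intro i s
    rw [he]
    exact (hf1 i).1 s
  · intro i
    have h1 := (hf1 i).2
    rw [Finsupp.sum_fintype _ _ (fun k => zero_mul _)]
    exact h1

include hL in
theorem gal_poly {n : ℕ} (t : Fin n → PadicAlgCl p) (D : ℕ) {F : Type} [Field F] [NumberField F]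
    [IsGalois ℚ F]
    (hG : ∀ (W : Type) [AddCommGroup W] [Module ℂ W] [FiniteDimensional ℂ W]
      (ρ : Representation ℂ (F ≃ₐ[ℚ] F) W), finrank ℂ W ≤ (4 * D) ^ n - 2 ^ n →
        ∀ g h, ρ (g * h) = ρ (h * g))
    {K : Type} [Field K] [NumberField K] (j : K →+* F) (r : ℕ) (ε : Fin r → (𝓞 K)ˣ)
    (hind : ∀ m : Fin r → ℤ, ∏ i, ε i ^ m i = 1 → m = 0) (a : Fin r → PadicAlgCl p)
    (ha : PolyExp t D a) (h0 : ∀ σ : K →+* PadicAlgCl p, ∑ i, a i * L (σ ((ε i : 𝓞 K) : K)) = 0) :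
    a = 0 := by
  obtain ⟨σ₀⟩ : Nonempty (F →+* PadicAlgCl p) :=
    ⟨((IsAlgClosed.lift : F →ₐ[ℚ] PadicAlgCl p) : F →+* PadicAlgCl p)⟩
  obtain ⟨y, P, hP, ha⟩ := ha
  refine gal_main hL σ₀ (boxV t (D + 1)) ((4 * D) ^ n - 2 ^ n) ?_ hG j r ε hind a
    ⟨y, fun i => ⟨aeval t (P i), aeval_mem_boxV t D _ (hP i), ha i⟩⟩ h0
  apply poly_arith t D
  intro B C hB hC hBC
  exact finrank_WX hL σ₀ (boxV t (D + 1)) B C hBC

end Pool.Agent.W254.PA
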