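import Mathlib

/-!
# Small representations of the symmetric and alternating groups
-/

set_option autoImplicit false

namespace Pool.Agent.W254.PA

open Module Finset

/-- a matrix of prime order has an eigenvalue different from one -/
theorem exists_eigen {W : Type} [AddCommGroup W] [Module ℂ W] [FiniteDimensional ℂ W]
    (T : Module.End ℂ W) {q : ℕ} (hq : q.Prime) (hT : T ^ q = 1) (h1 : T ≠ 1) :
    ∃ (z : ℂ) (v : W), IsPrimitiveRoot z q ∧ v ≠ 0 ∧ T v = z • v := by
  classical
  -- the range of T - 1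
  let R : Submodule ℂ W := LinearMap.range (T - 1)
  have hR : ∀ x ∈ R, T x ∈ R := by
    rintro x ⟨y, rfl⟩
    refine ⟨T y, ?_⟩
    simp [map_sub]
  have hne : Nontrivial R := by
    rw [Submodule.nontrivial_iff_ne_bot]
    intro h
    apply h1
    have h2 : T - 1 = 0 := LinearMap.range_eq_bot.mp h
    exact sub_eq_zero.mp h2
  obtain ⟨z, hz⟩ := Module.End.exists_eigenvalue (T.restrict hR)
  obtain ⟨v, hv⟩ := hz.exists_hasEigenvector
  have hv1 : T (v : W) = z • (v : W) := by
    have := hv.apply_eq_smul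
    have h3 := congrArg Subtype.val this
    simpa using h3
  have hv0 : (v : W) ≠ 0 := fun h => hv.2 (Subtype.ext h)
  have hpow : ∀ k : ℕ, (T ^ k) (v : W) = z ^ k • (v : W) := by
    intro k
    induction k with
    | zero => simp
    | succ k ih => rw [pow_succ', Module.End.mul_apply, ih, map_smul, hv1, smul_smul, pow_succ]
  have hzq : z ^ q = 1 := by
    have h2 := hpow q
    rw [hT, Module.End.one_apply] at h2
    have h3 : (z ^ q - 1) • (v : W) = 0 := by rw [sub_smul, one_smul, ← h2, sub_self]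
    exact sub_eq_zero.mp ((smul_eq_zero.mp h3).resolve_right hv0)
  have hz1 : z ≠ 1 := by
    rintro rfl
    -- sum of the powers kills the range
    have h4 : (∑ i ∈ Finset.range q, T ^ i) * (T - 1) = 0 := by
      rw [geom_sum_mul, hT, sub_self]
    obtain ⟨y, hy⟩ : (v : W) ∈ LinearMap.range (T - 1) := v.2
    have h5 : (∑ i ∈ Finset.range q, T ^ i) (v : W) = 0 := by
      rw [← hy, ← Module.End.mul_apply, h4, LinearMap.zero_apply]
    rw [LinearMap.sum_apply] at h5
    simp only [hpow, one_pow, one_smul, Finset.sum_const, Finset.card_range] at h5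
    have h6 : (q : ℂ) • (v : W) = 0 := by
      rw [← h5, Nat.cast_smul_eq_nsmul]
    rcases smul_eq_zero.mp h6 with h | h
    · exact hq.ne_zero (by exact_mod_cast h)
    · exact hv0 h
  haveI : Fact q.Prime := ⟨hq⟩
  have hord : orderOf z = q := orderOf_eq_prime hzq hz1
  exact ⟨z, v, hord ▸ IsPrimitiveRoot.orderOf z, hv0, hv1⟩

/-- an element of prime order which is conjugate to many of its powers is killed by small
representations -/
theorem small_rep {G : Type*} [Group G] {W : Type} [AddCommGroup W] [Module ℂ W]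
    [FiniteDimensional ℂ W] (ρ : Representation ℂ G W) {q : ℕ} (hq : q.Prime) (c : G)
    (hc : c ^ q = 1) (S : Finset ℕ) (hS : ∀ a ∈ S, a < q ∧ IsConj c (c ^ a))
    (hW : finrank ℂ W < S.card) : ρ c = 1 := by
  classical
  by_contra h1
  obtain ⟨z, v, hz, hv, hzv⟩ := exists_eigen (ρ c) hq (by rw [← map_pow, hc, map_one]) h1
  have hpow : ∀ k : ℕ, (ρ c ^ k) v = z ^ k • v := by
    intro k
    induction k with
    | zero => simp
    | succ k ih => rw [pow_succ', Module.End.mul_apply, ih, map_smul, hzv, smul_smul, pow_succ]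
  have hch : ∀ a : S, ∃ g : G, g * c * g⁻¹ = c ^ (a : ℕ) := fun a => isConj_iff.mp (hS a a.2).2
  choose g hg using hch
  have hinv : ∀ (x : G) (w : W), ρ x (ρ x⁻¹ w) = w := by
    intro x w
    rw [← Module.End.mul_apply, ← map_mul, mul_inv_cancel, map_one, Module.End.one_apply]
  have hli : LinearIndependent ℂ (fun a : S => ρ (g a)⁻¹ v) := by
    refine Module.End.eigenvectors_linearIndependent' (ρ c) (fun a : S => z ^ (a : ℕ)) ?_ _ ?_
    · intro a b hab
      exact Subtype.ext (hz.pow_inj (hS a a.2).1 (hS b b.2).1 hab)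
    · intro a
      refine ⟨?_, ?_⟩
      · rw [Module.End.mem_eigenspace_iff]
        have h2 : c * (g a)⁻¹ = (g a)⁻¹ * c ^ (a : ℕ) := by
          rw [← hg a]; group
        rw [← Module.End.mul_apply, ← map_mul, h2, map_mul, Module.End.mul_apply, map_pow, hpow,
          map_smul]
      · intro h0
        apply hv
        rw [← hinv (g a) v, h0, map_zero]
  have := hli.fintype_card_le_finrank
  rw [Fintype.card_coe] at this
  omega

/-- existence of cycles -/
theorem exists_cycle (m q : ℕ) (hq : q.Prime) (hqm : q ≤ m) :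
    ∃ c : Equiv.Perm (Fin m), c.IsCycle ∧ c.support.card = q ∧ c ^ q = 1 ∧ c ≠ 1 ∧
      ∀ a, 0 < a → a < q → IsConj c (c ^ a) := by
  classical
  obtain ⟨c, hc⟩ := (Equiv.Perm.exists_with_cycleType_iff (Fin m) (m := {q})).mpr
    ⟨by simpa using hqm, by simpa using hq.two_le⟩
  have hcyc : c.IsCycle := by
    rw [← Equiv.Perm.card_cycleType_eq_one, hc]
    simp
  have hsup : c.support.card = q := by
    rw [← Equiv.Perm.sum_cycleType, hc]
    simp
  have hord : orderOf c = q := by rw [hcyc.orderOf, hsup]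
  refine ⟨c, hcyc, hsup, ?_, hcyc.ne_one, ?_⟩
  · rw [← hord, pow_orderOf_eq_one]
  · intro a ha haq
    have h1 : (c ^ a).IsCycle := hcyc.isCycle_pow_pos_of_lt_prime_order (hord ▸ hq) a ha
      (hord.symm ▸ haq)
    refine (hcyc.isConj_iff h1).mpr ?_
    rw [hcyc.support_pow_of_pos_of_lt_orderOf ha (hord.symm ▸ haq)]

/-- small representations of the symmetric group are abelian -/
theorem perm_small {m N : ℕ} (hm : 5 ≤ m) (hmN : 2 * N + 2 ≤ m) {W : Type} [AddCommGroup W]
    [Module ℂ W] [FiniteDimensional ℂ W] (ρ : Representation ℂ (Equiv.Perm (Fin m)) W)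
    (hW : finrank ℂ W ≤ N) (g h : Equiv.Perm (Fin m)) : ρ (g * h) = ρ (h * g) := by
  classical
  obtain ⟨q, hq, hq1, hq2⟩ := Nat.exists_prime_lt_and_le_two_mul (N + 1) (by omega)
  obtain ⟨c, -, -, hcq, hc1, hconj⟩ := exists_cycle m q hq (by omega)
  have h1 : ρ c = 1 := by
    refine small_rep ρ hq c hcq (Finset.Ioo 0 q) ?_ ?_
    · intro a ha
      rw [Finset.mem_Ioo] at ha
      exact ⟨ha.2, hconj a ha.1 ha.2⟩
    · rw [Nat.card_Ioo]; omega
  -- the kernel
  let f : Equiv.Perm (Fin m) →* Module.End ℂ W := ρ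
  let Nn : Subgroup (Equiv.Perm (Fin m)) := f.ker
  have hnt : Nontrivial Nn := by
    refine ⟨⟨⟨c, MonoidHom.mem_ker.mpr h1⟩, 1, ?_⟩⟩
    intro h
    exact hc1 (congrArg Subtype.val h)
  have hle := Equiv.Perm.alternatingGroup_le_of_normal (α := Fin m) (by simpa using hm) hnt
  have h2 : g * h * (h * g)⁻¹ ∈ alternatingGroup (Fin m) := by
    rw [Equiv.Perm.mem_alternatingGroup]
    simp only [map_mul, map_inv, mul_inv_rev]
    rw [mul_comm (Equiv.Perm.sign g)⁻¹, mul_mul_mul_comm, mul_comm (Equiv.Perm.sign g)]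
    simp
  have h3 : ρ (g * h * (h * g)⁻¹) = 1 := MonoidHom.mem_ker.mp (hle h2)
  calc ρ (g * h) = ρ (g * h * (h * g)⁻¹ * (h * g)) := by rw [inv_mul_cancel_right]
    _ = ρ (h * g) := by rw [map_mul, h3, one_mul]

/-- small representations of the alternating group are trivial -/
theorem alt_small {m N : ℕ} (hm : 5 ≤ m) (hmN : 2 * N + 4 ≤ m) {W : Type} [AddCommGroup W]
    [Module ℂ W] [FiniteDimensional ℂ W] (ρ : Representation ℂ (alternatingGroup (Fin m)) W)
    (hW : finrank ℂ W ≤ N) (g h : alternatingGroup (Fin m)) : ρ (g * h) = ρ (h * g) := by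
  classical
  rcases Nat.eq_zero_or_pos N with hN | hN
  · have : Subsingleton W := by
      rw [← Module.finrank_zero_iff (R := ℂ)]
      omega
    exact Subsingleton.elim _ _
  obtain ⟨q, hq, hq1, hq2⟩ := Nat.exists_prime_lt_and_le_two_mul (N + 1) (by omega)
  obtain ⟨c, hcyc, hsup, hcq, hc1, hconj⟩ := exists_cycle m q hq (by omega)
  have hsign : c ∈ alternatingGroup (Fin m) := by
    rw [Equiv.Perm.mem_alternatingGroup, hcyc.sign, hsup]
    have hodd : Odd q := hq.odd_of_ne_two (by omega)
    rw [hodd.neg_one_pow]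
    simp
  let c' : alternatingGroup (Fin m) := ⟨c, hsign⟩
  have h1 : ρ c' = 1 := by
    refine small_rep ρ hq c' (Subtype.ext hcq) (Finset.Ioo 0 q) ?_ ?_
    · intro a ha
      rw [Finset.mem_Ioo] at ha
      refine ⟨ha.2, alternatingGroup.isConj_of (hconj a ha.1 ha.2) ?_⟩
      rw [Fintype.card_fin]
      have : (c' : Equiv.Perm (Fin m)).support.card = q := hsup
      omega
    · rw [Nat.card_Ioo]; omega
  have : IsSimpleGroup (alternatingGroup (Fin m)) :=
    alternatingGroup.isSimpleGroup (by simpa using hm)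
  let f : alternatingGroup (Fin m) →* Module.End ℂ W := ρ
  have hker : f.ker = ⊤ := by
    rcases (inferInstance : f.ker.Normal).eq_bot_or_eq_top with h | h
    · exfalso
      have h2 : c' ∈ f.ker := MonoidHom.mem_ker.mpr h1
      rw [h, Subgroup.mem_bot] at h2
      exact hc1 (congrArg Subtype.val h2)
    · exact h
  have hall : ∀ x, ρ x = 1 := fun x => MonoidHom.mem_ker.mp (by
    change x ∈ f.ker
    rw [hker]; exact Subgroup.mem_top x)
  rw [hall, hall]

end Pool.Agent.W254.PA
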