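import Pool.Agent.W254.PA.LeoF
import Pool.Agent.W254.PA.LeoG

/-!
# Final forms of the restricted Leopoldt statements
-/

set_option autoImplicit false

namespace Pool.Agent.W254.PA

open Module Finset NumberField MvPolynomial Pool.Agent.W254.Ab
open Pool.Agent.W245.PB (IsIwasawaLog brumer)

/-- finitely many intermediate fields below a finite extension -/
theorem finite_below (F₀ : IntermediateField ℚ (AlgebraicClosure ℚ)) (h : FiniteDimensional ℚ F₀) :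
    {K : IntermediateField ℚ (AlgebraicClosure ℚ) | K ≤ F₀}.Finite := by
  have h1 : Finite (IntermediateField ℚ F₀) := by
    obtain ⟨a, ha⟩ := Field.exists_primitive_element ℚ F₀
    exact Field.finite_intermediateField_of_exists_primitive_element ℚ F₀ ⟨a, ha⟩
  refine (Set.finite_range (fun E : IntermediateField ℚ F₀ => IntermediateField.lift E)).subset ?_
  intro K hK
  exact ⟨IntermediateField.restrict hK, IntermediateField.lift_restrict hK⟩

variable {p : ℕ} [hp : Fact p.Prime] {L : PadicAlgCl p → PadicAlgCl p} (hL : IsIwasawaLog p L)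

include hL in
/-- both forms of the first result -/
theorem almost_all
    (A : Submodule (QA (PadicAlgCl p)) (PadicAlgCl p)) [FiniteDimensional (QA (PadicAlgCl p)) A] :
    (∃ F₀ : IntermediateField ℚ (AlgebraicClosure ℚ), FiniteDimensional ℚ F₀ ∧ Normal ℚ F₀ ∧
      ∀ K : IntermediateField ℚ (AlgebraicClosure ℚ), K ⊓ F₀ = ⊥ →
        ∀ (σ : K →+* PadicAlgCl p) (r : ℕ) (ε : Fin r → (𝓞 K)ˣ),
        (∀ m : Fin r → ℤ, ∏ i, ε i ^ m i = 1 → m = 0) →
        ∀ a : Fin r → PadicAlgCl p, (∃ y : PadicAlgCl p, ∀ i, ∃ x ∈ A, a i = y * x) →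
          ∑ i, a i * L (σ ((ε i : 𝓞 K) : K)) = 0 → a = 0) ∧
    {K : IntermediateField ℚ (AlgebraicClosure ℚ) |
      (∀ M : IntermediateField ℚ (AlgebraicClosure ℚ), M ≤ K → M = ⊥ ∨ M = K) ∧
        ∃ (σ : K →+* PadicAlgCl p) (r : ℕ) (ε : Fin r → (𝓞 K)ˣ) (a : Fin r → PadicAlgCl p),
        (∀ m : Fin r → ℤ, ∏ i, ε i ^ m i = 1 → m = 0) ∧
        (∃ y : PadicAlgCl p, ∀ i, ∃ x ∈ A, a i = y * x) ∧
          ∑ i, a i * L (σ ((ε i : 𝓞 K) : K)) = 0 ∧ a ≠ 0}.Finite := by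
  have h := exists_field_rat hL A
  refine ⟨h, ?_⟩
  obtain ⟨F₀, h1, -, h3⟩ := h
  refine (finite_below F₀ h1).subset ?_
  rintro K ⟨hK, σ, r, ε, a, hind, ha, h0, hne⟩
  by_contra hKF
  rcases hK (K ⊓ F₀) inf_le_left with h4 | h4
  · exact hne (h3 K h4 σ r ε hind a ha h0)
  · exact hKF (inf_eq_left.mp h4)

include hL in
/-- the Galois group criterion with the symmetric and alternating groups -/
theorem gal_groups {n : ℕ} (t : Fin n → PadicAlgCl p) (D : ℕ) {F : Type} [Field F] [NumberField F]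
    [IsGalois ℚ F]
    (hG : (∀ (W : Type) [AddCommGroup W] [Module ℂ W] [FiniteDimensional ℂ W]
        (ρ : Representation ℂ (F ≃ₐ[ℚ] F) W), finrank ℂ W ≤ (4 * D) ^ n - 2 ^ n →
          ∀ g h, ρ (g * h) = ρ (h * g)) ∨
      (∃ m : ℕ, 5 ≤ m ∧ 2 * ((4 * D) ^ n - 2 ^ n) + 2 ≤ m ∧
        Nonempty ((F ≃ₐ[ℚ] F) ≃* Equiv.Perm (Fin m))) ∨
      (∃ m : ℕ, 5 ≤ m ∧ 2 * ((4 * D) ^ n - 2 ^ n) + 4 ≤ m ∧
        Nonempty ((F ≃ₐ[ℚ] F) ≃* alternatingGroup (Fin m))))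
    {K : Type} [Field K] [NumberField K] (j : K →+* F) (r : ℕ) (ε : Fin r → (𝓞 K)ˣ)
    (hind : ∀ m : Fin r → ℤ, ∏ i, ε i ^ m i = 1 → m = 0) (a : Fin r → PadicAlgCl p)
    (ha : PolyExp t D a) (h0 : ∀ σ : K →+* PadicAlgCl p, ∑ i, a i * L (σ ((ε i : 𝓞 K) : K)) = 0) :
    a = 0 := by
  refine gal_poly hL t D ?_ j r ε hind a ha h0
  rcases hG with hG | ⟨m, hm5, hm, ⟨e⟩⟩ | ⟨m, hm5, hm, ⟨e⟩⟩
  · exact hG
  · intro W _ _ _ ρ hW g h
    let ρ' : Representation ℂ (Equiv.Perm (Fin m)) W :=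
      MonoidHom.comp ρ (e.symm : Equiv.Perm (Fin m) →* (F ≃ₐ[ℚ] F))
    have h1 : ∀ x, ρ' x = ρ (e.symm x) := fun _ => rfl
    have h2 := perm_small hm5 hm ρ' hW (e g) (e h)
    rw [← map_mul e g h, ← map_mul e h g, h1, h1, e.symm_apply_apply, e.symm_apply_apply] at h2
    exact h2
  · intro W _ _ _ ρ hW g h
    let ρ' : Representation ℂ (alternatingGroup (Fin m)) W :=
      MonoidHom.comp ρ (e.symm : alternatingGroup (Fin m) →* (F ≃ₐ[ℚ] F))
    have h1 : ∀ x, ρ' x = ρ (e.symm x) := fun _ => rfl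
    have h2 := alt_small hm5 hm ρ' hW (e g) (e h)
    rw [← map_mul e g h, ← map_mul e h g, h1, h1, e.symm_apply_apply, e.symm_apply_apply] at h2
    exact h2

end Pool.Agent.W254.PA
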