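import Pool.Agent.W254.PA.LeoF
import Pool.Agent.W254.Ab.Trunc
import Pool.Agent.W254.Ab.Trans

/-!
# Leopoldt relations over number fields with a doubly transitive Galois group
-/

set_option autoImplicit false

namespace Pool.Agent.W254.PA

open Module Finset NumberField Pool.Agent.W254.Ab
open Pool.Agent.W245.PB (IsIwasawaLog brumer)

section

variable {p : ℕ} [hp : Fact p.Prime] {L : PadicAlgCl p → PadicAlgCl p} (hL : IsIwasawaLog p L)
variable {K : Type} [Field K] [NumberField K] (ι : AlgebraicClosure ℚ →+* PadicAlgCl p)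

/-- the permutations of the embeddings induced by automorphisms of the algebraic closure -/
def galPerm (K : Type) [Field K] : Subgroup (Equiv.Perm (K →+* AlgebraicClosure ℚ)) where
  carrier := {π | ∃ g : AlgebraicClosure ℚ ≃+* AlgebraicClosure ℚ,
    ∀ τ, π τ = (g : AlgebraicClosure ℚ →+* AlgebraicClosure ℚ).comp τ}
  mul_mem' := by
    rintro π π' ⟨g, hg⟩ ⟨g', hg'⟩
    refine ⟨g'.trans g, fun τ => ?_⟩
    rw [Equiv.Perm.mul_apply, hg', hg]
    rfl
  one_mem' := ⟨RingEquiv.refl _, fun τ => by ext x; rfl⟩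
  inv_mem' := by
    rintro π ⟨g, hg⟩
    refine ⟨g.symm, fun τ => ?_⟩
    rw [Equiv.Perm.inv_eq_iff_eq, hg]
    ext x
    simp

theorem mem_galPerm {π : Equiv.Perm (K →+* AlgebraicClosure ℚ)} :
    π ∈ galPerm K ↔ ∃ g : AlgebraicClosure ℚ ≃+* AlgebraicClosure ℚ,
      ∀ τ, π τ = (g : AlgebraicClosure ℚ →+* AlgebraicClosure ℚ).comp τ := Iff.rfl

/-- automorphisms as permutations -/
noncomputable def toPerm (g : AlgebraicClosure ℚ ≃+* AlgebraicClosure ℚ) :
    Equiv.Perm (K →+* AlgebraicClosure ℚ) where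
  toFun τ := (g : AlgebraicClosure ℚ →+* AlgebraicClosure ℚ).comp τ
  invFun τ := (g.symm : AlgebraicClosure ℚ →+* AlgebraicClosure ℚ).comp τ
  left_inv τ := by ext x; simp
  right_inv τ := by ext x; simp

include hL in
/-- the sum of the logarithms of the conjugates of a unit vanishes -/
theorem sum_conj_zero (u : (𝓞 K)ˣ) :
    ∑ τ : K →+* AlgebraicClosure ℚ, L (ι (τ ((u : 𝓞 K) : K))) = 0 := by
  classical
  have hu := isU_unit u
  have h0 : Algebra.norm ℚ ((u : 𝓞 K) : K) ≠ 0 := Algebra.norm_ne_zero_iff.mpr hu.ne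
  have hN : IsU (Algebra.norm ℚ ((u : 𝓞 K) : K)) := by
    refine ⟨h0, Algebra.isIntegral_norm ℚ hu.int, ?_⟩
    have h1 : (Algebra.norm ℚ ((u : 𝓞 K) : K))⁻¹ = Algebra.norm ℚ (((u : 𝓞 K) : K))⁻¹ := by
      apply inv_eq_of_mul_eq_one_right
      rw [← map_mul, mul_inv_cancel₀ hu.ne, map_one]
    rw [h1]
    exact Algebra.isIntegral_norm ℚ hu.inv
  have h1 := sq_eq_one_of_isU hN
  have h2 := Algebra.norm_eq_prod_embeddings (K := ℚ) (L := K) (E := AlgebraicClosure ℚ)
    ((u : 𝓞 K) : K)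
  have h3 : ∏ τ : K →+* AlgebraicClosure ℚ, τ ((u : 𝓞 K) : K) =
      ∏ σ : K →ₐ[ℚ] AlgebraicClosure ℚ, σ ((u : 𝓞 K) : K) := by
    refine Fintype.prod_equiv (RingHom.equivRatAlgHom K (AlgebraicClosure ℚ)) _ _ ?_
    intro τ
    rfl
  rw [← h3] at h2
  have h4 : L (ι (∏ τ : K →+* AlgebraicClosure ℚ, τ ((u : 𝓞 K) : K))) = 0 := by
    apply log_root hL (M := 2) (by norm_num)
    rw [← map_pow, ← h2, ← map_pow, h1, map_one, map_one]
  rw [map_prod, hL.prod] at h4
  · exact h4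
  · intro τ _
    exact (map_ne_zero ι).mpr ((map_ne_zero τ).mpr hu.ne)

include hL in
/-- the general inequality -/
theorem two_trans_main
    (h2 : ∀ τ₁ τ₂ τ₁' τ₂' : K →+* AlgebraicClosure ℚ, τ₁ ≠ τ₂ → τ₁' ≠ τ₂' →
      ∃ g : AlgebraicClosure ℚ ≃+* AlgebraicClosure ℚ,
        (g : AlgebraicClosure ℚ →+* AlgebraicClosure ℚ).comp τ₁ = τ₁' ∧
        (g : AlgebraicClosure ℚ →+* AlgebraicClosure ℚ).comp τ₂ = τ₂')
    (r : ℕ) (ε : Fin r → (𝓞 K)ˣ) (hind : ∀ m : Fin r → ℤ, ∏ i, ε i ^ m i = 1 → m = 0)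
    (a : Fin r → PadicAlgCl p) (ha : a ≠ 0)
    (h0 : ∀ σ : K →+* PadicAlgCl p, ∑ i, a i * L (σ ((ε i : 𝓞 K) : K)) = 0)
    (A B : Submodule (QA (PadicAlgCl p)) (PadicAlgCl p)) [FiniteDimensional (QA (PadicAlgCl p)) A]
    [FiniteDimensional (QA (PadicAlgCl p)) B] (hA : ∀ i, a i ∈ A)
    (s δ : ℕ) (hs : s ≤ finrank (QA (PadicAlgCl p)) B)
    (hδ : finrank (QA (PadicAlgCl p)) (B * A : Submodule (QA (PadicAlgCl p)) (PadicAlgCl p)) ≤
      finrank (QA (PadicAlgCl p)) B + δ) :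
    (finrank ℚ K - 1) * s ≤ (δ + s) * (δ + s - 1) := by
  classical
  have hι : Nonempty (AlgebraicClosure ℚ →+* PadicAlgCl p) := by
    haveI : Algebra.IsAlgebraic ℚ (AlgebraicClosure ℚ) := AlgebraicClosure.isAlgebraic ℚ
    exact ⟨((IsAlgClosed.lift : AlgebraicClosure ℚ →ₐ[ℚ] PadicAlgCl p) :
      AlgebraicClosure ℚ →+* PadicAlgCl p)⟩
  obtain ⟨ι⟩ := hι
  let T := K →+* AlgebraicClosure ℚ
  let x : Fin r × T → PadicAlgCl p := fun j => L (ι (j.2 ((ε j.1 : 𝓞 K) : K)))
  have hxr : ∀ i, ∑ τ : T, x (i, τ) = 0 := fun i => sum_conj_zero hL ι (ε i)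
  obtain ⟨i₀, hi₀⟩ : ∃ i, a i ≠ 0 := by
    by_contra h
    push Not at h
    exact ha (funext h)
  have hAne : A ≠ ⊥ := by
    intro h
    have := hA i₀
    rw [h, Submodule.mem_bot] at this
    exact hi₀ this
  -- the vectors
  let u : T → ((PadicAlgCl p →ₗ[ℚ] ℚ) → PadicAlgCl p) := fun τ φ =>
    ∑ i, a i * ((φ (x (i, τ)) : ℚ) : PadicAlgCl p)
  have hsum : ∑ τ, u τ = 0 := by
    funext φ
    rw [Finset.sum_apply, Pi.zero_apply]
    change ∑ τ, ∑ i, a i * ((φ (x (i, τ)) : ℚ) : PadicAlgCl p) = 0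
    rw [Finset.sum_comm]
    apply Finset.sum_eq_zero
    intro i _
    rw [← Finset.mul_sum, ← Rat.cast_sum, ← map_sum, hxr, map_zero, Rat.cast_zero, mul_zero]
  have hstab : ∀ π ∈ galPerm K, ∀ c : T → PadicAlgCl p, ∑ τ, c τ • u τ = 0 →
      ∑ τ, c τ • u (π τ) = 0 := by
    rintro π ⟨g, hg⟩ c hc
    funext φ
    obtain ⟨φ', hφ'⟩ := exists_func_val x (fun j => φ (x (j.1, π j.2))) (by
      intro z hz
      have h3 : ∑ j, (z j : PadicAlgCl p) * L (ι (j.2 ((ε j.1 : 𝓞 K) : K))) = 0 := by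
        rw [← hz]
        apply Finset.sum_congr rfl
        intro j _
        rw [Rat.smul_def]
      have h4 := compat hL ι (J := Fin r × T) Finset.univ (fun j => j.2 ((ε j.1 : 𝓞 K) : K))
        (fun j => (isU_unit _).map j.2) z h3
        (g : AlgebraicClosure ℚ →+* AlgebraicClosure ℚ)
      have h5 : ∑ j, z j • x (j.1, π j.2) = 0 := by
        rw [← h4]
        apply Finset.sum_congr rfl
        intro j _
        rw [Rat.smul_def]
        change _ * L (ι ((π j.2) ((ε j.1 : 𝓞 K) : K))) = _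
        rw [hg]
        rfl
      have h6 := congrArg φ h5
      rw [map_sum, map_zero] at h6
      rw [← h6]
      apply Finset.sum_congr rfl
      intro j _
      rw [map_smul, smul_eq_mul])
    have h7 := congrFun hc φ'
    rw [Finset.sum_apply, Pi.zero_apply] at h7 ⊢
    rw [← h7]
    apply Finset.sum_congr rfl
    intro τ _
    rw [Pi.smul_apply, Pi.smul_apply]
    congr 1
    change ∑ i, a i * ((φ (x (i, π τ)) : ℚ) : PadicAlgCl p) =
      ∑ i, a i * ((φ' (x (i, τ)) : ℚ) : PadicAlgCl p)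
    apply Finset.sum_congr rfl
    intro i _
    rw [hφ' (i, τ)]
  -- not all the vectors vanish
  obtain ⟨τ₀⟩ : Nonempty T := inferInstance
  have hlog : LinearIndependent ℚ (fun i => x (i, τ₀)) := by
    refine indep_of_mult hL (ι.comp τ₀) (fun i => ((ε i : 𝓞 K) : K)) (fun i => isU_unit _) ?_
    intro m hm
    apply hind m
    apply Units.ext
    apply NumberField.RingOfIntegers.ext
    rw [coe_prod_zpow, hm]
    rfl
  have hu : u ≠ 0 := by
    intro hu
    obtain ⟨φ, hφ⟩ := exists_func_val (fun i => x (i, τ₀)) (fun i => if i = i₀ then 1 else 0) (by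
      intro z hz
      have h3 := Fintype.linearIndependent_iff.mp hlog z hz
      apply Finset.sum_eq_zero
      intro i _
      rw [h3 i, zero_mul])
    have h4 : u τ₀ φ = a i₀ := by
      change ∑ i, a i * ((φ (x (i, τ₀)) : ℚ) : PadicAlgCl p) = a i₀
      rw [Finset.sum_eq_single i₀]
      · rw [hφ i₀, if_pos rfl, Rat.cast_one, mul_one]
      · intro b _ hb
        rw [hφ b, if_neg hb, Rat.cast_zero, mul_zero]
      · intro h; exact absurd (Finset.mem_univ i₀) h
    apply hi₀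
    rw [← h4, hu]
    rfl
  have hP2 : ∀ τ₁ τ₂ τ₁' τ₂' : T, τ₁ ≠ τ₂ → τ₁' ≠ τ₂' →
      ∃ π ∈ galPerm K, π τ₁ = τ₁' ∧ π τ₂ = τ₂' := by
    intro τ₁ τ₂ τ₁' τ₂' h h'
    obtain ⟨g, h3, h4⟩ := h2 τ₁ τ₂ τ₁' τ₂' h h'
    exact ⟨toPerm g, ⟨g, fun τ => rfl⟩, h3, h4⟩
  have hconst := two_trans u hsum (galPerm K) hP2 hstab hu
  -- independence of all but one of the vectors
  have hli : LinearIndependent (PadicAlgCl p) (fun τ : {τ : T // τ ≠ τ₀} => u τ) := by
    rw [Fintype.linearIndependent_iff]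
    intro c hc
    obtain ⟨κ, hκ⟩ := hconst (fun τ => if h : τ ≠ τ₀ then c ⟨τ, h⟩ else 0) (by
      rw [← hc, ← Finset.add_sum_erase _ _ (Finset.mem_univ τ₀), dif_neg (not_not.mpr rfl),
        zero_smul, zero_add]
      rw [Finset.sum_subtype (univ.erase τ₀) (p := fun τ => τ ≠ τ₀) (by simp)]
      apply Finset.sum_congr rfl
      intro τ _
      rw [dif_pos τ.2])
    have hκ0 : κ = 0 := by
      rw [← hκ τ₀, dif_neg (not_not.mpr rfl)]
    rintro ⟨τ, hτ⟩
    have h3 := hκ τ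
    rw [dif_pos hτ, hκ0] at h3
    exact h3
  -- coordinates
  obtain ⟨κ, b, hb, hspan, hbi⟩ := exists_linearIndependent' ℚ x
  haveI : Finite κ := Finite.of_injective b hb
  haveI : Fintype κ := Fintype.ofFinite κ
  have hq : ∀ j, ∃ q : κ → ℚ, ∑ k, q k • x (b k) = x j := by
    intro j
    have h3 : x j ∈ Submodule.span ℚ (Set.range (x ∘ b)) := by
      rw [hspan]
      exact Submodule.subset_span ⟨j, rfl⟩
    exact (Submodule.mem_span_range_iff_exists_fun ℚ).mp h3
  choose q hq using hq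
  let e := (Finsupp.linearEquivFunOnFinite (PadicAlgCl p) (PadicAlgCl p) κ).symm
  have he : ∀ v k, e v k = v k := fun v k => rfl
  let U : T → (κ →₀ PadicAlgCl p) := fun τ =>
    e (fun k => ∑ i, a i * ((q (i, τ) k : ℚ) : PadicAlgCl p))
  let Ψ : (κ →₀ PadicAlgCl p) →ₗ[PadicAlgCl p] ((PadicAlgCl p →ₗ[ℚ] ℚ) → PadicAlgCl p) :=
    { toFun := fun f φ => ∑ k, f k * ((φ (x (b k)) : ℚ) : PadicAlgCl p)
      map_add' := by
        intro f g; funext φ
        simp only [Finsupp.add_apply, add_mul, Finset.sum_add_distrib, Pi.add_apply]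
      map_smul' := by
        intro c f; funext φ
        simp only [Finsupp.smul_apply, smul_eq_mul, Pi.smul_apply, RingHom.id_apply,
          Finset.mul_sum, mul_assoc] }
  have hΨ : ∀ τ, Ψ (U τ) = u τ := by
    intro τ
    funext φ
    change ∑ k, (∑ i, a i * ((q (i, τ) k : ℚ) : PadicAlgCl p)) *
      ((φ (x (b k)) : ℚ) : PadicAlgCl p) = ∑ i, a i * ((φ (x (i, τ)) : ℚ) : PadicAlgCl p)
    simp only [Finset.sum_mul]
    rw [Finset.sum_comm]
    apply Finset.sum_congr rfl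
    intro i _
    rw [← hq (i, τ), map_sum, Rat.cast_sum, Finset.mul_sum]
    apply Finset.sum_congr rfl
    intro k _
    rw [map_smul, smul_eq_mul, Rat.cast_mul]
    ring
  have hUli : LinearIndependent (PadicAlgCl p) (fun τ : {τ : T // τ ≠ τ₀} => U τ) := by
    apply LinearIndependent.of_comp Ψ
    have : (Ψ ∘ fun τ : {τ : T // τ ≠ τ₀} => U τ) = fun τ : {τ : T // τ ≠ τ₀} => u τ := by
      funext τ
      exact hΨ τ
    rw [this]
    exact hli
  have hcardT : Fintype.card {τ : T // τ ≠ τ₀} = finrank ℚ K - 1 := by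
    rw [Fintype.card_subtype_compl, Fintype.card_subtype_eq]
    rw [← Embeddings.card K (AlgebraicClosure ℚ)]
  let eT := Fintype.equivFinOfCardEq hcardT
  have hw : LinearIndependent (QA (PadicAlgCl p)) (fun k => x (b k)) := by
    have h1 := optP_indep hL (ι := κ) (fun k => ι ((b k).2 ((ε (b k).1 : 𝓞 K) : K)))
      (fun k => (((isU_unit _).map (b k).2).map ι).ne)
      (fun k => (((isU_unit _).map (b k).2).map ι).alg) hbi
    exact h1.comp some (Option.some_injective _)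
  refine rel_trunc (hyp_padic hL) (fun k => x (b k)) hw
    (fun k => log_memP (((isU_unit _).map (b k).2).map ι).ne
      (((isU_unit _).map (b k).2).map ι).alg) A B hAne _
    (fun m => U (eT.symm m)) (hUli.comp eT.symm eT.symm.injective) ?_ ?_ s δ hs hδ
  · intro m k
    change ∑ i, a i * ((q (i, _) k : ℚ) : PadicAlgCl p) ∈ A
    apply Submodule.sum_mem
    intro i _
    have h3 := A.smul_mem (algebraMap ℚ (QA (PadicAlgCl p)) (q (i, (eT.symm m : T)) k)) (hA i)
    rw [Algebra.smul_def] at h3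
    rw [mul_comm]
    convert h3 using 2
    exact (eq_ratCast ((algebraMap (QA (PadicAlgCl p)) (PadicAlgCl p)).comp
      (algebraMap ℚ (QA (PadicAlgCl p)))) (q (i, (eT.symm m : T)) k)).symm
  · intro m
    rw [Finsupp.sum_fintype _ _ (fun k => zero_mul _)]
    have h3 := h0 (ι.comp (eT.symm m : T))
    rw [← h3]
    change ∑ k, (∑ i, a i * ((q (i, _) k : ℚ) : PadicAlgCl p)) * x (b k) = _
    simp only [Finset.sum_mul]
    rw [Finset.sum_comm]
    apply Finset.sum_congr rfl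
    intro i _
    have h4 := hq (i, (eT.symm m : T))
    have h5 : L ((ι.comp (eT.symm m : T)) ((ε i : 𝓞 K) : K)) = x (i, (eT.symm m : T)) := rfl
    rw [h5, ← h4, Finset.mul_sum]
    apply Finset.sum_congr rfl
    intro k _
    rw [Rat.smul_def]
    ring

end

end Pool.Agent.W254.PA
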