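import Pool.Agent.W254.PA.LeoT

/-!
# Consequences for the exponents of Leopoldt relations
-/

set_option autoImplicit false

namespace Pool.Agent.W254.PA

open Module Finset NumberField MvPolynomial Pool.Agent.W254.Ab
open Pool.Agent.W245.PB (IsIwasawaLog brumer)

/-- `K` has a doubly transitive Galois group -/
def TwoTransitive (K : Type) [Field K] : Prop :=
  ∀ τ₁ τ₂ τ₁' τ₂' : K →+* AlgebraicClosure ℚ, τ₁ ≠ τ₂ → τ₁' ≠ τ₂' →
    ∃ g : AlgebraicClosure ℚ ≃+* AlgebraicClosure ℚ,
      (g : AlgebraicClosure ℚ →+* AlgebraicClosure ℚ).comp τ₁ = τ₁' ∧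
      (g : AlgebraicClosure ℚ →+* AlgebraicClosure ℚ).comp τ₂ = τ₂'

/-- the growth argument -/
theorem hilbert_arith {K L : Type*} [Field K] [Field L] [Algebra K L] (A : Submodule K L)
    [FiniteDimensional K A] (hA : A ≠ ⊥) (d : ℕ)
    (h : ∀ (B : Submodule K L) [FiniteDimensional K B] (s δ : ℕ), s ≤ finrank K B →
      finrank K (B * A : Submodule K L) ≤ finrank K B + δ →
      (d - 1) * s ≤ (δ + s) * (δ + s - 1)) (D c : ℕ)
    (hD : ∀ k : ℕ, finrank K (A ^ k : Submodule K L) ≤ k * D + c) : d ≤ max 1 (4 * D - 1) := by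
  have hfd : ∀ k : ℕ, FiniteDimensional K (A ^ k : Submodule K L) := fun k =>
    Module.Finite.iff_fg.mpr (Submodule.FG.pow (Module.Finite.iff_fg.mp inferInstance) k)
  have hpos : ∀ k : ℕ, 1 ≤ finrank K (A ^ k : Submodule K L) := by
    intro k
    obtain ⟨u, huA, hu⟩ := Submodule.exists_mem_ne_zero_of_ne_bot hA
    have := hfd k
    apply Nat.one_le_iff_ne_zero.mpr
    intro h0
    have h1 : (A ^ k : Submodule K L) = ⊥ := Submodule.finrank_eq_zero.mp h0
    have h2 : u ^ k ∈ (A ^ k : Submodule K L) := Submodule.pow_mem_pow A huA k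
    rw [h1, Submodule.mem_bot] at h2
    exact pow_ne_zero k hu h2
  by_contra hcon
  rw [not_le, max_lt_iff] at hcon
  obtain ⟨hd1, hd2⟩ := hcon
  -- strict growth
  have hstep : ∀ k : ℕ, finrank K (A ^ k : Submodule K L) + 1 ≤
      finrank K (A ^ (k + 1) : Submodule K L) := by
    intro k
    by_contra hk
    have := hfd k
    have h1 := h (A ^ k) 1 0 (hpos k) (by rw [← pow_succ]; omega)
    simp at h1
    omega
  have hlow : ∀ k : ℕ, k + 1 ≤ finrank K (A ^ k : Submodule K L) := by
    intro k
    induction k with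
    | zero => exact hpos 0
    | succ k ih => have := hstep k; omega
  have hstep2 : ∀ k : ℕ, D ≤ finrank K (A ^ k : Submodule K L) →
      finrank K (A ^ k : Submodule K L) + D + 1 ≤ finrank K (A ^ (k + 1) : Submodule K L) := by
    intro k hk
    rcases Nat.eq_zero_or_pos D with h0 | h0
    · subst h0; exact hstep k
    by_contra hk2
    have := hfd k
    have h1 := h (A ^ k) D D hk (by rw [← pow_succ]; omega)
    have h2 : (D + D) * (D + D - 1) = (2 * (D + D - 1)) * D := by ring
    rw [h2] at h1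
    have h3 := Nat.le_of_mul_le_mul_right h1 h0
    omega
  have hlow2 : ∀ k : ℕ, k * (D + 1) ≤ finrank K (A ^ (D + k) : Submodule K L) := by
    intro k
    induction k with
    | zero => simp
    | succ k ih =>
      have h1 := hlow (D + k)
      have h2 := hstep2 (D + k) (by omega)
      rw [add_mul, one_mul, ← add_assoc D k 1]
      omega
  have h1 := hlow2 (D * D + c + 1)
  have h2 := hD (D + (D * D + c + 1))
  have h3 : (D * D + c + 1) * (D + 1) = (D + (D * D + c + 1)) * D + c + 1 := by ring
  omega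

variable {p : ℕ} [hp : Fact p.Prime] {L : PadicAlgCl p → PadicAlgCl p} (hL : IsIwasawaLog p L)

include hL in
theorem two_trans_final {K : Type} [Field K] [NumberField K] (h2 : TwoTransitive K)
    (r : ℕ) (ε : Fin r → (𝓞 K)ˣ) (hind : ∀ m : Fin r → ℤ, ∏ i, ε i ^ m i = 1 → m = 0)
    (a : Fin r → PadicAlgCl p) (ha : a ≠ 0)
    (h0 : ∀ σ : K →+* PadicAlgCl p, ∑ i, a i * L (σ ((ε i : 𝓞 K) : K)) = 0)
    (A : Submodule (QA (PadicAlgCl p)) (PadicAlgCl p))
    (hA : A = Submodule.span (QA (PadicAlgCl p)) (Set.range a)) :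
    (∀ (B : Submodule (QA (PadicAlgCl p)) (PadicAlgCl p))
      [FiniteDimensional (QA (PadicAlgCl p)) B] (s δ : ℕ), s ≤ finrank (QA (PadicAlgCl p)) B →
      finrank (QA (PadicAlgCl p)) (B * A : Submodule (QA (PadicAlgCl p)) (PadicAlgCl p)) ≤
        finrank (QA (PadicAlgCl p)) B + δ →
      (finrank ℚ K - 1) * s ≤ (δ + s) * (δ + s - 1)) ∧
    finrank ℚ K - 1 ≤ finrank (QA (PadicAlgCl p)) A * (finrank (QA (PadicAlgCl p)) A - 1) ∧
    (∀ D c : ℕ, (∀ k : ℕ, finrank (QA (PadicAlgCl p))
        (A ^ k : Submodule (QA (PadicAlgCl p)) (PadicAlgCl p)) ≤ k * D + c) →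
      finrank ℚ K ≤ max 1 (4 * D - 1)) ∧
    (∀ (n D : ℕ) (t : Fin n → PadicAlgCl p), PolyExp t D a →
      finrank ℚ K - 1 ≤ (4 * D) ^ n - 2 ^ n) := by
  have hAf : FiniteDimensional (QA (PadicAlgCl p)) A := by
    rw [hA]
    exact FiniteDimensional.span_of_finite _ (Set.finite_range a)
  have haA : ∀ i, a i ∈ A := fun i => by
    rw [hA]; exact Submodule.subset_span ⟨i, rfl⟩
  have hAne : A ≠ ⊥ := by
    intro h
    apply ha
    funext i
    have := haA i
    rw [h, Submodule.mem_bot] at this
    exact this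
  have main : ∀ (B : Submodule (QA (PadicAlgCl p)) (PadicAlgCl p))
      [FiniteDimensional (QA (PadicAlgCl p)) B] (s δ : ℕ), s ≤ finrank (QA (PadicAlgCl p)) B →
      finrank (QA (PadicAlgCl p)) (B * A : Submodule (QA (PadicAlgCl p)) (PadicAlgCl p)) ≤
        finrank (QA (PadicAlgCl p)) B + δ →
      (finrank ℚ K - 1) * s ≤ (δ + s) * (δ + s - 1) := fun B _ s δ hs hδ =>
    two_trans_main hL h2 r ε hind a ha h0 A B haA s δ hs hδ
  refine ⟨main, ?_, fun D c hD => hilbert_arith A hAne (finrank ℚ K) main D c hD, ?_⟩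
  · haveI : FiniteDimensional (QA (PadicAlgCl p))
        (1 : Submodule (QA (PadicAlgCl p)) (PadicAlgCl p)) := by
      rw [Submodule.one_eq_span]
      infer_instance
    have h3 := main 1 1 (finrank (QA (PadicAlgCl p)) A - 1) (by
      rw [Submodule.one_eq_span, finrank_span_singleton one_ne_zero]) (by
      rw [one_mul, Submodule.one_eq_span, finrank_span_singleton one_ne_zero]
      omega)
    have h4 : 1 ≤ finrank (QA (PadicAlgCl p)) A := by
      apply Nat.one_le_iff_ne_zero.mpr
      intro h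
      exact hAne (Submodule.finrank_eq_zero.mp h)
    rw [mul_one, Nat.sub_add_cancel h4] at h3
    exact h3
  · rintro n D t ⟨y, P, hP, hy⟩
    apply poly_arith t D
    intro B C hB hC hBC
    have hy0 : y ≠ 0 := by
      rintro rfl
      apply ha
      funext i
      rw [hy i]; simp
    have h1A : (1 : PadicAlgCl p) ∈ boxV t (D + 1) := by
      have := aeval_mem_boxV t D (1 : MvPolynomial (Fin n) (QA (PadicAlgCl p))) (by
        intro m hm i
        rw [MvPolynomial.support_one, Finset.mem_singleton] at hm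
        rw [hm]; simp)
      rwa [map_one] at this
    have hBC' : B ≤ C := fun b hb => by
      have := hBC b hb 1 h1A
      rwa [mul_one] at this
    have hle := Submodule.finrank_mono hBC'
    have hmul : B * boxV t (D + 1) ≤ C := by
      rw [Submodule.mul_le]
      exact hBC
    have h5 := two_trans_main hL h2 r ε hind (fun i => aeval t (P i)) (by
        intro h
        apply ha
        funext i
        rw [hy i]
        have := congrFun h i
        rw [this, Pi.zero_apply, mul_zero]) (by
        intro σ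
        have h6 : y * ∑ i, aeval t (P i) * L (σ ((ε i : 𝓞 K) : K)) = 0 := by
          rw [← h0 σ, Finset.mul_sum]
          apply Finset.sum_congr rfl
          intro i _
          rw [hy i]; ring
        exact (mul_eq_zero.mp h6).resolve_left hy0)
      (boxV t (D + 1)) B (fun i => aeval_mem_boxV t D _ (hP i))
      (finrank (QA (PadicAlgCl p)) B)
      (finrank (QA (PadicAlgCl p)) C - finrank (QA (PadicAlgCl p)) B) le_rfl
      ((Submodule.finrank_mono hmul).trans (by omega))
    rwa [Nat.sub_add_cancel hle] at h5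

end Pool.Agent.W254.PA
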