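import Pool.Agent.W254.PA.Exp

/-!
# `exp (L u) = u` for `u` close to `1`
-/

set_option autoImplicit false

namespace Pool.Agent.W254.PA

open Finset NormedSpace Filter Topology

section pow

variable (p : ℕ) [hp : Fact p.Prime] {𝕂 : Type*} [NontriviallyNormedField 𝕂] [NormedAlgebra ℚ_[p] 𝕂]
  [IsUltrametricDist 𝕂]

include p hp in
theorem one_add_pow_sub_le {w : 𝕂} (hw : ‖w‖ ≤ 1) (m : ℕ) :
    ‖(1 + w) ^ m - 1 - m * w‖ ≤ ‖w‖ ^ 2 := by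
  induction m with
  | zero => simp
  | succ m ih =>
    have h1 : (1 + w) ^ (m + 1) - 1 - ((m + 1 : ℕ) : 𝕂) * w =
        ((1 + w) ^ m - 1 - m * w) * (1 + w) + m * w ^ 2 := by
      push_cast; ring
    rw [h1]
    refine (IsUltrametricDist.norm_add_le_max _ _).trans (max_le ?_ ?_)
    · rw [norm_mul]
      have h2 : ‖1 + w‖ ≤ 1 := (IsUltrametricDist.norm_add_le_max _ _).trans
        (max_le (by rw [norm_one]) hw)
      calc _ ≤ ‖w‖ ^ 2 * 1 := by gcongr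
        _ = _ := mul_one _
    · rw [norm_mul, norm_pow]
      have h2 := norm_natCast_le p (𝕂 := 𝕂) m
      calc _ ≤ 1 * ‖w‖ ^ 2 := by gcongr
        _ = _ := one_mul _

theorem one_add_pow_p {w : 𝕂} (hw : ‖w‖ < (p : ℝ)⁻¹) :
    ‖(1 + w) ^ p - 1‖ = (p : ℝ)⁻¹ * ‖w‖ := by
  have hpp : (0 : ℝ) < p := by exact_mod_cast hp.out.pos
  have hp1 : (p : ℝ)⁻¹ ≤ 1 := inv_le_one_of_one_le₀ (by exact_mod_cast hp.out.one_le)
  rcases eq_or_ne w 0 with h | h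
  · subst h; simp
  have h0 : 0 < ‖w‖ := norm_pos_iff.mpr h
  have h1 := one_add_pow_sub_le p (w := w) (by linarith) p
  have h2 : ‖(p : 𝕂) * w‖ = (p : ℝ)⁻¹ * ‖w‖ := by rw [norm_mul, norm_p_eq p]
  have h3 : ‖(1 + w) ^ p - 1 - p * w‖ < ‖(p : 𝕂) * w‖ := by
    rw [h2]
    refine lt_of_le_of_lt h1 ?_
    nlinarith
  have h4 : (1 + w) ^ p - 1 = ((1 + w) ^ p - 1 - p * w) + p * w := by ring
  rw [h4, IsUltrametricDist.norm_add_eq_max_of_norm_ne_norm h3.ne, max_eq_right h3.le, h2]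

theorem one_add_pow_pn {w : 𝕂} (hw : ‖w‖ < (p : ℝ)⁻¹) (n : ℕ) :
    ‖(1 + w) ^ (p ^ n) - 1‖ = (p : ℝ)⁻¹ ^ n * ‖w‖ := by
  have hpp : (0 : ℝ) < p := by exact_mod_cast hp.out.pos
  have hp1 : (p : ℝ)⁻¹ ≤ 1 := inv_le_one_of_one_le₀ (by exact_mod_cast hp.out.one_le)
  induction n with
  | zero => simp
  | succ n ih =>
    have h1 : ‖(1 + w) ^ (p ^ n) - 1‖ < (p : ℝ)⁻¹ := by
      rw [ih]
      have : (p : ℝ)⁻¹ ^ n * ‖w‖ ≤ 1 * ‖w‖ := by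
        gcongr
        exact pow_le_one₀ (by positivity) hp1
      linarith
    have h2 := one_add_pow_p p h1
    have h3 : 1 + ((1 + w) ^ (p ^ n) - 1) = (1 + w) ^ (p ^ n) := by ring
    rw [h3, ih, ← pow_mul, ← pow_succ] at h2
    rw [h2]; ring

end pow

section log

variable (p : ℕ) [hp : Fact p.Prime] {𝕂 : Type*} [NontriviallyNormedField 𝕂] [NormedAlgebra ℚ_[p] 𝕂]
  [CompleteSpace 𝕂] [CharZero 𝕂] [IsUltrametricDist 𝕂]
  {𝔸 : Type*} [NontriviallyNormedField 𝔸] [NormedAlgebra ℚ_[p] 𝔸] [IsUltrametricDist 𝔸]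

include p hp in
theorem exp_log_near (ι : 𝔸 →+* 𝕂) (hι : ∀ x, ‖ι x‖ = ‖x‖) (L : 𝔸 → 𝔸)
    (hL : ∀ x y : 𝔸, x ≠ 0 → y ≠ 0 → L (x * y) = L x + L y) (C r : ℝ) (hr : 0 < r)
    (hC : ∀ z : 𝔸, ‖z‖ < r → ‖L (1 + z) - z‖ ≤ C * ‖z‖ ^ 2) :
    ∃ δ : ℝ, 0 < δ ∧ ∀ z : 𝔸, ‖z‖ < δ → ‖L (1 + z)‖ ≤ ‖z‖ ∧ exp (ι (L (1 + z))) = 1 + ι z := by
  have hpp : (0 : ℝ) < p := by exact_mod_cast hp.out.pos
  have hpi : (0 : ℝ) < (p : ℝ)⁻¹ := by positivity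
  have hp1 : (p : ℝ)⁻¹ ≤ 1 := inv_le_one_of_one_le₀ (by exact_mod_cast hp.out.one_le)
  set C' : ℝ := max (max C p) 1 with hC'
  have hC'1 : 1 ≤ C' := le_max_right _ _
  have hC'C : C ≤ C' := (le_max_left _ _).trans (le_max_left _ _)
  have hC'p : (p : ℝ) ≤ C' := (le_max_right _ _).trans (le_max_left _ _)
  have hLpow : ∀ (x : 𝔸) (n : ℕ), x ≠ 0 → L (x ^ n) = n * L x := by
    intro x n hx
    have h1 : L 1 = 0 := by
      have := hL 1 1 one_ne_zero one_ne_zero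
      rw [mul_one] at this
      exact left_eq_add.mp this
    induction n with
    | zero => simp [h1]
    | succ n ih => rw [pow_succ, hL _ _ (pow_ne_zero _ hx) hx, ih]; push_cast; ring
  -- basic facts for small `z`
  have hbasic : ∀ z : 𝔸, ‖z‖ < min r ((p : ℝ)⁻¹ / C') → ‖L (1 + z)‖ ≤ ‖z‖ ∧ ‖1 + z‖ = 1 ∧
      ‖exp (ι (L (1 + z))) / (1 + ι z) - 1‖ ≤ C' * ‖z‖ ^ 2 := by
    intro z hz
    have hz1 : ‖z‖ < r := lt_of_lt_of_le hz (min_le_left _ _)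
    have hz2 : ‖z‖ < (p : ℝ)⁻¹ / C' := lt_of_lt_of_le hz (min_le_right _ _)
    have hz3 : C' * ‖z‖ < (p : ℝ)⁻¹ := by
      rw [lt_div_iff₀ (by linarith)] at hz2
      linarith
    have hz4 : ‖z‖ < (p : ℝ)⁻¹ := by nlinarith [norm_nonneg z]
    have h1 := hC z hz1
    have h2 : ‖L (1 + z) - z‖ ≤ C' * ‖z‖ ^ 2 := h1.trans (by gcongr)
    have h3 : C' * ‖z‖ ^ 2 ≤ ‖z‖ := by nlinarith [norm_nonneg z]
    have h4 : ‖L (1 + z)‖ ≤ ‖z‖ := by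
      have e : L (1 + z) = (L (1 + z) - z) + z := by ring
      rw [e]
      exact (IsUltrametricDist.norm_add_le_max _ _).trans (max_le (h2.trans h3) le_rfl)
    have h5 : ‖1 + z‖ = 1 := by
      have : ‖z‖ < ‖(1 : 𝔸)‖ := by rw [norm_one]; linarith
      rw [IsUltrametricDist.norm_add_eq_max_of_norm_ne_norm this.ne', max_eq_left this.le, norm_one]
    refine ⟨h4, h5, ?_⟩
    have h6 : ‖1 + ι z‖ = 1 := by
      have := hι (1 + z)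
      rw [map_add, map_one, h5] at this
      exact this
    have h7 : (1 + ι z) ≠ 0 := by
      intro h
      rw [h, norm_zero] at h6
      exact zero_ne_one h6
    have h8 : exp (ι (L (1 + z))) / (1 + ι z) - 1 = (exp (ι (L (1 + z))) - (1 + ι z)) / (1 + ι z) := by
      rw [sub_div, div_self h7]
    rw [h8, norm_div, h6, div_one]
    have h9 : exp (ι (L (1 + z))) - (1 + ι z) = (exp (ι (L (1 + z))) - 1 - ι (L (1 + z))) +
        ι (L (1 + z) - z) := by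
      rw [map_sub]; ring
    rw [h9]
    refine (IsUltrametricDist.norm_add_le_max _ _).trans (max_le ?_ ?_)
    · refine (pexp_sub_le p (by rw [hι]; linarith)).trans ?_
      rw [hι]
      have : 0 ≤ ‖L (1 + z)‖ := norm_nonneg _
      gcongr
    · rw [hι]; exact h2
  refine ⟨min r ((p : ℝ)⁻¹ / C'), by positivity, fun z hz => ?_⟩
  have hz2 : ‖z‖ < (p : ℝ)⁻¹ / C' := lt_of_lt_of_le hz (min_le_right _ _)
  have hz3 : C' * ‖z‖ < (p : ℝ)⁻¹ := by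
    rw [lt_div_iff₀ (by linarith)] at hz2
    linarith
  have hz4 : ‖z‖ < (p : ℝ)⁻¹ := by nlinarith [norm_nonneg z]
  obtain ⟨h1, h2, h3⟩ := hbasic z hz
  refine ⟨h1, ?_⟩
  have hu0 : (1 + z) ≠ 0 := by
    intro h
    rw [h, norm_zero] at h2
    exact zero_ne_one h2
  have hu0' : (1 + ι z) ≠ 0 := by
    have := (map_ne_zero ι).mpr hu0
    rwa [map_add, map_one] at this
  set w : 𝕂 := exp (ι (L (1 + z))) / (1 + ι z) - 1 with hw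
  have hwn : ‖w‖ < (p : ℝ)⁻¹ := by
    refine lt_of_le_of_lt h3 ?_
    nlinarith [norm_nonneg z]
  have key : ∀ n : ℕ, ‖w‖ ≤ (p : ℝ)⁻¹ ^ n * (C' * ‖z‖ ^ 2) := by
    intro n
    have g1 := one_add_pow_pn p hz4 n
    have g2 : ‖(1 + z) ^ (p ^ n) - 1‖ < min r ((p : ℝ)⁻¹ / C') := by
      rw [g1]
      refine lt_of_le_of_lt ?_ hz
      have : (p : ℝ)⁻¹ ^ n * ‖z‖ ≤ 1 * ‖z‖ := by
        gcongr
        exact pow_le_one₀ (by positivity) hp1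
      linarith
    obtain ⟨-, -, g3⟩ := hbasic _ g2
    have g4 : 1 + ((1 + z) ^ (p ^ n) - 1) = (1 + z) ^ (p ^ n) := by ring
    have g5 : 1 + ι ((1 + z) ^ (p ^ n) - 1) = (1 + ι z) ^ (p ^ n) := by
      rw [map_sub, map_pow, map_add, map_one]; ring
    rw [g4, g5, g1, hLpow _ _ hu0, map_mul, map_natCast] at g3
    have g6 : exp (((p ^ n : ℕ) : 𝕂) * ι (L (1 + z))) = exp (ι (L (1 + z))) ^ (p ^ n) :=
      pexp_nat_mul p (by rw [hι]; linarith) _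
    rw [g6, ← div_pow] at g3
    have g7 : exp (ι (L (1 + z))) / (1 + ι z) = 1 + w := by rw [hw]; ring
    rw [g7, one_add_pow_pn p hwn n] at g3
    have hq : (0 : ℝ) < (p : ℝ)⁻¹ ^ n := by positivity
    have g8 : (p : ℝ)⁻¹ ^ n * ‖w‖ ≤ (p : ℝ)⁻¹ ^ n * ((p : ℝ)⁻¹ ^ n * (C' * ‖z‖ ^ 2)) := by
      calc _ ≤ C' * ((p : ℝ)⁻¹ ^ n * ‖z‖) ^ 2 := g3
        _ = _ := by ring
    exact le_of_mul_le_mul_left g8 hq
  have hw0 : ‖w‖ ≤ 0 := by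
    have hlim : Tendsto (fun n : ℕ => (p : ℝ)⁻¹ ^ n * (C' * ‖z‖ ^ 2)) atTop (𝓝 0) := by
      have hlt : (p : ℝ)⁻¹ < 1 := by
        apply inv_lt_one_of_one_lt₀
        exact_mod_cast hp.out.one_lt
      have := (tendsto_pow_atTop_nhds_zero_of_lt_one hpi.le hlt).mul_const (C' * ‖z‖ ^ 2)
      rwa [zero_mul] at this
    exact ge_of_tendsto' hlim key
  have hw1 : w = 0 := norm_le_zero_iff.mp hw0
  have hw2 : exp (ι (L (1 + z))) / (1 + ι z) = 1 := by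
    rw [hw] at hw1
    exact sub_eq_zero.mp hw1
  rwa [div_eq_one_iff_eq hu0'] at hw2

include p hp in
/-- the logarithmic series to second order -/
theorem log_series_le {z s : 𝔸} (hz : ‖z‖ ≤ 1 / 2)
    (h : HasSum (fun n : ℕ => (-1 : 𝔸) ^ n * z ^ (n + 1) / ((n : 𝔸) + 1)) s) :
    ‖s - z‖ ≤ 2 * ‖z‖ ^ 2 := by
  have h1 := (hasSum_nat_add_iff' 1).mpr h
  rw [Finset.sum_range_one] at h1
  have h2 : (-1 : 𝔸) ^ 0 * z ^ (0 + 1) / (((0 : ℕ) : 𝔸) + 1) = z := by simp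
  rw [h2] at h1
  rw [← h1.tsum_eq]
  apply IsUltrametricDist.norm_tsum_le_of_forall_le_of_nonneg (by positivity)
  intro n
  have h3 : ((n + 1 : ℕ) : 𝔸) + 1 = ((n + 2 : ℕ) : 𝔸) := by push_cast; ring
  rw [h3, norm_div, norm_mul, norm_pow, norm_pow, norm_neg, norm_one, one_pow, one_mul]
  have h4 := norm_natCast_ge p (𝕂 := 𝔸) (n := n + 2) (by omega)
  have h5 : (0 : ℝ) < ((n + 2 : ℕ) : ℝ)⁻¹ := by positivity
  have h6 : ‖z‖ ^ (n + 1 + 1) / ‖((n + 2 : ℕ) : 𝔸)‖ ≤ ‖z‖ ^ (n + 1 + 1) / ((n + 2 : ℕ) : ℝ)⁻¹ := by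
    gcongr
  refine h6.trans ?_
  rw [div_inv_eq_mul]
  have h7 : ‖z‖ ^ n * ((n + 2 : ℕ) : ℝ) ≤ 2 := by
    have h8 : ‖z‖ ^ n ≤ (1 / 2) ^ n := pow_le_pow_left₀ (norm_nonneg _) hz n
    have h9 : ((n + 2 : ℕ) : ℝ) ≤ 2 * 2 ^ n := by
      have : n + 2 ≤ 2 * 2 ^ n := by
        have := Nat.lt_two_pow_self (n := n)
        omega
      exact_mod_cast this
    calc ‖z‖ ^ n * ((n + 2 : ℕ) : ℝ) ≤ (1 / 2) ^ n * (2 * 2 ^ n) := by gcongr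
      _ = 2 * ((1 / 2) * 2) ^ n := by rw [mul_pow]; ring
      _ = 2 := by norm_num
  calc ‖z‖ ^ (n + 1 + 1) * ((n + 2 : ℕ) : ℝ) = (‖z‖ ^ n * ((n + 2 : ℕ) : ℝ)) * ‖z‖ ^ 2 := by ring
    _ ≤ 2 * ‖z‖ ^ 2 := by gcongr

end log

end Pool.Agent.W254.PA
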