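import Pool.Agent.W254.PA.Log

/-!
# Scaling: some power of any number is a power of `p` times a number close to `1`
-/

set_option autoImplicit false

namespace Pool.Agent.W254.PA

open Finset NormedSpace Filter Topology

variable (p : ℕ) [hp : Fact p.Prime]

theorem exists_norm_pow (α : PadicAlgCl p) (hα : α ≠ 0) :
    ∃ N : ℕ, 1 ≤ N ∧ ∃ a : ℤ, ‖α ^ N * (p : PadicAlgCl p) ^ a‖ = 1 := by
  have hpp : (0 : ℝ) < p := by exact_mod_cast hp.out.pos
  have hpne : (p : PadicAlgCl p) ≠ 0 := by exact_mod_cast hp.out.ne_zero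
  have h1 : ‖α‖ = ‖(minpoly ℚ_[p] α).coeff 0‖ ^ (1 / (minpoly ℚ_[p] α).natDegree : ℝ) := by
    rw [← PadicAlgCl.spectralNorm_eq]
    exact spectralNorm.spectralNorm_eq_norm_coeff_zero_rpow ℚ_[p] (PadicAlgCl p) α
  have hint : IsIntegral ℚ_[p] α := Algebra.IsIntegral.isIntegral α
  have hdeg : 0 < (minpoly ℚ_[p] α).natDegree := minpoly.natDegree_pos hint
  have hc : (minpoly ℚ_[p] α).coeff 0 ≠ 0 := minpoly.coeff_zero_ne_zero hint hα
  set N := (minpoly ℚ_[p] α).natDegree with hN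
  have h2 : ‖α‖ ^ N = ‖(minpoly ℚ_[p] α).coeff 0‖ := by
    rw [h1, ← Real.rpow_natCast, ← Real.rpow_mul (norm_nonneg _), one_div_mul_cancel, Real.rpow_one]
    exact_mod_cast hdeg.ne'
  refine ⟨N, hdeg, -((minpoly ℚ_[p] α).coeff 0).valuation, ?_⟩
  rw [norm_mul, norm_pow, h2, norm_zpow, norm_p_eq p, Padic.norm_eq_zpow_neg_valuation hc,
    inv_zpow', neg_neg, ← zpow_add₀ hpp.ne', neg_add_cancel, zpow_zero]

theorem exists_pow_near (v : PadicAlgCl p) (hv : ‖v‖ = 1) (δ : ℝ) (hδ : 0 < δ) :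
    ∃ M : ℕ, 1 ≤ M ∧ ‖v ^ M - 1‖ < δ := by
  let F := IntermediateField.adjoin ℚ_[p] ({v} : Set (PadicAlgCl p))
  haveI : FiniteDimensional ℚ_[p] F :=
    IntermediateField.adjoin.finiteDimensional (Algebra.IsIntegral.isIntegral v)
  haveI : ProperSpace F := FiniteDimensional.proper ℚ_[p] F
  let w : F := ⟨v, IntermediateField.mem_adjoin_simple_self ℚ_[p] v⟩
  have hw : ‖w‖ = 1 := hv
  have hcomp : IsCompact (Metric.closedBall (0 : F) 1) := isCompact_closedBall 0 1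
  obtain ⟨a, -, φ, hφ, hlim⟩ := hcomp.tendsto_subseq (x := fun n : ℕ => w ^ n) (by
    intro n
    rw [mem_closedBall_zero_iff, norm_pow, hw, one_pow])
  have hcau := hlim.cauchySeq
  rw [Metric.cauchySeq_iff] at hcau
  obtain ⟨n0, hn0⟩ := hcau δ hδ
  have h1 := hn0 (n0 + 1) (by omega) n0 le_rfl
  have h2 : φ n0 < φ (n0 + 1) := hφ (by omega)
  refine ⟨φ (n0 + 1) - φ n0, by omega, ?_⟩
  simp only [Function.comp] at h1
  rw [dist_eq_norm] at h1
  have h3 : w ^ φ (n0 + 1) - w ^ φ n0 = w ^ φ n0 * (w ^ (φ (n0 + 1) - φ n0) - 1) := by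
    rw [mul_sub, ← pow_add, mul_one]
    congr 2
    omega
  rw [h3, norm_mul, norm_pow, hw, one_pow, one_mul] at h1
  exact h1

end Pool.Agent.W254.PA
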