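import Pool.Agent.W254.PA.Card
import Pool.Agent.W254.PA.Scale
import Pool.Agent.W245.PB.Reduce

/-!
# The `p`-adic logarithm: hyperplane theorem
-/

set_option autoImplicit false

namespace Pool.Agent.W254.PA

open NormedSpace
open Pool.Agent.W245.PB (IsIwasawaLog)

variable {p : ℕ} [hp : Fact p.Prime]

/-- the inclusion of the algebraic closure in its completion -/
noncomputable def ic (p : ℕ) [Fact p.Prime] : PadicAlgCl p →+* ℂ_[p] :=
  algebraMap (PadicAlgCl p) ℂ_[p]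

theorem norm_ic (x : PadicAlgCl p) : ‖ic p x‖ = ‖x‖ := PadicComplex.norm_extends p x

theorem ic_alg {x : PadicAlgCl p} (hx : IsAlgebraic ℚ x) : IsAlgebraic ℚ (ic p x) :=
  hx.algHom (RingHom.toRatAlgHom (ic p))

theorem ic_log_mem {L : PadicAlgCl p → PadicAlgCl p} (hL : IsIwasawaLog p L) {α : PadicAlgCl p}
    (hα : α ≠ 0) (halg : IsAlgebraic ℚ α) : ic p (L α) ∈ LgP p (𝕂 := ℂ_[p]) := by
  have hpne : (p : PadicAlgCl p) ≠ 0 := Nat.cast_ne_zero.2 hp.out.ne_zero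
  have hpp : (0 : ℝ) < p := by exact_mod_cast hp.out.pos
  have hpi : (0 : ℝ) < (p : ℝ)⁻¹ := by positivity
  obtain ⟨δ, hδ, h⟩ := exp_log_near p (ic p) norm_ic L hL.mul 2 (1 / 2) (by norm_num) (by
    intro z hz
    exact log_series_le p hz.le (hL.ser z (by linarith)))
  obtain ⟨N, hN, a, ha⟩ := exists_norm_pow p α hα
  obtain ⟨M, hM, hM2⟩ := exists_pow_near p (α ^ N * (p : PadicAlgCl p) ^ a) ha
    (min δ (p : ℝ)⁻¹) (lt_min hδ hpi)
  set v := α ^ N * (p : PadicAlgCl p) ^ a with hv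
  have hvalg : IsAlgebraic ℚ v := by
    refine (halg.pow N).mul ?_
    have hpa : IsAlgebraic ℚ (p : PadicAlgCl p) := isAlgebraic_natCast p
    rcases Int.eq_nat_or_neg a with ⟨n, h | h⟩
    · rw [h, zpow_natCast]; exact hpa.pow n
    · rw [h, zpow_neg, zpow_natCast]; exact (hpa.pow n).inv
  have hv0 : v ≠ 0 := mul_ne_zero (pow_ne_zero _ hα) (zpow_ne_zero _ hpne)
  have hLv : L (v ^ M) = ((M * N : ℕ) : PadicAlgCl p) * L α := by
    rw [hL.pow hv0, hv, hL.mul _ _ (pow_ne_zero _ hα) (zpow_ne_zero _ hpne), hL.pow hα,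
      hL.zpow hpne, hL.prime]
    push_cast
    ring
  obtain ⟨h1, h2⟩ := h (v ^ M - 1) (lt_of_lt_of_le hM2 (min_le_left _ _))
  have h3 : 1 + (v ^ M - 1) = v ^ M := by ring
  rw [h3] at h1 h2
  rw [mem_LgP]
  have h4 : (((M * N : ℕ) : ℂ_[p]) * ic p (L α)) = ic p (L (v ^ M)) := by
    rw [hLv, map_mul, map_natCast]
  refine ⟨M * N, Nat.mul_pos hM hN, ?_, ?_⟩
  · rw [h4, norm_ic]
    exact lt_of_le_of_lt h1 (lt_of_lt_of_le hM2 (min_le_right _ _))
  · rw [h4, h2]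
    have h5 : 1 + ic p (v ^ M - 1) = ic p (v ^ M) := by
      rw [map_sub, map_one]; ring
    rw [h5]
    exact ic_alg (hvalg.pow M)

/-- values of the `p`-adic logarithm at algebraic numbers -/
def logs (L : PadicAlgCl p → PadicAlgCl p) : Set (PadicAlgCl p) :=
  {z | ∃ α : PadicAlgCl p, α ≠ 0 ∧ IsAlgebraic ℚ α ∧ z = L α}

/-- **The `p`-adic hyperplane theorem.** -/
theorem hyp_padic {L : PadicAlgCl p → PadicAlgCl p} (hL : IsIwasawaLog p L) :
    Hyp (LtE (logs L)) := by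
  obtain ⟨θ⟩ := exists_theta p
  refine hyp_of_embed ((θ : ℂ_[p] →+* ℂ).comp (ic p)) (Lθ p θ) (logs L)
    (obsProp_padic p Pool.Agent.H301R2.SSE.zeg θ) ?_
  rintro z ⟨α, hα, halg, rfl⟩
  rw [mem_Lθ]
  have : θ.symm (((θ : ℂ_[p] →+* ℂ).comp (ic p)) (L α)) = ic p (L α) := θ.symm_apply_apply _
  rw [this]
  exact ic_log_mem hL hα halg

end Pool.Agent.W254.PA
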