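import Pool.Agent.W254.PA.Upper

/-!
# `p`-adic Liouville inequality for determinants
-/

set_option autoImplicit false

namespace Pool.Agent.W254.PA

open Finset Matrix

variable (p : ℕ) [hp : Fact p.Prime] {𝕂 : Type*} [NontriviallyNormedField 𝕂] [NormedAlgebra ℚ_[p] 𝕂]
  [CharZero 𝕂] [CompleteSpace 𝕂] [IsUltrametricDist 𝕂]

include p hp in
/-- algebraic integers have norm at most one -/
theorem norm_le_one_of_isIntegral {z : 𝕂} (hz : IsIntegral ℤ z) : ‖z‖ ≤ 1 := by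
  obtain ⟨f, hf, h0⟩ := hz
  by_contra hcon
  push Not at hcon
  have hdeg : 0 < f.natDegree := by
    rcases Nat.eq_zero_or_pos f.natDegree with h | h
    · have : f = 1 := Polynomial.eq_one_of_monic_natDegree_zero hf h
      rw [this] at h0
      simp at h0
    · exact h
  rw [Polynomial.eval₂_eq_sum_range, Finset.sum_range_succ, hf.coeff_natDegree, map_one, one_mul] at h0
  have h1 : z ^ f.natDegree = -∑ i ∈ range f.natDegree, (algebraMap ℤ 𝕂) (f.coeff i) * z ^ i :=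
    eq_neg_of_add_eq_zero_right h0
  have h2 : ‖z ^ f.natDegree‖ ≤ ‖z‖ ^ (f.natDegree - 1) := by
    rw [h1, norm_neg]
    apply pnorm_sum_le _ _ (by positivity)
    intro i hi
    rw [norm_mul, norm_pow]
    have h3 : ‖(algebraMap ℤ 𝕂) (f.coeff i)‖ ≤ 1 := by
      have := norm_intCast_le p (𝕂 := 𝕂) (f.coeff i)
      simpa using this
    have h4 : i ≤ f.natDegree - 1 := by
      have := Finset.mem_range.mp hi
      omega
    calc _ ≤ 1 * ‖z‖ ^ (f.natDegree - 1) := by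
          gcongr
          exact hcon.le
      _ = _ := one_mul _
  rw [norm_pow] at h2
  have h5 : ‖z‖ ^ (f.natDegree - 1) < ‖z‖ ^ f.natDegree :=
    pow_lt_pow_right₀ hcon (by omega)
  linarith

include p hp in
/-- Liouville inequality in a number field, `p`-adic form. -/
theorem one_le_mul_prod {K : Type*} [Field K] [NumberField K] (φ : K →+* 𝕂) (y : K)
    (hint : IsIntegral ℤ y) (hy : y ≠ 0) : 1 ≤ ‖φ y‖ * ∏ σ : K →ₐ[ℚ] ℂ, ‖σ y‖ := by
  let x : NumberField.RingOfIntegers K := ⟨y, hint⟩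
  set n : ℤ := Algebra.intNorm ℤ (NumberField.RingOfIntegers K) x with hn
  have h1 : algebraMap ℤ ℚ n = Algebra.norm ℚ y := Algebra.algebraMap_intNorm (L := K) x
  have h3 : Algebra.norm ℚ y ≠ 0 := Algebra.norm_ne_zero_iff.mpr hy
  have hn0 : n ≠ 0 := by
    intro h
    apply h3
    rw [← h1, h]; simp
  obtain ⟨z, hz⟩ := Algebra.dvd_algebraMap_intNorm_self (A := ℤ) (B := NumberField.RingOfIntegers K) x
  have h4 : ((n : ℤ) : K) = y * (z : K) := by
    have h40 := congrArg (algebraMap (NumberField.RingOfIntegers K) K) hz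
    rw [map_mul] at h40
    have e : (algebraMap (NumberField.RingOfIntegers K) K)
        (algebraMap ℤ (NumberField.RingOfIntegers K) n) = (n : K) := by simp
    exact e.symm.trans h40
  have h5 : ‖φ (z : K)‖ ≤ 1 := by
    apply norm_le_one_of_isIntegral p
    exact z.2.map (φ.toIntAlgHom)
  have h6 : ((n : ℤ) : 𝕂) = φ y * φ (z : K) := by
    have := congrArg φ h4
    simpa using this
  have h7 : ‖((n : ℤ) : 𝕂)‖ ≤ ‖φ y‖ := by
    rw [h6, norm_mul]
    calc _ ≤ ‖φ y‖ * 1 := by gcongr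
      _ = _ := mul_one _
  have h8 : (|n| : ℝ)⁻¹ ≤ ‖((n : ℤ) : 𝕂)‖ := by
    have h9 := norm_natCast_ge p (𝕂 := 𝕂) (n := n.natAbs) (Int.natAbs_ne_zero.mpr hn0)
    have h10 : ‖((n.natAbs : ℕ) : 𝕂)‖ = ‖((n : ℤ) : 𝕂)‖ := by
      rcases Int.natAbs_eq n with h | h
      · conv_rhs => rw [h]
        simp
      · conv_rhs => rw [h]
        simp
    rw [h10] at h9
    have h11 : ((n.natAbs : ℕ) : ℝ) = |(n : ℝ)| := by
      rw [Nat.cast_natAbs]; simp
    rwa [h11] at h9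
  have h12 : ∏ σ : K →ₐ[ℚ] ℂ, ‖σ y‖ = |(n : ℝ)| := by
    have h13 : algebraMap ℚ ℂ (Algebra.norm ℚ y) = ∏ σ : K →ₐ[ℚ] ℂ, σ y :=
      Algebra.norm_eq_prod_embeddings ℚ ℂ y
    rw [← norm_prod, ← h13, ← h1]
    simp
  rw [h12]
  have h14 : 0 < |(n : ℝ)| := by
    rw [abs_pos]; exact_mod_cast hn0
  calc (1 : ℝ) = |(n : ℝ)|⁻¹ * |(n : ℝ)| := (inv_mul_cancel₀ h14.ne').symm
    _ ≤ ‖φ y‖ * |(n : ℝ)| := by gcongr; exact h8.trans h7

include p hp in
/-- Lower bound for determinants with entries in a number field. -/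
theorem det_lowerP {K : Type*} [Field K] [NumberField K] (φ : K →+* 𝕂)
    {J : Type*} [Fintype J] [DecidableEq J] (e : Matrix J J K) (d h : ℕ) (hd : 0 < d) (B : ℝ)
    (hB : 1 ≤ B) (hint : ∀ j i, IsIntegral ℤ ((d : K) ^ h * e j i))
    (hbd : ∀ σ : K →ₐ[ℚ] ℂ, ∀ j i, ‖σ (e j i)‖ ≤ B) (hne : e.det ≠ 0) :
    1 ≤ ‖φ e.det‖ * ((d : ℝ) ^ h) ^ (Fintype.card J * Module.finrank ℚ K)
      * ((Nat.factorial (Fintype.card J) : ℝ) * B ^ (Fintype.card J)) ^ (Module.finrank ℚ K) := by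
  classical
  set N := Fintype.card J with hN
  set D := Module.finrank ℚ K with hD
  have hdet : IsIntegral ℤ (((d : K) ^ h) ^ N * e.det) := by
    rw [hN, ← Matrix.det_smul]
    rw [Matrix.det_apply]
    apply IsIntegral.sum
    intro σ _
    have : IsIntegral ℤ (∏ i, ((d : K) ^ h • e) (σ i) i) := by
      apply IsIntegral.prod
      intro i _
      simpa [Matrix.smul_apply] using hint (σ i) i
    rcases Int.units_eq_one_or (Equiv.Perm.sign σ) with hs | hs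
    · rw [hs, one_smul]; exact this
    · rw [hs]
      have e1 : ((-1 : ℤˣ) • ∏ i, ((d : K) ^ h • e) (σ i) i) = - ∏ i, ((d : K) ^ h • e) (σ i) i := by
        rw [Units.smul_def]; simp
      rw [e1]
      exact this.neg
  have hd0 : (d : K) ≠ 0 := by exact_mod_cast hd.ne'
  have hy : ((d : K) ^ h) ^ N * e.det ≠ 0 := mul_ne_zero (pow_ne_zero _ (pow_ne_zero _ hd0)) hne
  have h1 := one_le_mul_prod p φ _ hdet hy
  have h2 : ∀ σ : K →ₐ[ℚ] ℂ, ‖σ (((d : K) ^ h) ^ N * e.det)‖ = ((d : ℝ) ^ h) ^ N * ‖σ e.det‖ := by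
    intro σ
    rw [map_mul, norm_mul, map_pow, map_pow, map_natCast, norm_pow, norm_pow, Complex.norm_natCast]
  simp_rw [h2] at h1
  rw [Finset.prod_mul_distrib, Finset.prod_const, Finset.card_univ, AlgHom.card ℚ K ℂ, ← hD,
    ← pow_mul (((d : ℝ) ^ h)) N D] at h1
  have hdet2 : ∀ σ : K →ₐ[ℚ] ℂ, ‖σ e.det‖ ≤ (Nat.factorial N : ℝ) * B ^ N := by
    intro σ
    have e1 : σ e.det = Matrix.det (fun j i => σ (e j i)) := by
      have := RingHom.map_det (σ : K →+* ℂ) e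
      exact this
    rw [e1]
    have := norm_det_le_rows (fun j i => σ (e j i)) (fun _ => B) (fun j i => hbd σ j i)
    rwa [Finset.prod_const, Finset.card_univ, ← hN] at this
  have h3 : ∏ σ : K →ₐ[ℚ] ℂ, ‖σ e.det‖ ≤ ((Nat.factorial N : ℝ) * B ^ N) ^ D := by
    refine (Finset.prod_le_prod (fun _ _ => norm_nonneg _) (fun σ _ => hdet2 σ)).trans ?_
    rw [Finset.prod_const, Finset.card_univ, AlgHom.card ℚ K ℂ]
  have h4 : ‖φ (((d : K) ^ h) ^ N * e.det)‖ ≤ ‖φ e.det‖ := by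
    rw [map_mul, norm_mul, map_pow, map_pow, map_natCast, norm_pow, norm_pow]
    have h5 := norm_natCast_le p (𝕂 := 𝕂) d
    calc (‖((d : ℕ) : 𝕂)‖ ^ h) ^ N * ‖φ e.det‖ ≤ (1 ^ h) ^ N * ‖φ e.det‖ := by gcongr
      _ = _ := by simp
  have hd1 : (0 : ℝ) ≤ ((d : ℝ) ^ h) ^ (N * D) := by positivity
  have hnn : 0 ≤ ((d : ℝ) ^ h) ^ (N * D) * ∏ σ : K →ₐ[ℚ] ℂ, ‖σ e.det‖ :=
    mul_nonneg hd1 (Finset.prod_nonneg fun _ _ => norm_nonneg _)
  calc (1 : ℝ) ≤ ‖φ (((d : K) ^ h) ^ N * e.det)‖ *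
        (((d : ℝ) ^ h) ^ (N * D) * ∏ σ : K →ₐ[ℚ] ℂ, ‖σ e.det‖) := h1
    _ ≤ ‖φ e.det‖ * (((d : ℝ) ^ h) ^ (N * D) * ((Nat.factorial N : ℝ) * B ^ N) ^ D) := by
        gcongr
    _ = _ := by ring

end Pool.Agent.W254.PA
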