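import Pool.Agent.W254.PA.ObsField

/-!
# The linear subgroup theorem for an abstract space of logarithms

`ObsProp 𝓛` is the statement of the linear subgroup theorem (parametric form) with the space of
logarithms of algebraic numbers replaced by a rational subspace `𝓛` of `ℂ`.  We prove it for the
space of `p`-adic logarithms, transported to `ℂ` by a field isomorphism.
-/

set_option autoImplicit false

open Finset Module

namespace Pool.Agent.W254.PA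

open NormedSpace
open Pool.Agent.H335R2.Obs (ZEG)

/-- the linear subgroup theorem for a rational space `𝓛` of complex numbers -/
def ObsProp (𝓛 : Submodule ℚ ℂ) : Prop :=
  ∀ (w b l r : ℕ) (A : Finset (Fin w)) (γ : Fin w → Fin b → ℂ) (ω : Fin w → Fin l → ℂ)
    (u : Fin b → Fin l → ℂ) (x : Fin r → Fin b → ℂ) (y : Fin r → Fin l → ℂ),
    (∀ i j, IsAlgebraic ℚ (γ i j)) → (∀ i ∈ A, ∀ q, IsAlgebraic ℚ (ω i q)) →
    (∀ j q, u j q ∈ 𝓛) → (∀ j q, u j q = ∑ ρ, x ρ j * y ρ q + ∑ i, γ i j * ω i q) →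
    ∀ (κ μ σ : ℕ), μ + σ = κ → (κ + 1) * (r + w) + 1 ≤ A.card * κ + b * μ →
    ∃ (Af' : Submodule ℂ (Fin w → ℂ)) (Rm' : AddSubgroup (Fin b → ℤ))
      (W0 : Submodule ℂ (Fin w → ℂ)) (G0 : AddSubgroup (Fin l → ℤ)),
      (∀ a ∈ Af', ∀ i ∉ A, a i = 0) ∧ ¬ (Af' = ⊥ ∧ Rm' = ⊥) ∧
      (∀ c, c ∈ W0 ↔ (∀ a ∈ Af', ∑ i, a i * c i = 0) ∧
        ∀ m ∈ Rm', ∑ j, (m j : ℂ) * ∑ i, c i * γ i j = 0) ∧
      (∀ s ∈ G0, (∀ a ∈ Af', ∑ i, a i * ∑ q, ω i q * (s q : ℂ) = 0) ∧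
        ∀ m ∈ Rm', ∃ n : ℤ, ∑ j, ∑ q, (m j : ℂ) * (s q : ℂ) * u j q =
          n * (2 * Real.pi * Complex.I)) ∧
      ((w - finrank ℂ W0) * κ + (l - finrank ℤ G0) * σ < finrank ℂ Af' * κ + finrank ℤ Rm' * μ ∨
        ((w - finrank ℂ W0) * κ + (l - finrank ℤ G0) * σ =
          finrank ℂ Af' * κ + finrank ℤ Rm' * μ ∧ w - finrank ℂ W0 = 0 ∧
            l - finrank ℤ G0 = 0))

theorem exists_fieldP {E : Type*} [Field E] [CharZero E] (s : Finset E)
    (h : ∀ x ∈ s, IsAlgebraic ℚ x) :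
    ∃ (F : IntermediateField ℚ E), NumberField F ∧ ∀ x ∈ s, x ∈ F := by
  classical
  have hfd : FiniteDimensional ℚ (IntermediateField.adjoin ℚ (s : Set E)) := by
    apply IntermediateField.finiteDimensional_adjoin
    intro x hx
    exact (h x hx).isIntegral
  have hnf : NumberField (IntermediateField.adjoin ℚ (s : Set E)) := by
    refine @NumberField.mk _ _ ?_ ?_
    · infer_instance
    · convert hfd
  exact ⟨IntermediateField.adjoin ℚ (s : Set E), hnf, fun x hx =>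
    IntermediateField.subset_adjoin ℚ _ hx⟩

section padic

variable (p : ℕ) [hp : Fact p.Prime] {𝕂 : Type*} [NontriviallyNormedField 𝕂] [NormedAlgebra ℚ_[p] 𝕂]
  [CharZero 𝕂] [CompleteSpace 𝕂] [IsUltrametricDist 𝕂]

theorem good_mul {u : 𝕂} {N : ℕ} (h1 : ‖(N : 𝕂) * u‖ < (p : ℝ)⁻¹)
    (h2 : IsAlgebraic ℚ (exp ((N : 𝕂) * u))) (M : ℕ) :
    ‖((N * M : ℕ) : 𝕂) * u‖ < (p : ℝ)⁻¹ ∧ IsAlgebraic ℚ (exp (((N * M : ℕ) : 𝕂) * u)) := by
  have e : ((N * M : ℕ) : 𝕂) * u = (M : 𝕂) * ((N : 𝕂) * u) := by push_cast; ring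
  rw [e]
  constructor
  · have := pnorm_int_mul_lt p h1 (M : ℤ)
    simpa using this
  · rw [pexp_nat_mul p h1]
    exact h2.pow M

/-- elements some multiple of which has an algebraic exponential -/
noncomputable def LgP : Submodule ℚ 𝕂 where
  carrier := {u | ∃ N : ℕ, 1 ≤ N ∧ ‖(N : 𝕂) * u‖ < (p : ℝ)⁻¹ ∧ IsAlgebraic ℚ (exp ((N : 𝕂) * u))}
  zero_mem' := by
    refine ⟨1, le_rfl, ?_, ?_⟩
    · have : (0 : ℝ) < p := by exact_mod_cast hp.out.pos
      simpa using this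
    · simp only [mul_zero, exp_zero]; exact isAlgebraic_one
  add_mem' := by
    rintro u v ⟨N, hN, h1, h2⟩ ⟨M, hM, h3, h4⟩
    obtain ⟨g1, g2⟩ := good_mul p h1 h2 M
    obtain ⟨g3, g4⟩ := good_mul p h3 h4 N
    rw [mul_comm M N] at g3 g4
    refine ⟨N * M, Nat.mul_pos hN hM, ?_, ?_⟩
    · rw [mul_add]
      exact lt_of_le_of_lt (IsUltrametricDist.norm_add_le_max _ _) (max_lt g1 g3)
    · rw [mul_add, pexp_add p g1 g3]
      exact g2.mul g4
  smul_mem' := by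
    rintro c u ⟨N, hN, h1, h2⟩
    have e : ((N * c.den : ℕ) : 𝕂) * (c • u) = (c.num : 𝕂) * ((N : 𝕂) * u) := by
      rw [Rat.smul_def]
      have h5 := Rat.mul_den_eq_num c
      have h6 : ((c * c.den : ℚ) : 𝕂) = ((c.num : ℚ) : 𝕂) := by rw [h5]
      push_cast at h6
      push_cast
      linear_combination ((N : 𝕂) * u) * h6
    refine ⟨N * c.den, Nat.mul_pos hN c.den_pos, ?_, ?_⟩
    · rw [e]; exact pnorm_int_mul_lt p h1 _
    · rw [e, pexp_int_mul p h1]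
      rcases Int.eq_nat_or_neg c.num with ⟨n, h | h⟩
      · rw [h, zpow_natCast]; exact h2.pow n
      · rw [h, zpow_neg, zpow_natCast]; exact (h2.pow n).inv

theorem mem_LgP {u : 𝕂} : u ∈ LgP p (𝕂 := 𝕂) ↔ ∃ N : ℕ, 1 ≤ N ∧ ‖(N : 𝕂) * u‖ < (p : ℝ)⁻¹ ∧
    IsAlgebraic ℚ (exp ((N : 𝕂) * u)) := Iff.rfl

/-- the space of `p`-adic logarithms inside `ℂ` -/
noncomputable def Lθ (θ : 𝕂 ≃+* ℂ) : Submodule ℚ ℂ :=
  (LgP p (𝕂 := 𝕂)).map (RingHom.toRatAlgHom (θ : 𝕂 →+* ℂ)).toLinearMap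

theorem mem_Lθ (θ : 𝕂 ≃+* ℂ) {z : ℂ} : z ∈ Lθ p θ ↔ θ.symm z ∈ LgP p (𝕂 := 𝕂) := by
  unfold Lθ
  rw [Submodule.mem_map]
  constructor
  · rintro ⟨u, hu, rfl⟩
    have : θ.symm ((RingHom.toRatAlgHom (θ : 𝕂 →+* ℂ)).toLinearMap u) = u := θ.symm_apply_apply u
    rw [this]; exact hu
  · intro h
    exact ⟨θ.symm z, h, θ.apply_symm_apply z⟩

theorem alg_symm (θ : 𝕂 ≃+* ℂ) {z : ℂ} (hz : IsAlgebraic ℚ z) : IsAlgebraic ℚ (θ.symm z) := by
  have := hz.algHom (RingHom.toRatAlgHom (θ.symm : ℂ →+* 𝕂))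
  exact this

theorem alg_map (θ : 𝕂 ≃+* ℂ) {z : 𝕂} (hz : IsAlgebraic ℚ z) : IsAlgebraic ℚ (θ z) := by
  have := hz.algHom (RingHom.toRatAlgHom (θ : 𝕂 →+* ℂ))
  exact this

/-- **The linear subgroup theorem for `p`-adic logarithms.** -/
theorem obsProp_padic (hZ : ZEG) (θ : 𝕂 ≃+* ℂ) : ObsProp (Lθ p θ) := by
  classical
  intro w b l r A γ ω u x y hγ hω hu huv κ μ σ hκ hcount
  have hpp : (0 : ℝ) < p := by exact_mod_cast hp.out.pos
  have hpi : (0 : ℝ) < (p : ℝ)⁻¹ := by positivity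
  have hpi1 : (p : ℝ)⁻¹ < 1 := by
    apply inv_lt_one_of_one_lt₀
    exact_mod_cast hp.out.one_lt
  choose N hN hN1 hN2 using fun j q => (mem_LgP p).mp ((mem_Lθ p θ).mp (hu j q))
  -- transported data
  set x' : Fin r → Fin b → 𝕂 := fun ρ j => θ.symm (x ρ j) with hx'
  set y' : Fin r → Fin l → 𝕂 := fun ρ q => θ.symm (y ρ q) with hy'
  set γ' : Fin w → Fin b → 𝕂 := fun i j => θ.symm (γ i j) with hγ'
  set ω' : Fin w → Fin l → 𝕂 := fun i q => θ.symm (ω i q) with hω'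
  set u' : Fin b → Fin l → 𝕂 := fun j q => θ.symm (u j q) with hu'
  have huv' : ∀ j q, u' j q = ∑ ρ, x' ρ j * y' ρ q + ∑ i, γ' i j * ω' i q := by
    intro j q
    simp only [hu', hx', hy', hγ', hω']
    rw [huv j q, map_add, map_sum, map_sum]
    simp only [map_mul]
  -- bounds
  obtain ⟨A0, hA0, hA1, hA2⟩ : ∃ A0 : ℝ, 1 ≤ A0 ∧ (∀ ρ j, ‖x' ρ j‖ ≤ A0) ∧ ∀ i j, ‖γ' i j‖ ≤ A0 := by
    have n1 : 0 ≤ ∑ ij : Fin r × Fin b, ‖x' ij.1 ij.2‖ := Finset.sum_nonneg fun _ _ => norm_nonneg _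
    have n2 : 0 ≤ ∑ ij : Fin w × Fin b, ‖γ' ij.1 ij.2‖ := Finset.sum_nonneg fun _ _ => norm_nonneg _
    refine ⟨1 + ((∑ ij : Fin r × Fin b, ‖x' ij.1 ij.2‖) + ∑ ij : Fin w × Fin b, ‖γ' ij.1 ij.2‖),
      by linarith, fun ρ j => ?_, fun i j => ?_⟩
    · have := Finset.single_le_sum (f := fun ij : Fin r × Fin b => ‖x' ij.1 ij.2‖)
        (fun _ _ => norm_nonneg _) (Finset.mem_univ (ρ, j))
      simp only at this
      linarith
    · have := Finset.single_le_sum (f := fun ij : Fin w × Fin b => ‖γ' ij.1 ij.2‖)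
        (fun _ _ => norm_nonneg _) (Finset.mem_univ (i, j))
      simp only at this
      linarith
  obtain ⟨C0, hC0, hC1, hC2⟩ : ∃ C0 : ℝ, 1 ≤ C0 ∧ (∀ ρ q, ‖y' ρ q‖ ≤ C0) ∧ ∀ i q, ‖ω' i q‖ ≤ C0 := by
    have n1 : 0 ≤ ∑ ij : Fin r × Fin l, ‖y' ij.1 ij.2‖ := Finset.sum_nonneg fun _ _ => norm_nonneg _
    have n2 : 0 ≤ ∑ ij : Fin w × Fin l, ‖ω' ij.1 ij.2‖ := Finset.sum_nonneg fun _ _ => norm_nonneg _
    refine ⟨1 + ((∑ ij : Fin r × Fin l, ‖y' ij.1 ij.2‖) + ∑ ij : Fin w × Fin l, ‖ω' ij.1 ij.2‖),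
      by linarith, fun ρ j => ?_, fun i j => ?_⟩
    · have := Finset.single_le_sum (f := fun ij : Fin r × Fin l => ‖y' ij.1 ij.2‖)
        (fun _ _ => norm_nonneg _) (Finset.mem_univ (ρ, j))
      simp only at this
      linarith
    · have := Finset.single_le_sum (f := fun ij : Fin w × Fin l => ‖ω' ij.1 ij.2‖)
        (fun _ _ => norm_nonneg _) (Finset.mem_univ (i, j))
      simp only at this
      linarith
  set B0 : ℝ := (1 / 2) * (p : ℝ)⁻¹ * A0⁻¹ with hB0def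
  have hA0' : 0 < A0 := by linarith
  have hB0 : 0 < B0 := by rw [hB0def]; positivity
  have hAB : A0 * B0 * p ≤ 1 / 2 := by
    rw [hB0def]
    apply le_of_eq
    field_simp
  obtain ⟨k, hk⟩ := exists_pow_lt_of_lt_one (show 0 < B0 / C0 by positivity) hpi1
  have hk' : (p : ℝ)⁻¹ ^ k * C0 ≤ B0 := by
    rw [lt_div_iff₀ (by linarith)] at hk
    exact hk.le
  -- the scaling factor
  set P : ℕ := ∏ jq : Fin b × Fin l, N jq.1 jq.2 with hP
  have hPpos : 1 ≤ P := Nat.succ_le_of_lt (Finset.prod_pos (fun (jq : Fin b × Fin l) _ => hN jq.1 jq.2))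
  set NN : ℕ := P * p ^ k with hNN
  have hNNpos : 0 < NN := Nat.mul_pos hPpos (pow_pos hp.out.pos k)
  have hNN0 : (NN : 𝕂) ≠ 0 := by exact_mod_cast hNNpos.ne'
  have hNNn : ‖(NN : 𝕂)‖ ≤ (p : ℝ)⁻¹ ^ k := by
    rw [hNN]
    push_cast
    rw [norm_mul, norm_pow, norm_p_eq p]
    have h1 := norm_natCast_le p (𝕂 := 𝕂) P
    calc _ ≤ 1 * (p : ℝ)⁻¹ ^ k := by gcongr
      _ = _ := one_mul _
  have hgood : ∀ j q, ‖(NN : 𝕂) * u' j q‖ < (p : ℝ)⁻¹ ∧ IsAlgebraic ℚ (exp ((NN : 𝕂) * u' j q)) := by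
    intro j q
    have hdvd : N j q ∣ NN := by
      rw [hNN, hP]
      exact Dvd.dvd.mul_right (Finset.dvd_prod_of_mem (fun jq : Fin b × Fin l => N jq.1 jq.2)
        (Finset.mem_univ (j, q))) _
    obtain ⟨M, hM⟩ := hdvd
    rw [hM]
    exact good_mul p (hN1 j q) (hN2 j q) M
  -- the number field
  obtain ⟨F, hF, hFmem⟩ := exists_fieldP
    ((univ.image (fun ij : Fin w × Fin b => γ' ij.1 ij.2)) ∪
      ((univ.image (fun ij : {i // i ∈ A} × Fin l => (NN : 𝕂) * ω' ij.1 ij.2)) ∪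
        (univ.image (fun ij : Fin b × Fin l => exp ((NN : 𝕂) * u' ij.1 ij.2))))) (by
      intro z hz
      simp only [Finset.mem_union, Finset.mem_image, Finset.mem_univ, true_and] at hz
      rcases hz with ⟨ij, rfl⟩ | ⟨ij, rfl⟩ | ⟨ij, rfl⟩
      · exact alg_symm θ (hγ _ _)
      · exact (isAlgebraic_natCast (R := ℚ) NN).mul (alg_symm θ (hω _ ij.1.2 _))
      · exact (hgood _ _).2)
  have h1 : ∀ i j, γ' i j ∈ F := fun i j => hFmem _ (by
    apply Finset.mem_union_left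
    exact Finset.mem_image.mpr ⟨(i, j), Finset.mem_univ _, rfl⟩)
  have h2 : ∀ i q, ∃ a : F, i ∈ A → (a : 𝕂) = (NN : 𝕂) * ω' i q := by
    intro i q
    by_cases hi : i ∈ A
    · exact ⟨⟨(NN : 𝕂) * ω' i q, hFmem _ (by
        apply Finset.mem_union_right
        apply Finset.mem_union_left
        exact Finset.mem_image.mpr ⟨(⟨i, hi⟩, q), Finset.mem_univ _, rfl⟩)⟩, fun _ => rfl⟩
    · exact ⟨0, fun h => absurd h hi⟩
  have h3 : ∀ j q, exp ((NN : 𝕂) * u' j q) ∈ F := fun j q => hFmem _ (by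
    apply Finset.mem_union_right
    apply Finset.mem_union_right
    exact Finset.mem_image.mpr ⟨(j, q), Finset.mem_univ _, rfl⟩)
  choose al hal using h2
  let ψ : F →+* 𝕂 := algebraMap F 𝕂
  obtain ⟨Af', Rm', W0, G0, k1, k2, k3, k4, k5⟩ := obstruction_fieldP p hZ ψ
    ((θ : 𝕂 →+* ℂ).comp ψ) A (fun i j => (⟨γ' i j, h1 i j⟩ : F)) al
    (fun j q => (⟨exp ((NN : 𝕂) * u' j q), h3 j q⟩ : F)) x' (fun ρ q => (NN : 𝕂) * y' ρ q)
    (fun i q => (NN : 𝕂) * ω' i q) hA0 hB0 hAB hA1 hA2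
    (by
      intro ρ q
      rw [norm_mul]
      calc ‖(NN : 𝕂)‖ * ‖y' ρ q‖ ≤ (p : ℝ)⁻¹ ^ k * C0 := by gcongr; exact hC1 ρ q
        _ ≤ B0 := hk')
    (by
      intro i q
      rw [norm_mul]
      calc ‖(NN : 𝕂)‖ * ‖ω' i q‖ ≤ (p : ℝ)⁻¹ ^ k * C0 := by gcongr; exact hC2 i q
        _ ≤ B0 := hk')
    (fun i hi q => hal i q hi)
    (by
      intro j q
      change exp ((NN : 𝕂) * u' j q) = _
      congr 1
      rw [huv' j q, mul_add, Finset.mul_sum, Finset.mul_sum]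
      congr 1
      · apply Finset.sum_congr rfl
        intro ρ _
        ring
      · apply Finset.sum_congr rfl
        intro i _
        change _ = γ' i j * _
        ring)
    κ μ σ hκ hcount
  have hθγ : ∀ i j, (θ : 𝕂 →+* ℂ).comp ψ (⟨γ' i j, h1 i j⟩ : F) = γ i j := fun i j =>
    θ.apply_symm_apply _
  refine ⟨Af', Rm', W0, G0, k1, k2, ?_, ?_, k5⟩
  · intro c
    rw [k3 c]
    simp only [hθγ]
  · intro s hs
    obtain ⟨g1, g2⟩ := (k4 s).mp hs
    have hNC : (NN : ℂ) ≠ 0 := by exact_mod_cast hNNpos.ne'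
    constructor
    · intro a ha
      have g3 := g1 a ha
      have g4 : ∀ i, a i * ∑ q, (θ : 𝕂 →+* ℂ).comp ψ (al i q) * (s q : ℂ) =
          (NN : ℂ) * (a i * ∑ q, ω i q * (s q : ℂ)) := by
        intro i
        by_cases hi : i ∈ A
        · have g5 : ∀ q, (θ : 𝕂 →+* ℂ).comp ψ (al i q) = (NN : ℂ) * ω i q := by
            intro q
            have g6 : ψ (al i q) = (NN : 𝕂) * ω' i q := hal i q hi
            rw [RingHom.comp_apply, g6, map_mul, map_natCast]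
            congr 1
            exact θ.apply_symm_apply _
          simp only [g5, mul_assoc, ← Finset.mul_sum]
          ring
        · rw [k1 a ha i hi, zero_mul, zero_mul, mul_zero]
      simp only [g4] at g3
      rw [← Finset.mul_sum] at g3
      exact (mul_eq_zero.mp g3).resolve_left hNC
    · intro m hm
      refine ⟨0, ?_⟩
      rw [Int.cast_zero, zero_mul]
      have g3 := g2 m hm
      have g4 : ∏ j, (∏ q, exp ((NN : 𝕂) * u' j q) ^ s q) ^ m j = 1 := by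
        apply θ.injective
        rw [map_one, ← g3, map_prod]
        apply Finset.prod_congr rfl
        intro j _
        rw [map_zpow₀, map_prod]
        congr 1
        apply Finset.prod_congr rfl
        intro q _
        rw [map_zpow₀]
        rfl
      have hs1 : ∀ j q, ‖((s q : ℤ) : 𝕂) * ((NN : 𝕂) * u' j q)‖ < (p : ℝ)⁻¹ := fun j q =>
        pnorm_int_mul_lt p (hgood j q).1 _
      have hs2 : ∀ j, ‖∑ q, ((s q : ℤ) : 𝕂) * ((NN : 𝕂) * u' j q)‖ < (p : ℝ)⁻¹ := fun j =>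
        pnorm_sum_lt _ _ hpi (fun q _ => hs1 j q)
      have hs3 : ∀ j, ‖((m j : ℤ) : 𝕂) * ∑ q, ((s q : ℤ) : 𝕂) * ((NN : 𝕂) * u' j q)‖ < (p : ℝ)⁻¹ :=
        fun j => pnorm_int_mul_lt p (hs2 j) _
      have g5 : exp (∑ j, ((m j : ℤ) : 𝕂) * ∑ q, ((s q : ℤ) : 𝕂) * ((NN : 𝕂) * u' j q)) = 1 := by
        rw [pexp_sum p _ _ (fun j _ => hs3 j), ← g4]
        apply Finset.prod_congr rfl
        intro j _
        rw [pexp_int_mul p (hs2 j), pexp_sum p _ _ (fun q _ => hs1 j q)]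
        congr 1
        apply Finset.prod_congr rfl
        intro q _
        rw [pexp_int_mul p (hgood j q).1]
      have g6 := pexp_eq_one p (pnorm_sum_lt _ _ hpi (fun j _ => hs3 j)) g5
      have g7 : (NN : 𝕂) * ∑ j, ∑ q, ((m j : ℤ) : 𝕂) * ((s q : ℤ) : 𝕂) * u' j q = 0 := by
        rw [← g6, Finset.mul_sum]
        apply Finset.sum_congr rfl
        intro j _
        rw [Finset.mul_sum, Finset.mul_sum]
        apply Finset.sum_congr rfl
        intro q _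
        ring
      have g8 := (mul_eq_zero.mp g7).resolve_left hNN0
      have g9 := congrArg θ g8
      rw [map_zero, map_sum] at g9
      rw [← g9]
      apply Finset.sum_congr rfl
      intro j _
      rw [map_sum]
      apply Finset.sum_congr rfl
      intro q _
      rw [map_mul, map_mul, map_intCast, map_intCast]
      congr 1
      exact (θ.apply_symm_apply _).symm

end padic

end Pool.Agent.W254.PA
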