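import Pool.Agent.W254.PA.AuxP
import Pool.Agent.H335R2.Obs.Main

/-!
# The obstruction theorem (linear subgroup theorem), `p`-adic version
-/

set_option autoImplicit false

open MvPolynomial Finset Module

namespace Pool.Agent.W254.PA

open Pool.Agent.H364R2 Pool.Agent.H335R2 NormedSpace
open Pool.Agent.H301R2.TR (entG entG_map JG)
open Pool.Agent.H335R2.Obs (ZEG key_ineq final_arith)

variable (p : ℕ) [hp : Fact p.Prime] {𝕂 : Type*} [NontriviallyNormedField 𝕂] [NormedAlgebra ℚ_[p] 𝕂]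
  [CharZero 𝕂] [CompleteSpace 𝕂] [IsUltrametricDist 𝕂]

/-- **Obstruction theorem** (number field form). -/
theorem obstruction_fieldP (hZ : ZEG) {F : Type*} [Field F] [NumberField F] (ψ : F →+* 𝕂) (φ : F →+* ℂ)
    {w b l r : ℕ}
    (A : Finset (Fin w)) (γ : Fin w → Fin b → F) (α : Fin w → Fin l → F) (χ : Fin b → Fin l → F)
    (x : Fin r → Fin b → 𝕂) (y : Fin r → Fin l → 𝕂) (ω : Fin w → Fin l → 𝕂)
    {A0 B0 : ℝ} (hA0 : 1 ≤ A0) (hB0 : 0 < B0) (hAB : A0 * B0 * p ≤ 1 / 2)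
    (hx : ∀ ρ j, ‖x ρ j‖ ≤ A0) (hγ : ∀ i j, ‖ψ (γ i j)‖ ≤ A0) (hy : ∀ ρ q, ‖y ρ q‖ ≤ B0)
    (hω : ∀ i q, ‖ω i q‖ ≤ B0)
    (hα : ∀ i ∈ A, ∀ q, ψ (α i q) = ω i q)
    (hχ : ∀ j q, ψ (χ j q) = exp (∑ ρ, x ρ j * y ρ q + ∑ i, ψ (γ i j) * ω i q))
    (κ μ σ : ℕ) (hκ : μ + σ = κ) (hcount : (κ + 1) * (r + w) + 1 ≤ A.card * κ + b * μ) :
    ∃ (Af' : Submodule ℂ (Fin w → ℂ)) (Rm' : AddSubgroup (Fin b → ℤ))
      (W0 : Submodule ℂ (Fin w → ℂ)) (G0 : AddSubgroup (Fin l → ℤ)),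
      (∀ a ∈ Af', ∀ i ∉ A, a i = 0) ∧ ¬ (Af' = ⊥ ∧ Rm' = ⊥) ∧
      (∀ c, c ∈ W0 ↔ (∀ a ∈ Af', ∑ i, a i * c i = 0) ∧
        ∀ m ∈ Rm', ∑ j, (m j : ℂ) * ∑ i, c i * φ (γ i j) = 0) ∧
      (∀ s, s ∈ G0 ↔ (∀ a ∈ Af', ∑ i, a i * ∑ q, φ (α i q) * (s q : ℂ) = 0) ∧
        ∀ m ∈ Rm', ∏ j, (∏ q, φ (χ j q) ^ s q) ^ m j = 1) ∧
      ((w - finrank ℂ W0) * κ + (l - finrank ℤ G0) * σ < finrank ℂ Af' * κ + finrank ℤ Rm' * μ ∨
        ((w - finrank ℂ W0) * κ + (l - finrank ℤ G0) * σ =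
          finrank ℂ Af' * κ + finrank ℤ Rm' * μ ∧ w - finrank ℂ W0 = 0 ∧
            l - finrank ℤ G0 = 0)) := by
  classical
  set N := A.card + b with hN
  set C := 2 ^ ((N + 1) * N) with hC
  have hC1 : 1 ≤ C := Nat.one_le_two_pow
  have hpp : (0 : ℝ) < p := by exact_mod_cast hp.out.pos
  have hpi : (0 : ℝ) < (p : ℝ)⁻¹ := by positivity
  have hABlt : A0 * B0 < (p : ℝ)⁻¹ := by
    have h1 : A0 * B0 ≤ (1 / 2) * (p : ℝ)⁻¹ := by
      rw [← div_eq_mul_inv, le_div_iff₀ hpp]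
      exact hAB
    linarith
  obtain ⟨n0, hn0⟩ := exists_aux_posP p ψ A γ α χ x y ω hA0 hB0 hAB hx hγ hy hω hα hχ κ μ σ
    (N * (w + 1) * (C + 1) + 1) hκ hcount (by omega)
  obtain ⟨n, hn⟩ : ∃ n, n = max n0 (C + 1) := ⟨_, rfl⟩
  obtain ⟨PF, hPF, hPFv⟩ := hn0 n (by omega)
  obtain ⟨P, hPdef⟩ : ∃ P : JG (fun i => if i ∈ A then n ^ κ else 0) b (n ^ μ) → ℂ,
    P = fun j => φ (PF j) := ⟨_, rfl⟩
  have hP : P ≠ 0 := by
    intro h
    apply hPF
    funext j
    apply (map_eq_zero φ).mp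
    have := congrFun h j
    rw [hPdef] at this
    exact this
  have hPv : ∀ (t : Fin w → ℕ) (s : Fin l → ℕ), (∀ i, t i ≤ N * (w + 1) * (C + 1) * n ^ κ) →
      (∀ q, s q ≤ N * (w + 1) * (C + 1) * n ^ σ) →
        ∑ j, P j * entG (fun i j => φ (γ i j)) (fun i q => φ (α i q)) (fun j q => φ (χ j q))
          (fun i => (j.1 i : ℕ)) (fun i => (j.2 i : ℕ)) t s = 0 := by
    intro t s ht hs
    have h1 := hPFv t s (fun i => (ht i).trans (Nat.mul_le_mul_right _ (by omega)))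
      (fun q => (hs q).trans (Nat.mul_le_mul_right _ (by omega)))
    have h2 := congrArg φ h1
    rw [map_zero, map_sum] at h2
    rw [← h2]
    apply Finset.sum_congr rfl
    intro j _
    rw [map_mul, hPdef]
    congr 1
    exact (entG_map φ γ α χ _ _ t s).symm
  have hχ0 : ∀ j q, φ (χ j q) ≠ 0 := by
    intro j q h
    have h1 : χ j q = 0 := (map_eq_zero φ).mp h
    have h2 := hχ j q
    rw [h1, map_zero] at h2
    refine pexp_ne_zero p ?_ h2.symm
    refine lt_of_le_of_lt (IsUltrametricDist.norm_add_le_max _ _) (max_lt ?_ ?_)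
    · refine lt_of_le_of_lt (pnorm_sum_le _ _ (r := A0 * B0) (by positivity) ?_) hABlt
      intro ρ _
      rw [norm_mul]
      exact mul_le_mul (hx ρ j) (hy ρ q) (norm_nonneg _) (by linarith)
    · refine lt_of_le_of_lt (pnorm_sum_le _ _ (r := A0 * B0) (by positivity) ?_) hABlt
      intro i _
      rw [norm_mul]
      exact mul_le_mul (hγ i j) (hω i q) (norm_nonneg _) (by linarith)
  have hn1 : 1 ≤ n := by omega
  obtain ⟨Af', Rm', W0, G0, h1, h2, h3, h4, l', q', h5, h6, h7, h8⟩ :=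
    key_ineq A (fun i j => φ (γ i j)) (fun i q => φ (α i q)) (fun j q => φ (χ j q)) hZ hχ0
      (n ^ κ) (n ^ μ) ((w + 1) * (C + 1) * n ^ κ) ((w + 1) * (C + 1) * n ^ σ)
      (Nat.one_le_pow _ _ hn1) (Nat.one_le_pow _ _ hn1) P
      (fun j i => (j.1 i : ℕ)) (fun j i => (j.2 i : ℕ))
      (by
        intro j i hi
        have : (j.1 i : ℕ) < (if i ∈ A then n ^ κ else 0) + 1 := (j.1 i).2
        rw [if_neg hi] at this
        omega)
      (by
        intro j j' h h'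
        apply Prod.ext
        · funext i; exact Fin.ext (congrFun h i)
        · funext i; exact Fin.ext (congrFun h' i))
      hP
      (by
        intro j i
        have : (j.1 i : ℕ) < (if i ∈ A then n ^ κ else 0) + 1 := (j.1 i).2
        split_ifs at this <;> omega)
      (by
        intro j i
        have := (j.2 i).2
        omega)
      (by
        intro t s ht hs
        apply hPv t s
        · intro i
          refine (ht i).trans (le_of_eq ?_)
          rw [← hN]; ring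
        · intro q
          refine (hs q).trans (le_of_eq ?_)
          rw [← hN]; ring)
  refine ⟨Af', Rm', W0, G0, h1, h2, h3, h4, ?_⟩
  have h9 : ((C + 1) * n ^ σ) ^ q' * ((C + 1) * n ^ κ) ^ l' ≤
      C * ((n ^ κ) ^ finrank ℂ Af' * (n ^ μ) ^ finrank ℤ Rm') := by
    refine le_trans ?_ h8
    apply Nat.mul_le_mul
    · apply Nat.pow_le_pow_left
      calc (C + 1) * n ^ σ = 1 * ((C + 1) * n ^ σ) := (one_mul _).symm
        _ ≤ (w + 1) * ((C + 1) * n ^ σ) := Nat.mul_le_mul_right _ (by omega)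
        _ = (w + 1) * (C + 1) * n ^ σ := by ring
        _ ≤ _ := Nat.le_succ _
    · rcases Nat.eq_zero_or_pos l' with h0 | h0
      · rw [h0, pow_zero, pow_zero]
      · apply Nat.pow_le_pow_left
        have h10 : (C + 1) * n ^ κ ≤ (w + 1) * (C + 1) * n ^ κ / l' := by
          rw [Nat.le_div_iff_mul_le h0]
          calc (C + 1) * n ^ κ * l' ≤ (C + 1) * n ^ κ * (w + 1) := Nat.mul_le_mul_left _ (by omega)
            _ = _ := by ring
        omega
  have h10 := final_arith (κ := κ) (μ := μ) (σ := σ) hC1 (by omega) (by omega) h9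
  have h11 : w - finrank ℂ W0 ≤ l' := by omega
  have h12 : l - finrank ℤ G0 ≤ q' := by omega
  have h13 : (w - finrank ℂ W0) * κ ≤ l' * κ := Nat.mul_le_mul_right _ h11
  have h14 : (l - finrank ℤ G0) * σ ≤ q' * σ := Nat.mul_le_mul_right _ h12
  rcases h10 with h10 | ⟨h10, h15, h16⟩
  · left; omega
  · rcases Nat.lt_or_ge ((w - finrank ℂ W0) * κ + (l - finrank ℤ G0) * σ)
      (finrank ℂ Af' * κ + finrank ℤ Rm' * μ) with h17 | h17
    · exact Or.inl h17
    · right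
      refine ⟨by omega, by omega, by omega⟩


end Pool.Agent.W254.PA
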