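import Pool.Agent.W254.PA.HypC

/-!
# The hyperplane property over the field of algebraic numbers of an algebraically closed field
-/

set_option autoImplicit false

namespace Pool.Agent.W254.PA

open Module Finset

/-- the hyperplane property for a space `V` -/
def Hyp {k E : Type*} [Field k] [Field E] [Algebra k E] (V : Submodule k E) : Prop :=
  ∀ (d l : ℕ) (x : Fin d → E) (a : Fin d → Fin l → E), LinearIndependent k x →
    (∀ i j, a i j ∈ V) → (∀ j, ∑ i, x i * a i j = 0) →
    LinearIndependent k (fun j i => a i j) → l ≤ d * (d - 1)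

theorem exists_preimage {E : Type*} [Field E] [CharZero E] [IsAlgClosed E] (Θ : E →+* ℂ) {c : ℂ}
    (hc : IsAlgebraic ℚ c) : ∃ c' : E, IsAlgebraic ℚ c' ∧ Θ c' = c := by
  have h1 : (minpoly ℚ c).aeval c = 0 := minpoly.aeval ℚ c
  have h0 : minpoly ℚ c ≠ 0 := minpoly.ne_zero hc.isIntegral
  have h2 : ((minpoly ℚ c).map (algebraMap ℚ E)).Splits := IsAlgClosed.splits _
  have h3 : (minpoly ℚ c).map (algebraMap ℚ E) ≠ 0 :=
    (Polynomial.map_ne_zero_iff (algebraMap ℚ E).injective).mpr h0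
  have h4 : (((minpoly ℚ c).map (algebraMap ℚ E)).map Θ).IsRoot c := by
    rw [Polynomial.IsRoot.def, Polynomial.map_map, Polynomial.eval_map]
    have h5 : Θ.comp (algebraMap ℚ E) = algebraMap ℚ ℂ := RingHom.ext_rat _ _
    rw [h5]
    exact h1
  obtain ⟨c', hc'⟩ := h2.mem_range_of_isRoot h3 h4
  refine ⟨c', ?_, hc'⟩
  refine ⟨minpoly ℚ c, h0, ?_⟩
  apply Θ.injective
  rw [map_zero]
  have h6 : Θ ((Polynomial.aeval c') (minpoly ℚ c)) =
      Polynomial.aeval (RingHom.toRatAlgHom Θ c') (minpoly ℚ c) :=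
    (Polynomial.aeval_algHom_apply (RingHom.toRatAlgHom Θ) c' (minpoly ℚ c)).symm
  rw [h6]
  have h7 : RingHom.toRatAlgHom Θ c' = c := hc'
  rw [h7]
  exact h1

theorem alg_Θ {E : Type*} [Field E] [CharZero E] (Θ : E →+* ℂ) {c : E}
    (hc : IsAlgebraic ℚ c) : IsAlgebraic ℚ (Θ c) :=
  hc.algHom (RingHom.toRatAlgHom Θ)

section embed

variable {E : Type*} [Field E] [CharZero E] (Θ : E →+* ℂ) (𝓛 : Submodule ℚ ℂ) (S : Set E)

/-- linear forms in `1` and elements of `S` with algebraic coefficients -/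
noncomputable def LtE : Submodule (algebraicClosure ℚ E) E :=
  Submodule.span (algebraicClosure ℚ E) ({1} ∪ S)

theorem LtE_rep (hS : ∀ z ∈ S, Θ z ∈ 𝓛) {z : E} (hz : z ∈ LtE S) :
    ∃ T : Finset ℂ, (∀ a ∈ T, IsAlgebraic ℚ a) ∧
      ∀ K : IntermediateField ℚ ℂ, (∀ a ∈ T, a ∈ K) → Θ z ∈ LKP K 𝓛 := by
  classical
  refine Submodule.span_induction (p := fun z _ => ∃ T : Finset ℂ, (∀ a ∈ T, IsAlgebraic ℚ a) ∧
      ∀ K : IntermediateField ℚ ℂ, (∀ a ∈ T, a ∈ K) → Θ z ∈ LKP K 𝓛) ?_ ?_ ?_ ?_ hz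
  · rintro z (hz | hz)
    · rw [Set.mem_singleton_iff] at hz
      subst hz
      refine ⟨∅, by simp, fun K _ => ?_⟩
      rw [map_one]
      exact Submodule.subset_span (Or.inl rfl)
    · exact ⟨∅, by simp, fun K _ => Submodule.subset_span (Or.inr (hS z hz))⟩
  · refine ⟨∅, by simp, fun K _ => ?_⟩
    rw [map_zero]
    exact Submodule.zero_mem _
  · rintro z z' _ _ ⟨T, hT, h⟩ ⟨T', hT', h'⟩
    refine ⟨T ∪ T', fun a ha => ?_, fun K hK => ?_⟩
    · rcases Finset.mem_union.mp ha with h1 | h1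
      · exact hT a h1
      · exact hT' a h1
    · rw [map_add]
      exact Submodule.add_mem _ (h K (fun a ha => hK a (Finset.mem_union_left _ ha)))
        (h' K (fun a ha => hK a (Finset.mem_union_right _ ha)))
  · rintro a z _ ⟨T, hT, h⟩
    refine ⟨insert (Θ (a : E)) T, fun b hb => ?_, fun K hK => ?_⟩
    · rcases Finset.mem_insert.mp hb with h1 | h1
      · rw [h1]
        exact alg_Θ Θ (mem_algebraicClosure_iff.mp a.2)
      · exact hT b h1
    · have h1 := h K (fun a ha => hK a (Finset.mem_insert_of_mem ha))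
      have h2 : Θ (a : E) ∈ K := hK _ (Finset.mem_insert_self _ _)
      have h3 := (LKP K 𝓛).smul_mem (⟨Θ (a : E), h2⟩ : K) h1
      rw [Algebra.smul_def] at h3 ⊢
      rw [map_mul]
      exact h3

/-- **The hyperplane theorem over an algebraically closed field.** -/
theorem hyp_of_embed [IsAlgClosed E] (hO : ObsProp 𝓛) (hS : ∀ z ∈ S, Θ z ∈ 𝓛) : Hyp (LtE S) := by
  classical
  intro d l x a hx ha hxa hcol
  choose T hT h using fun i j => LtE_rep Θ 𝓛 S hS (ha i j)
  let T' : Finset ℂ := Finset.univ.biUnion (fun ij : Fin d × Fin l => T ij.1 ij.2)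
  have hT' : ∀ a ∈ T', IsAlgebraic ℚ a := by
    intro a ha
    obtain ⟨ij, -, h1⟩ := Finset.mem_biUnion.mp ha
    exact hT _ _ a h1
  let K : IntermediateField ℚ ℂ := IntermediateField.adjoin ℚ (T' : Set ℂ)
  haveI : FiniteDimensional ℚ K := by
    apply IntermediateField.finiteDimensional_adjoin
    intro x hx
    exact (hT' x hx).isIntegral
  have hKalg : ∀ a : K, IsAlgebraic ℚ (a : ℂ) := fun a =>
    (Algebra.IsAlgebraic.isAlgebraic (R := ℚ) a).algebraMap (A := ℂ)
  choose π hπ1 hπ2 using fun a : K => exists_preimage Θ (hKalg a)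
  have hmem : ∀ i j, Θ (a i j) ∈ LKP K 𝓛 := fun i j => h i j K (fun a ha => by
    apply IntermediateField.subset_adjoin ℚ (T' : Set ℂ)
    exact Finset.mem_biUnion.mpr ⟨(i, j), Finset.mem_univ _, ha⟩)
  refine hypP K 𝓛 hO d l (fun i => Θ (x i)) (fun i j => Θ (a i j)) ?_ hmem ?_ ?_
  · intro c hc i
    have h1 := Fintype.linearIndependent_iff.mp hx
      (fun i => (⟨π (c i), mem_algebraicClosure_iff.mpr (hπ1 (c i))⟩ : algebraicClosure ℚ E)) (by
      apply Θ.injective
      rw [map_zero, ← hc, map_sum]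
      apply Finset.sum_congr rfl
      intro i _
      rw [Algebra.smul_def, map_mul]
      congr 1
      exact hπ2 (c i)) i
    have h2 : π (c i) = 0 := congrArg (fun z : algebraicClosure ℚ E => (z : E)) h1
    have h3 := hπ2 (c i)
    rw [h2, map_zero] at h3
    exact Subtype.ext h3.symm
  · intro j
    rw [← map_zero Θ, ← hxa j, map_sum]
    apply Finset.sum_congr rfl
    intro i _
    rw [map_mul]
  · intro c hc j
    have h1 := Fintype.linearIndependent_iff.mp hcol
      (fun j => (⟨π (c j), mem_algebraicClosure_iff.mpr (hπ1 (c j))⟩ : algebraicClosure ℚ E)) (by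
      funext i
      rw [Finset.sum_apply, Pi.zero_apply]
      apply Θ.injective
      rw [map_zero, ← hc i, map_sum]
      apply Finset.sum_congr rfl
      intro j _
      rw [Pi.smul_apply, Algebra.smul_def, map_mul]
      congr 1
      exact hπ2 (c j)) j
    have h2 : π (c j) = 0 := congrArg (fun z : algebraicClosure ℚ E => (z : E)) h1
    have h3 := hπ2 (c j)
    rw [h2, map_zero] at h3
    exact Subtype.ext h3.symm

end embed

end Pool.Agent.W254.PA
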