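import Pool.Agent.W254.PA.Expand

/-!
# Upper bound for interpolation determinants, `p`-adic version
-/

set_option autoImplicit false

namespace Pool.Agent.W254.PA

open Finset Matrix NormedSpace
open Pool.Agent.H301R2.TR (LamF)

/-- product of approximations -/
theorem norm_prod_sub_prod_leP {𝕂 : Type*} [NormedField 𝕂] {L : Type*} (s : Finset L) (F A : L → 𝕂)
    (B δ : ℝ) (hB : 1 ≤ B) (hδ : 0 ≤ δ) (hF : ∀ l ∈ s, ‖F l‖ ≤ B) (hA : ∀ l ∈ s, ‖A l‖ ≤ B)
    (hd : ∀ l ∈ s, ‖F l - A l‖ ≤ B * δ) :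
    ‖∏ l ∈ s, F l - ∏ l ∈ s, A l‖ ≤ s.card * B ^ s.card * δ := by
  classical
  induction s using Finset.induction_on with
  | empty => simp
  | insert x s hx ih =>
    rw [Finset.prod_insert hx, Finset.prod_insert hx, Finset.card_insert_of_notMem hx]
    have ih' := ih (fun l hl => hF l (Finset.mem_insert_of_mem hl))
      (fun l hl => hA l (Finset.mem_insert_of_mem hl)) (fun l hl => hd l (Finset.mem_insert_of_mem hl))
    have hFx := hF x (Finset.mem_insert_self _ _)
    have hAx := hA x (Finset.mem_insert_self _ _)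
    have hdx := hd x (Finset.mem_insert_self _ _)
    have hPA : ‖∏ l ∈ s, A l‖ ≤ B ^ s.card := by
      rw [norm_prod]
      refine (Finset.prod_le_prod (fun _ _ => norm_nonneg _)
        (fun l hl => hA l (Finset.mem_insert_of_mem hl))).trans ?_
      rw [Finset.prod_const]
    have e : F x * ∏ l ∈ s, F l - A x * ∏ l ∈ s, A l
        = F x * (∏ l ∈ s, F l - ∏ l ∈ s, A l) + (F x - A x) * ∏ l ∈ s, A l := by ring
    rw [e]
    refine (norm_add_le _ _).trans ?_
    rw [norm_mul, norm_mul]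
    have hB0 : 0 ≤ B := by linarith
    calc ‖F x‖ * ‖∏ l ∈ s, F l - ∏ l ∈ s, A l‖ + ‖F x - A x‖ * ‖∏ l ∈ s, A l‖
        ≤ B * (s.card * B ^ s.card * δ) + (B * δ) * B ^ s.card := by gcongr
      _ = ((s.card + 1 : ℕ) : ℝ) * B ^ (s.card + 1) * δ := by
        push_cast; ring

variable (p : ℕ) [hp : Fact p.Prime] {𝕂 : Type*} [NontriviallyNormedField 𝕂] [NormedAlgebra ℚ_[p] 𝕂]
  [CompleteSpace 𝕂] [CharZero 𝕂]

/-- Upper bound for interpolation determinants. -/
theorem det_upperP {L J : Type*} [Fintype L] [Fintype J] [DecidableEq J] [DecidableEq L]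
    (k : J → L → ℕ) (a : J → L → 𝕂) (t : J → L → ℕ) (w : J → L → 𝕂)
    (H Q : ℕ) (A W B : ℝ) (hA : 1 ≤ A) (hW : 0 < W) (hAW : A * W * p ≤ 1 / 2)
    (ha : ∀ j l, ‖a j l‖ ≤ A) (hw : ∀ i l, ‖w i l‖ ≤ W)
    (hH : ∀ j i l, k j l + t i l ≤ H) (hB : (1 + W⁻¹) ^ H ≤ B) :
    ‖Matrix.det (fun j i : J => ∏ l, (LamF (a j l) (k j l) (t i l) (w i l)
        * exp (a j l * w i l)))‖ ≤
      2 ^ (Fintype.card J) * (Nat.factorial (Fintype.card J) : ℝ)
      * ((Fintype.card L + 1) * (2 * B) ^ (Fintype.card L)) ^ (Fintype.card J)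
      * ((1 / 2 : ℝ) ^ Q) ^ (Fintype.card J - Q ^ (Fintype.card L)) := by
  let U : Matrix J (L → Fin Q) 𝕂 := fun j κ => ∏ l, coefP (a j l) (k j l) (κ l)
  let V : Matrix (L → Fin Q) J 𝕂 := fun κ i =>
    ∏ l, ((((κ l : ℕ)).descFactorial (t i l) : 𝕂) * w i l ^ ((κ l : ℕ) - t i l))
  let F : Matrix J J 𝕂 := fun j i => ∏ l, (LamF (a j l) (k j l) (t i l) (w i l)
        * exp (a j l * w i l))
  have hUV : ∀ j i, (U * V) j i = ∏ l, truncP Q (a j l) (k j l) (t i l) (w i l) := by
    intro j i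
    simp only [Matrix.mul_apply, U, V, truncP]
    rw [Finset.prod_univ_sum, Fintype.piFinset_univ]
    apply Finset.sum_congr rfl
    intro κ _
    rw [← Finset.prod_mul_distrib]
  have hW1 : (1 : ℝ) ≤ (1 + W⁻¹) ^ H := one_le_pow₀ (by have : 0 < W⁻¹ := by positivity
                                                        linarith)
  have hE1 : 1 ≤ B := hW1.trans hB
  have hB1 : (1 : ℝ) ≤ 2 * B := by linarith
  have hB0 : (0 : ℝ) ≤ 2 * B := by linarith
  have hlb := fun j i l => lam_boundsP p (a := a j l) (w := w i l) (k j l) (t i l) H hA hW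
    (ha j l) (hw i l) hAW (hH j i l) Q
  have hpow : (1 : ℝ) ≤ (2 * B) ^ (Fintype.card L) := one_le_pow₀ hB1
  have hcardL : (0 : ℝ) ≤ (Fintype.card L : ℝ) := Nat.cast_nonneg _
  have hle : (2 : ℝ) * (1 + W⁻¹) ^ H ≤ 2 * B := by linarith
  have hmain := norm_det_low_rank_le U V (F - U * V)
    ((Fintype.card L + 1) * (2 * B) ^ (Fintype.card L)) ((1 / 2 : ℝ) ^ Q)
    (by nlinarith) (by positivity) (pow_le_one₀ (by norm_num) (by norm_num)) ?_ ?_
  · have e : U * V + (F - U * V) = F := by abel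
    rw [e] at hmain
    have e2 : Fintype.card (L → Fin Q) = Q ^ Fintype.card L := by simp
    rw [e2] at hmain
    exact hmain
  · intro j i
    rw [hUV, norm_prod]
    calc ∏ l, ‖truncP Q (a j l) (k j l) (t i l) (w i l)‖ ≤ ∏ _l : L, (2 * B) :=
          Finset.prod_le_prod (fun _ _ => norm_nonneg _) (fun l _ => (hlb j i l).2.1.trans hle)
      _ = (2 * B) ^ (Fintype.card L) := by rw [Finset.prod_const, Finset.card_univ]
      _ ≤ _ := by nlinarith
  · intro j i
    have e1 : (F - U * V) j i = (∏ l, (LamF (a j l) (k j l) (t i l) (w i l)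
        * exp (a j l * w i l))) - ∏ l, truncP Q (a j l) (k j l) (t i l) (w i l) := by
      rw [← hUV]; rfl
    rw [e1]
    have := norm_prod_sub_prod_leP (Finset.univ : Finset L)
      (fun l => LamF (a j l) (k j l) (t i l) (w i l) * exp (a j l * w i l))
      (fun l => truncP Q (a j l) (k j l) (t i l) (w i l)) (2 * B) ((1 / 2) ^ Q) hB1 (by positivity)
      (fun l _ => (hlb j i l).1.trans hle) (fun l _ => (hlb j i l).2.1.trans hle)
      (fun l _ => (hlb j i l).2.2.trans (by gcongr))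
    rw [Finset.card_univ] at this
    refine this.trans ?_
    have h1 : (0 : ℝ) ≤ (1 / 2 : ℝ) ^ Q := by positivity
    have h2 : (0 : ℝ) ≤ (2 * B) ^ (Fintype.card L) := by positivity
    gcongr
    linarith

end Pool.Agent.W254.PA
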