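import Pool.Agent.W254.PA.Lower
import Pool.Agent.H301R2.TR.Vanish

/-!
# Vanishing of interpolation determinants, `p`-adic version
-/

set_option autoImplicit false

namespace Pool.Agent.W254.PA

open Finset Matrix NormedSpace
open Pool.Agent.H301R2.TR (LamF E1 E1_one_le)

variable (p : ℕ) [hp : Fact p.Prime] {𝕂 : Type*} [NontriviallyNormedField 𝕂] [NormedAlgebra ℚ_[p] 𝕂]
  [CharZero 𝕂] [CompleteSpace 𝕂] [IsUltrametricDist 𝕂]

/-- Interpolation determinants with algebraic entries vanish, if the parameters are well chosen. -/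
theorem det_vanishP {K : Type*} [Field K] [NumberField K] (φ : K →+* 𝕂)
    {L J : Type*} [Fintype L] [Fintype J] [DecidableEq J] [DecidableEq L]
    (k : J → L → ℕ) (a : J → L → 𝕂) (t : J → L → ℕ) (w : J → L → 𝕂)
    (H Q : ℕ) (A W Y : ℝ) (hA : 1 ≤ A) (hW : 0 < W) (hAW : A * W * p ≤ 1 / 2)
    (ha : ∀ j l, ‖a j l‖ ≤ A) (hw : ∀ i l, ‖w i l‖ ≤ W)
    (hH : ∀ j i l, k j l + t i l ≤ H) (hY : 0 ≤ Y) (hWH : (1 + W⁻¹) ^ H ≤ E1 H Y)
    (e : Matrix J J K) (d h : ℕ) (hd : 0 < d) (B : ℝ)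
    (hB : 1 ≤ B) (hint : ∀ j i, IsIntegral ℤ ((d : K) ^ h * e j i))
    (hbd : ∀ σ : K →ₐ[ℚ] ℂ, ∀ j i, ‖σ (e j i)‖ ≤ B)
    (he : ∀ j i, φ (e j i) = ∏ l, (LamF (a j l) (k j l) (t i l) (w i l)
        * exp (a j l * w i l)))
    (hJ : 0 < Fintype.card J) (hN : 2 * Q ^ Fintype.card L ≤ Fintype.card J)
    (hlarge : (2 * (Fintype.card J : ℝ) * ((Fintype.card L + 1) * (2 * E1 H Y) ^ (Fintype.card L))
      * ((d : ℝ) ^ h) ^ (Module.finrank ℚ K)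
      * ((Fintype.card J : ℝ) * B) ^ (Module.finrank ℚ K)) ^ 2 < 2 ^ Q) :
    e.det = 0 := by
  by_contra hne
  have hlow := det_lowerP p φ e d h hd B hB hint hbd hne
  have hup := det_upperP p k a t w H Q A W (E1 H Y) hA hW hAW ha hw hH hWH
  have e1 : φ e.det = Matrix.det (fun j i : J => ∏ l, (LamF (a j l) (k j l) (t i l) (w i l)
        * exp (a j l * w i l))) := by
    have h1 := RingHom.map_det φ e
    have h2 : φ.mapMatrix e = (fun j i : J => ∏ l, (LamF (a j l) (k j l) (t i l) (w i l)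
        * exp (a j l * w i l))) := by
      ext j i
      exact he j i
    rw [h2] at h1
    exact h1
  rw [← e1] at hup
  set N := Fintype.card J with hNdef
  set D := Module.finrank ℚ K with hD
  set C : ℝ := ((Fintype.card L + 1) * (2 * E1 H Y) ^ (Fintype.card L)) with hC
  have hE1 : 1 ≤ E1 H Y := E1_one_le H Y hY
  have hC1 : 1 ≤ C := by
    have h1 : (1 : ℝ) ≤ (2 * E1 H Y) ^ (Fintype.card L) := one_le_pow₀ (by linarith)
    have h2 : (0 : ℝ) ≤ (Fintype.card L : ℝ) := Nat.cast_nonneg _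
    rw [hC]; nlinarith
  have hfac : (Nat.factorial N : ℝ) ≤ (N : ℝ) ^ N := by exact_mod_cast Nat.factorial_le_pow N
  have hd1 : (1 : ℝ) ≤ (d : ℝ) := by exact_mod_cast hd
  have hdh : (1 : ℝ) ≤ (d : ℝ) ^ h := one_le_pow₀ hd1
  have hN1 : (1 : ℝ) ≤ (N : ℝ) := by exact_mod_cast hJ
  set G : ℝ := 2 * (N : ℝ) * C * ((d : ℝ) ^ h) ^ D * ((N : ℝ) * B) ^ D with hG
  have hG0 : 0 < G := by rw [hG]; positivity
  -- combine
  have hcomb : 1 ≤ G ^ N * ((1 / 2 : ℝ) ^ Q) ^ (N - Q ^ Fintype.card L) := by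
    calc (1 : ℝ) ≤ ‖φ e.det‖ * ((d : ℝ) ^ h) ^ (N * D)
          * ((Nat.factorial N : ℝ) * B ^ N) ^ D := hlow
      _ ≤ (2 ^ N * (Nat.factorial N : ℝ) * C ^ N * ((1 / 2 : ℝ) ^ Q) ^ (N - Q ^ Fintype.card L))
          * ((d : ℝ) ^ h) ^ (N * D) * ((Nat.factorial N : ℝ) * B ^ N) ^ D := by
          gcongr
      _ ≤ (2 ^ N * (N : ℝ) ^ N * C ^ N * ((1 / 2 : ℝ) ^ Q) ^ (N - Q ^ Fintype.card L))
          * ((d : ℝ) ^ h) ^ (N * D) * ((N : ℝ) ^ N * B ^ N) ^ D := by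
          gcongr
      _ = G ^ N * ((1 / 2 : ℝ) ^ Q) ^ (N - Q ^ Fintype.card L) := by
          rw [hG]
          simp only [mul_pow, ← pow_mul]
          ring_nf
  have hsq : 1 ≤ (G ^ 2 * (1 / 2 : ℝ) ^ Q) ^ N := by
    have h1 : (1 : ℝ) ≤ (G ^ N * ((1 / 2 : ℝ) ^ Q) ^ (N - Q ^ Fintype.card L)) ^ 2 :=
      one_le_pow₀ hcomb
    have h2 : (((1 / 2 : ℝ) ^ Q) ^ (N - Q ^ Fintype.card L)) ^ 2 ≤ ((1 / 2 : ℝ) ^ Q) ^ N := by
      rw [← pow_mul]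
      apply pow_le_pow_of_le_one (by positivity) (pow_le_one₀ (by norm_num) (by norm_num))
      omega
    calc (1 : ℝ) ≤ (G ^ N * ((1 / 2 : ℝ) ^ Q) ^ (N - Q ^ Fintype.card L)) ^ 2 := h1
      _ = (G ^ N) ^ 2 * (((1 / 2 : ℝ) ^ Q) ^ (N - Q ^ Fintype.card L)) ^ 2 := by ring
      _ ≤ (G ^ N) ^ 2 * ((1 / 2 : ℝ) ^ Q) ^ N := by gcongr
      _ = (G ^ 2 * (1 / 2 : ℝ) ^ Q) ^ N := by
          rw [mul_pow (G ^ 2), pow_right_comm G 2 N]
  have hlt : G ^ 2 * (1 / 2 : ℝ) ^ Q < 1 := by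
    have h2Q : (0 : ℝ) < 2 ^ Q := by positivity
    rw [one_div, inv_pow, ← div_eq_mul_inv, div_lt_one h2Q]
    exact hlarge
  have : (G ^ 2 * (1 / 2 : ℝ) ^ Q) ^ N < 1 := pow_lt_one₀ (by positivity) hlt (by omega)
  linarith

end Pool.Agent.W254.PA
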